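import Pool.Agent.H1MS.Core

set_option autoImplicit false

/-!
Basic lemmas on abstract schemes: tuples of two and three points, colours of pairs.
-/

namespace Pool.Agent.H1MS

variable {U : Type} {m : ℕ}

namespace Sch

variable (c : Sch U m)

theorem pair_to {y y' z z' : U} (hm : 2 ≤ m) (h : c.r ![y, y'] ![z, z']) :
    c.r (sn (sn (emp U) y) y') (sn (sn (emp U) z) z') := by
  refine c.ofSub h (fun o => o.elim 1 (fun _ => 0)) (by simpa using hm) ?_ ?_ ?_
  · simpa using hm
  · rintro (_ | _ | i)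
    · simp
    · simp
    · exact i.elim
  · rintro (_ | _ | i)
    · simp
    · simp
    · exact i.elim

theorem pair_of {y y' z z' : U} (hm : 2 ≤ m)
    (h : c.r (sn (sn (emp U) y) y') (sn (sn (emp U) z) z')) : c.r ![y, y'] ![z, z'] := by
  refine c.ofSub h (![some none, none] : Fin 2 → Option (Option Empty)) (by simpa using hm)
    (by simpa using hm) ?_ ?_
  · intro k; fin_cases k <;> simp
  · intro k; fin_cases k <;> simp

theorem triple_to {x y y' x1 z z' : U} (hm : 3 ≤ m) (h : c.r ![x, y, y'] ![x1, z, z']) :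
    c.r (sn (sn (fun _ : Unit => x) y) y') (sn (sn (fun _ : Unit => x1) z) z') := by
  refine c.ofSub h (fun o => o.elim 2 (fun o => o.elim 1 (fun _ => 0))) (by simpa using hm)
    (by simpa using hm) ?_ ?_
  · rintro (_ | _ | i) <;> simp
  · rintro (_ | _ | i) <;> simp

theorem triple_of {x y y' x1 z z' : U} (hm : 3 ≤ m)
    (h : c.r (sn (sn (fun _ : Unit => x) y) y') (sn (sn (fun _ : Unit => x1) z) z')) :
    c.r ![x, y, y'] ![x1, z, z'] := by
  refine c.ofSub h (![some (some ()), some none, none] : Fin 3 → Option (Option Unit))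
    (by simpa using hm) (by simpa using hm) ?_ ?_
  · intro k; fin_cases k <;> simp
  · intro k; fin_cases k <;> simp

theorem pairU_to {x y x1 z : U} (hm : 2 ≤ m) (h : c.r ![x, y] ![x1, z]) :
    c.r (sn (fun _ : Unit => x) y) (sn (fun _ : Unit => x1) z) := by
  refine c.ofSub h (fun o => o.elim 1 (fun _ => 0)) (by simpa using hm)
    (by simpa using hm) ?_ ?_
  · rintro (_ | i) <;> simp
  · rintro (_ | i) <;> simp

theorem pairU_of {x y x1 z : U} (hm : 2 ≤ m)
    (h : c.r (sn (fun _ : Unit => x) y) (sn (fun _ : Unit => x1) z)) :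
    c.r ![x, y] ![x1, z] := by
  refine c.ofSub h (![some (), none] : Fin 2 → Option Unit)
    (by simpa using hm) (by simpa using hm) ?_ ?_
  · intro k; fin_cases k <;> simp
  · intro k; fin_cases k <;> simp

/-- Extension of a pair by one point, with a permutation. -/
theorem ext2 {y y' z z' : U} (hm : 3 ≤ m) (h : c.r ![y, y'] ![z, z']) :
    ∃ π : Equiv.Perm U, ∀ u, c.r ![y, y', u] ![z, z', π u] := by
  obtain ⟨π, hπ⟩ := c.ext' (by simpa using hm) h
  refine ⟨π, fun u => ?_⟩
  refine c.ofSub (hπ u) (![some 0, some 1, none] : Fin 3 → Option (Fin 2))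
    (by simpa using hm) (by simpa using hm) ?_ ?_
  · intro k; fin_cases k <;> simp
  · intro k; fin_cases k <;> simp

/-- Sub-pair of a triple. -/
theorem sub3 {x y z x' y' z' : U} (hm : 3 ≤ m) (h : c.r ![x, y, z] ![x', y', z'])
    (i j : Fin 3) : c.r ![(![x, y, z] : Fin 3 → U) i, (![x, y, z] : Fin 3 → U) j]
      ![(![x', y', z'] : Fin 3 → U) i, (![x', y', z'] : Fin 3 → U) j] := by
  refine c.ofSub h (![i, j] : Fin 2 → Fin 3) (by simpa using hm)
    (by simp; omega) ?_ ?_
  · intro k; fin_cases k <;> simp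
  · intro k; fin_cases k <;> simp

theorem swap2 {y y' z z' : U} (hm : 2 ≤ m) (h : c.r ![y, y'] ![z, z']) :
    c.r ![y', y] ![z', z] := by
  refine c.ofSub h (![1, 0] : Fin 2 → Fin 2) (by simpa using hm) (by simpa using hm) ?_ ?_
  · intro k; fin_cases k <;> simp
  · intro k; fin_cases k <;> simp

theorem rot3 {x y z x' y' z' : U} (hm : 3 ≤ m) (h : c.r ![x, y, z] ![x', y', z']) :
    c.r ![y, z, x] ![y', z', x'] := by
  refine c.ofSub h (![1, 2, 0] : Fin 3 → Fin 3) (by simpa using hm) (by simpa using hm) ?_ ?_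
  · intro k; fin_cases k <;> simp
  · intro k; fin_cases k <;> simp

end Sch

theorem pc_eq_iff (c : Sch U m) (hm : 2 ≤ m) {y y' z z' : U} :
    pc c y y' = pc c z z' ↔ c.r ![y, y'] ![z, z'] := by
  constructor
  · intro h
    have h1 : (z, z') ∈ pc c z z' := c.rfl' _ (by simpa using hm)
    rw [← h] at h1
    exact h1
  · intro h
    ext p
    constructor
    · intro hp
      exact c.trans' (by simpa using hm) (c.symm' (by simpa using hm) h) hp
    · intro hp
      exact c.trans' (by simpa using hm) h hp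

theorem coh_pc [Fintype U] (c : Sch U m) (hm : 3 ≤ m) : Coh (pc c) := by
  have hm2 : 2 ≤ m := by omega
  refine ⟨?_, ?_, ?_, ?_⟩
  · intro y z z' h
    rw [pc_eq_iff c hm2] at h
    exact c.inj' (by simpa using hm2) h 0 1 (by simp)
  · intro y y' z z' h
    rw [pc_eq_iff c hm2] at h ⊢
    exact c.swap2 hm2 h
  · intro y y' z z' h
    rw [pc_eq_iff c hm2] at h ⊢
    refine c.ofSub h (![0, 0] : Fin 2 → Fin 2) (by simpa using hm2) (by simpa using hm2) ?_ ?_
    · intro k; fin_cases k <;> simp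
    · intro k; fin_cases k <;> simp
  · intro M M' hM hM' y y' z z' h
    rw [pc_eq_iff c hm2] at h
    obtain ⟨π, hπ⟩ := c.ext2 hm h
    rw [Matrix.mul_apply, Matrix.mul_apply]
    refine Fintype.sum_equiv π _ _ (fun u => ?_)
    have h1 := c.sub3 hm (hπ u) 0 2
    have h2 := c.sub3 hm (hπ u) 2 1
    simp at h1 h2
    rw [hM y u z (π u) ((pc_eq_iff c hm2).2 h1), hM' u y' (π u) z' ((pc_eq_iff c hm2).2 h2)]

end Pool.Agent.H1MS
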