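import Pool.Agent.H1MS.Coh

set_option autoImplicit false

/-!
Cauchy-Schwarz for the numbers of colours between the fibres of a coherent colouring.

`KK a b c d` is the kernel of the orthogonal projection onto the matrices constant on colours;
`zz X = ∑_R |R|⁻¹ A_R X A_Rᵀ` commutes with all these matrices, `zz 1` is positive definite.
-/

namespace Pool.Agent.H1MS

open Finset Matrix

section kernel

variable {U C : Type} [Fintype U]

theorem sum3 (g : U → U → U → ℝ) :
    ∑ a, ∑ c, ∑ b, g a c b = ∑ b, ∑ a, ∑ c, g a c b := by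
  rw [Finset.sum_congr rfl (fun a _ => Finset.sum_comm), Finset.sum_comm]

open Classical in
/-- the number of pairs of the colour of `(a, b)` -/
noncomputable def nn (κ : U → U → C) (a b : U) : ℝ :=
  ((univ.filter (fun p : U × U => κ a b = κ p.1 p.2)).card : ℝ)

open Classical in
/-- the kernel of the projection onto the matrices constant on colours -/
noncomputable def KK (κ : U → U → C) (a b c d : U) : ℝ :=
  if κ a b = κ c d then 1 / nn κ a b else 0

theorem nn_pos (κ : U → U → C) (a b : U) : 0 < nn κ a b := by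
  classical
  unfold nn
  have : 0 < (univ.filter (fun p : U × U => κ a b = κ p.1 p.2)).card :=
    Finset.card_pos.2 ⟨(a, b), by simp⟩
  exact_mod_cast this

theorem nn_congr {κ : U → U → C} {a b c d : U} (h : κ a b = κ c d) : nn κ a b = nn κ c d := by
  unfold nn
  rw [h]

theorem nn_swap {κ : U → U → C} (hκ : Coh κ) (a b : U) : nn κ a b = nn κ b a := by
  classical
  unfold nn
  congr 1
  apply Finset.card_nbij' (fun p => (p.2, p.1)) (fun p => (p.2, p.1))
  · intro p hp
    simp only [coe_filter, mem_univ, true_and, Set.mem_ofPred_eq] at hp ⊢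
    exact hκ.tr _ _ _ _ hp
  · intro p hp
    simp only [coe_filter, mem_univ, true_and, Set.mem_ofPred_eq] at hp ⊢
    exact hκ.tr _ _ _ _ hp
  · intro p _; rfl
  · intro p _; rfl

theorem KK_symm (κ : U → U → C) (a b c d : U) : KK κ a b c d = KK κ c d a b := by
  unfold KK
  by_cases h : κ a b = κ c d
  · rw [if_pos h, if_pos h.symm, nn_congr h]
  · rw [if_neg h, if_neg (fun h' => h h'.symm)]

theorem KK_tr {κ : U → U → C} (hκ : Coh κ) (a b c d : U) : KK κ a b c d = KK κ b a d c := by
  unfold KK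
  by_cases h : κ a b = κ c d
  · rw [if_pos h, if_pos (hκ.tr _ _ _ _ h), nn_swap hκ]
  · rw [if_neg h, if_neg (fun h' => h (hκ.tr _ _ _ _ h'))]

theorem KK_cc (κ : U → U → C) (c d : U) : CC κ (Matrix.of fun a b => KK κ a b c d) := by
  intro y y' z z' h
  simp only [Matrix.of_apply]
  unfold KK
  rw [h, nn_congr h]

/-- the reproducing property -/
theorem KK_repr {κ : U → U → C} {M : Matrix U U ℝ} (hM : CC κ M) (a b : U) :
    ∑ c, ∑ d, KK κ a b c d * M c d = M a b := by
  classical
  rw [← Fintype.sum_prod_type' (f := fun c d => KK κ a b c d * M c d)]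
  have h1 : ∀ p : U × U, KK κ a b p.1 p.2 * M p.1 p.2 =
      if κ a b = κ p.1 p.2 then (1 / nn κ a b) * M a b else 0 := by
    intro p
    unfold KK
    split_ifs with h
    · rw [hM _ _ _ _ h]
    · ring
  rw [Finset.sum_congr rfl (fun p _ => h1 p), ← Finset.sum_filter, Finset.sum_const,
    nsmul_eq_mul]
  have h2 := (nn_pos κ a b).ne'
  have h3 : ((univ.filter (fun p : U × U => κ a b = κ p.1 p.2)).card : ℝ) = nn κ a b := rfl
  rw [h3]
  field_simp

theorem CC_transpose {κ : U → U → C} (hκ : Coh κ) {M : Matrix U U ℝ} (hM : CC κ M) :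
    CC κ Mᵀ := by
  intro y y' z z' h
  simp only [Matrix.transpose_apply]
  exact hM _ _ _ _ (hκ.tr _ _ _ _ h)

/-- the kernel commutes with the matrices constant on colours -/
theorem KK_comm {κ : U → U → C} (hκ : Coh κ) {M : Matrix U U ℝ} (hM : CC κ M) (a b c d : U) :
    ∑ e, M a e * KK κ e b c d = ∑ e, KK κ a b e d * M e c := by
  have h1 : ∑ e, M a e * KK κ e b c d =
      (M * (Matrix.of fun x y => KK κ x y c d)) a b := by
    simp [Matrix.mul_apply]
  have h2 : ∑ e, KK κ a b e d * M e c =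
      (Mᵀ * (Matrix.of fun x y => KK κ x y a b)) c d := by
    simp only [Matrix.mul_apply, Matrix.transpose_apply, Matrix.of_apply]
    refine Finset.sum_congr rfl fun e _ => ?_
    rw [KK_symm κ a b e d]
    ring
  rw [h1, h2, ← KK_repr (hκ.mul _ _ hM (KK_cc κ c d)) a b,
    ← KK_repr (hκ.mul _ _ (CC_transpose hκ hM) (KK_cc κ a b)) c d]
  simp only [Matrix.mul_apply, Matrix.transpose_apply, Matrix.of_apply, Finset.mul_sum]
  -- left: ∑ x y e, KK a b x y * (M x e * KK e y c d)
  -- right: ∑ x y e, KK c d x y * (M e x * KK e y a b)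
  have h3 : ∑ x, ∑ y, ∑ e, KK κ a b x y * (M x e * KK κ e y c d) =
      ∑ e, ∑ y, ∑ x, KK κ a b x y * (M x e * KK κ e y c d) := by
    rw [Finset.sum_congr rfl (fun x _ => Finset.sum_comm), Finset.sum_comm,
      Finset.sum_congr rfl (fun e _ => Finset.sum_comm)]
  rw [h3]
  refine Finset.sum_congr rfl fun e _ => Finset.sum_congr rfl fun y _ =>
    Finset.sum_congr rfl fun x _ => ?_
  rw [KK_symm κ a b x y, KK_symm κ e y c d]
  ring

/-- `zz X = ∑_R |R|⁻¹ A_R X A_Rᵀ` -/
noncomputable def zz (κ : U → U → C) (X : Matrix U U ℝ) : Matrix U U ℝ :=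
  Matrix.of fun a c => ∑ b, ∑ d, KK κ a b c d * X b d

theorem zz_comm {κ : U → U → C} (hκ : Coh κ) {M : Matrix U U ℝ} (hM : CC κ M)
    (X : Matrix U U ℝ) : M * zz κ X = zz κ X * M := by
  ext a c
  simp only [Matrix.mul_apply, zz, Matrix.of_apply, Finset.mul_sum, Finset.sum_mul]
  rw [Finset.sum_comm]
  conv_rhs => rw [Finset.sum_comm]
  refine Finset.sum_congr rfl fun b _ => ?_
  rw [Finset.sum_comm]
  conv_rhs => rw [Finset.sum_comm]
  refine Finset.sum_congr rfl fun d _ => ?_
  have h := KK_comm hκ hM a b c d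
  calc ∑ e, M a e * (KK κ e b c d * X b d) = (∑ e, M a e * KK κ e b c d) * X b d := by
        rw [Finset.sum_mul]
        exact Finset.sum_congr rfl fun e _ => by ring
    _ = (∑ e, KK κ a b e d * M e c) * X b d := by rw [h]
    _ = ∑ e, KK κ a b e d * X b d * M e c := by
        rw [Finset.sum_mul]
        exact Finset.sum_congr rfl fun e _ => by ring

theorem zz_transpose (κ : U → U → C) (X : Matrix U U ℝ) : (zz κ X)ᵀ = zz κ Xᵀ := by
  ext a c
  simp only [Matrix.transpose_apply, zz, Matrix.of_apply]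
  rw [Finset.sum_comm]
  refine Finset.sum_congr rfl fun d _ => Finset.sum_congr rfl fun b _ => ?_
  rw [KK_symm κ c b a d]

variable [DecidableEq U]

theorem zz_one_apply (κ : U → U → C) (a c : U) : zz κ 1 a c = ∑ b, KK κ a b c b := by
  simp [zz, Matrix.one_apply]

/-- `zz 1` is constant on colours -/
theorem zz_one_cc {κ : U → U → C} (hκ : Coh κ) : CC κ (zz κ 1) := by
  have h1 : ∀ a c, zz κ 1 a c = ∑ p, ∑ q,
      ((Matrix.of fun x y => KK κ x y p q) * (Matrix.of fun x y => KK κ x y p q)ᵀ) a c := by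
    intro a c
    rw [zz_one_apply]
    simp only [Matrix.mul_apply, Matrix.transpose_apply, Matrix.of_apply]
    have h2 : ∀ b, KK κ a b c b = ∑ p, ∑ q, KK κ a b p q * KK κ c b p q := by
      intro b
      have := KK_repr (KK_cc κ c b) a b
      simp only [Matrix.of_apply] at this
      rw [← this]
      refine Finset.sum_congr rfl fun p _ => Finset.sum_congr rfl fun q _ => ?_
      rw [KK_symm κ p q c b]
    rw [Finset.sum_congr rfl (fun b _ => h2 b), Finset.sum_comm]
    exact Finset.sum_congr rfl fun p _ => Finset.sum_comm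
  intro y y' z z' h
  rw [h1, h1]
  refine Finset.sum_congr rfl fun p _ => Finset.sum_congr rfl fun q _ => ?_
  exact hκ.mul _ _ (KK_cc κ p q) (CC_transpose hκ (KK_cc κ p q)) _ _ _ _ h

theorem zz_one_posDef {κ : U → U → C} (hκ : Coh κ) : (zz κ 1).PosDef := by
  apply Matrix.PosDef.of_dotProduct_mulVec_pos
  · rw [Matrix.IsHermitian, Matrix.conjTranspose_eq_transpose_of_trivial, zz_transpose,
      Matrix.transpose_one]
  · intro x hx
    have h1 : star x ⬝ᵥ (zz κ 1) *ᵥ x = ∑ b, ∑ p, ∑ q, (∑ a, x a * KK κ a b p q) ^ 2 := by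
      have h2 : ∀ a c, zz κ 1 a c = ∑ b, ∑ p, ∑ q, KK κ a b p q * KK κ c b p q := by
        intro a c
        rw [zz_one_apply]
        refine Finset.sum_congr rfl fun b _ => ?_
        have := KK_repr (KK_cc κ c b) a b
        simp only [Matrix.of_apply] at this
        rw [← this]
        refine Finset.sum_congr rfl fun p _ => Finset.sum_congr rfl fun q _ => ?_
        rw [KK_symm κ p q c b]
      have h3 : ∀ b p q, (∑ a, x a * KK κ a b p q) ^ 2 =
          ∑ a, ∑ c, x a * (KK κ a b p q * KK κ c b p q) * x c := by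
        intro b p q
        rw [sq, Finset.sum_mul_sum]
        exact Finset.sum_congr rfl fun a _ => Finset.sum_congr rfl fun c _ => by ring
      simp only [dotProduct, Matrix.mulVec, star_trivial]
      rw [Finset.sum_congr rfl (fun b _ => Finset.sum_congr rfl (fun p _ =>
        Finset.sum_congr rfl (fun q _ => h3 b p q)))]
      calc ∑ a, x a * ∑ c, zz κ 1 a c * x c
          = ∑ a, ∑ c, ∑ b, ∑ p, ∑ q, x a * (KK κ a b p q * KK κ c b p q) * x c := by
            refine Finset.sum_congr rfl fun a _ => ?_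
            rw [Finset.mul_sum]
            refine Finset.sum_congr rfl fun c _ => ?_
            rw [h2, Finset.sum_mul, Finset.mul_sum]
            refine Finset.sum_congr rfl fun b _ => ?_
            rw [Finset.sum_mul, Finset.mul_sum]
            refine Finset.sum_congr rfl fun p _ => ?_
            rw [Finset.sum_mul, Finset.mul_sum]
            exact Finset.sum_congr rfl fun q _ => by ring
        _ = ∑ b, ∑ p, ∑ q, ∑ a, ∑ c, x a * (KK κ a b p q * KK κ c b p q) * x c := by
            refine (sum3 _).trans (Finset.sum_congr rfl fun b _ => ?_)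
            refine (sum3 _).trans (Finset.sum_congr rfl fun p _ => ?_)
            exact sum3 _
    rw [h1]
    obtain ⟨u, hu⟩ : ∃ u, x u ≠ 0 := by
      by_contra hcon
      push Not at hcon
      exact hx (funext hcon)
    have hval : ∑ a, x a * KK κ a u u u = x u * KK κ u u u u := by
      rw [Finset.sum_eq_single u]
      · intro a _ ha
        have : ¬ κ a u = κ u u := by
          intro h
          exact ha (hκ.diag _ _ _ h.symm)
        unfold KK
        rw [if_neg this, mul_zero]
      · intro h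
        exact absurd (Finset.mem_univ u) h
    have hpos : 0 < (∑ a, x a * KK κ a u u u) ^ 2 := by
      rw [hval]
      have : KK κ u u u u ≠ 0 := by
        unfold KK
        rw [if_pos rfl]
        have := nn_pos κ u u
        positivity
      positivity
    refine Finset.sum_pos' (fun b _ => Finset.sum_nonneg fun p _ => Finset.sum_nonneg fun q _ =>
      sq_nonneg _) ⟨u, Finset.mem_univ _, ?_⟩
    refine Finset.sum_pos' (fun p _ => Finset.sum_nonneg fun q _ =>
      sq_nonneg _) ⟨u, Finset.mem_univ _, ?_⟩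
    exact Finset.sum_pos' (fun q _ => sq_nonneg _) ⟨u, Finset.mem_univ _, hpos⟩

/-- the trace formula -/
theorem trace_zz {κ : U → U → C} (hκ : Coh κ) (X T : Matrix U U ℝ)
    (hT : ∀ M, CC κ M → M * T = T * M) :
    (zz κ X * T).trace = (X * (zz κ 1 * T)).trace := by
  have key : ∀ b d, ∑ c, ∑ a, T c a * KK κ a b c d = (zz κ 1 * T) d b := by
    intro b d
    have h1 : ∀ c, ∑ a, T c a * KK κ a b c d = ∑ e, KK κ c e c d * T e b := by
      intro c
      have h2 := congrFun (congrFun (hT _ (KK_cc κ c d)) c) b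
      simp only [Matrix.mul_apply, Matrix.of_apply] at h2
      exact h2.symm
    rw [Finset.sum_congr rfl (fun c _ => h1 c), Finset.sum_comm]
    simp only [Matrix.mul_apply]
    refine Finset.sum_congr rfl fun e _ => ?_
    rw [← Finset.sum_mul]
    congr 1
    rw [zz_one_apply]
    refine Finset.sum_congr rfl fun c _ => ?_
    rw [KK_tr hκ c e c d, KK_symm]
  simp only [Matrix.trace, Matrix.diag_apply]
  simp only [Matrix.mul_apply (M := zz κ X), Matrix.mul_apply (M := X)]
  calc ∑ a, ∑ c, zz κ X a c * T c a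
      = ∑ a, ∑ c, ∑ b, ∑ d, X b d * (T c a * KK κ a b c d) := by
        refine Finset.sum_congr rfl fun a _ => Finset.sum_congr rfl fun c _ => ?_
        simp only [zz, Matrix.of_apply]
        rw [Finset.sum_mul]
        refine Finset.sum_congr rfl fun b _ => ?_
        rw [Finset.sum_mul]
        exact Finset.sum_congr rfl fun d _ => by ring
    _ = ∑ b, ∑ d, ∑ c, ∑ a, X b d * (T c a * KK κ a b c d) := by
        rw [Finset.sum_comm]
        refine (sum3 _).trans (Finset.sum_congr rfl fun b _ => ?_)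
        exact sum3 _
    _ = ∑ b, ∑ d, X b d * (zz κ 1 * T) d b := by
        refine Finset.sum_congr rfl fun b _ => Finset.sum_congr rfl fun d _ => ?_
        rw [← key b d, Finset.mul_sum]
        exact Finset.sum_congr rfl fun c _ => by rw [Finset.mul_sum]

/-- the matrix `1 / n(a, b)` is positive semidefinite -/
theorem quad_nonneg {κ : U → U → C} (hκ : Coh κ) (t : U → ℝ) :
    0 ≤ ∑ a, ∑ b, t a * t b * (1 / nn κ a b) := by
  set D : Matrix U U ℝ := Matrix.diagonal t with hD
  set c := zz κ 1 with hc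
  set Z := zz κ D with hZ
  have hcp : c.PosDef := zz_one_posDef hκ
  have hcu : IsUnit c.det := (Matrix.isUnit_iff_isUnit_det c).1 hcp.isUnit
  have hcw : c * c⁻¹ = 1 := Matrix.mul_nonsing_inv c hcu
  have hwc : c⁻¹ * c = 1 := Matrix.nonsing_inv_mul c hcu
  have hcV : ∀ M, CC κ M → M * c = c * M := fun M hM => zz_comm hκ hM 1
  have hwV : ∀ M, CC κ M → M * c⁻¹ = c⁻¹ * M := by
    intro M hM
    have h := hcV M hM
    calc M * c⁻¹ = (c⁻¹ * c) * M * c⁻¹ := by rw [hwc, Matrix.one_mul]
      _ = c⁻¹ * (c * M) * c⁻¹ := by rw [Matrix.mul_assoc c⁻¹ c M]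
      _ = c⁻¹ * (M * c) * c⁻¹ := by rw [h]
      _ = c⁻¹ * M * (c * c⁻¹) := by simp only [Matrix.mul_assoc]
      _ = c⁻¹ * M := by rw [hcw, Matrix.mul_one]
  have hZV : ∀ M, CC κ M → M * Z = Z * M := fun M hM => zz_comm hκ hM D
  have hZt : Zᵀ = Z := by rw [hZ, zz_transpose, hD, Matrix.diagonal_transpose]
  have h1 : 0 ≤ (Z * c⁻¹ * Z).trace := by
    have h2 : (Zᴴ * c⁻¹ * Z).PosSemidef := hcp.inv.posSemidef.conjTranspose_mul_mul_same Z
    rw [Matrix.conjTranspose_eq_transpose_of_trivial, hZt] at h2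
    exact h2.trace_nonneg
  have h2 : (Z * c⁻¹ * Z).trace = (D * Z).trace := by
    have hT : ∀ M, CC κ M → M * (Z * c⁻¹) = (Z * c⁻¹) * M := by
      intro M hM
      rw [← Matrix.mul_assoc, hZV M hM, Matrix.mul_assoc, hwV M hM, Matrix.mul_assoc]
    rw [Matrix.trace_mul_comm, hZ, trace_zz hκ D (zz κ D * c⁻¹) hT, ← hc, ← hZ,
      ← Matrix.mul_assoc c Z, hZV c (zz_one_cc hκ), Matrix.mul_assoc Z, hcw, Matrix.mul_one]
  have h3 : (D * Z).trace = ∑ a, ∑ b, t a * t b * (1 / nn κ a b) := by
    simp only [Matrix.trace, Matrix.diag_apply, hD, Matrix.diagonal_mul]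
    refine Finset.sum_congr rfl fun a _ => ?_
    simp only [hZ, zz, Matrix.of_apply, hD]
    rw [Finset.mul_sum]
    refine Finset.sum_congr rfl fun b _ => ?_
    rw [Finset.sum_eq_single b]
    · rw [Matrix.diagonal_apply_eq]
      unfold KK
      rw [if_pos rfl]
      ring
    · intro d _ hd
      rw [Matrix.diagonal_apply_ne _ (Ne.symm hd), mul_zero]
    · intro h
      exact absurd (Finset.mem_univ b) h
  rw [← h3, ← h2]
  exact h1

end kernel

/-- Cauchy-Schwarz for the numbers of colours between two fibres. -/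
theorem cs_colours {U C : Type} [Fintype U] [DecidableEq U] (κ : U → U → C) (hκ : Coh κ)
    (q q' : U) :
    ((fun p : U × U => κ p.1 p.2) '' {p | κ p.1 p.1 = κ q q ∧ κ p.2 p.2 = κ q' q'}).ncard ^ 2 ≤
    ((fun p : U × U => κ p.1 p.2) '' {p | κ p.1 p.1 = κ q q ∧ κ p.2 p.2 = κ q q}).ncard *
    ((fun p : U × U => κ p.1 p.2) '' {p | κ p.1 p.1 = κ q' q' ∧ κ p.2 p.2 = κ q' q'}).ncard := by
  classical
  -- the number of colours as a sum
  have hcount : ∀ q q' : U, (((fun p : U × U => κ p.1 p.2) ''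
      {p | κ p.1 p.1 = κ q q ∧ κ p.2 p.2 = κ q' q'}).ncard : ℝ) =
      ∑ a, ∑ b, (if κ a a = κ q q then (1 : ℝ) else 0) * (if κ b b = κ q' q' then (1 : ℝ) else 0) *
        (1 / nn κ a b) := by
    intro q q'
    set S : Finset (U × U) := univ.filter
      (fun p : U × U => κ p.1 p.1 = κ q q ∧ κ p.2 p.2 = κ q' q') with hS
    have h1 : {p : U × U | κ p.1 p.1 = κ q q ∧ κ p.2 p.2 = κ q' q'} = (S : Set (U × U)) := by
      ext p
      simp [hS]
    rw [h1, ← Finset.coe_image, Set.ncard_coe_finset]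
    rw [← Fintype.sum_prod_type' (f := fun a b => (if κ a a = κ q q then (1 : ℝ) else 0) *
      (if κ b b = κ q' q' then (1 : ℝ) else 0) * (1 / nn κ a b))]
    have h2 : ∀ p : U × U, (if κ p.1 p.1 = κ q q then (1 : ℝ) else 0) *
        (if κ p.2 p.2 = κ q' q' then (1 : ℝ) else 0) * (1 / nn κ p.1 p.2) =
        if (κ p.1 p.1 = κ q q ∧ κ p.2 p.2 = κ q' q') then 1 / nn κ p.1 p.2 else 0 := by
      intro p
      by_cases ha : κ p.1 p.1 = κ q q <;> by_cases hb : κ p.2 p.2 = κ q' q' <;> simp [ha, hb]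
    rw [Finset.sum_congr rfl (fun p _ => h2 p), ← Finset.sum_filter, ← hS]
    rw [← Finset.sum_fiberwise_of_maps_to (g := fun p : U × U => κ p.1 p.2)
      (t := S.image (fun p : U × U => κ p.1 p.2)) (fun p hp => Finset.mem_image_of_mem _ hp)]
    have h3 : ∀ R ∈ S.image (fun p : U × U => κ p.1 p.2),
        ∑ p ∈ S.filter (fun p : U × U => κ p.1 p.2 = R), 1 / nn κ p.1 p.2 = 1 := by
      intro R hR
      obtain ⟨p0, hp0, rfl⟩ := Finset.mem_image.1 hR
      have h4 : ∀ p ∈ S.filter (fun p : U × U => κ p.1 p.2 = κ p0.1 p0.2),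
          1 / nn κ p.1 p.2 = 1 / nn κ p0.1 p0.2 := by
        intro p hp
        rw [nn_congr (Finset.mem_filter.1 hp).2]
      rw [Finset.sum_congr rfl h4, Finset.sum_const, nsmul_eq_mul]
      have h5 : S.filter (fun p : U × U => κ p.1 p.2 = κ p0.1 p0.2) =
          univ.filter (fun p : U × U => κ p0.1 p0.2 = κ p.1 p.2) := by
        ext p
        simp only [hS, Finset.mem_filter, Finset.mem_univ, true_and]
        constructor
        · rintro ⟨-, h⟩
          exact h.symm
        · intro h
          have hp0' := (Finset.mem_filter.1 hp0).2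
          refine ⟨⟨?_, ?_⟩, h.symm⟩
          · rw [← hp0'.1]
            exact (hκ.fst _ _ _ _ h).symm
          · rw [← hp0'.2]
            exact (hκ.fst _ _ _ _ (hκ.tr _ _ _ _ h)).symm
      rw [h5]
      have h6 := (nn_pos κ p0.1 p0.2).ne'
      have h7 : ((univ.filter (fun p : U × U => κ p0.1 p0.2 = κ p.1 p.2)).card : ℝ) =
        nn κ p0.1 p0.2 := rfl
      rw [h7]
      field_simp
    rw [Finset.sum_congr rfl h3]
    simp
  set r : U → U → ℝ := fun q q' => ∑ a, ∑ b, (if κ a a = κ q q then (1 : ℝ) else 0) *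
    (if κ b b = κ q' q' then (1 : ℝ) else 0) * (1 / nn κ a b) with hr
  have hsymm : r q q' = r q' q := by
    simp only [hr]
    rw [Finset.sum_comm]
    refine Finset.sum_congr rfl fun b _ => Finset.sum_congr rfl fun a _ => ?_
    rw [nn_swap hκ a b]
    ring
  have hquad : ∀ x : ℝ, 0 ≤ r q' q' * (x * x) + (2 * r q q') * x + r q q := by
    intro x
    have h := quad_nonneg hκ (fun a => (if κ a a = κ q q then (1 : ℝ) else 0) +
      x * (if κ a a = κ q' q' then (1 : ℝ) else 0))
    have h1 : ∑ a, ∑ b, ((if κ a a = κ q q then (1 : ℝ) else 0) +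
        x * (if κ a a = κ q' q' then (1 : ℝ) else 0)) *
        ((if κ b b = κ q q then (1 : ℝ) else 0) +
        x * (if κ b b = κ q' q' then (1 : ℝ) else 0)) * (1 / nn κ a b) =
        r q q + x * r q q' + x * r q' q + x * x * r q' q' := by
      simp only [hr, Finset.mul_sum, ← Finset.sum_add_distrib]
      refine Finset.sum_congr rfl fun a _ => Finset.sum_congr rfl fun b _ => ?_
      ring
    rw [h1, ← hsymm] at h
    linarith
  have hd := discrim_le_zero hquad
  unfold discrim at hd
  have h1 : r q q' ^ 2 ≤ r q q * r q' q' := by nlinarith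
  have h2 : (((fun p : U × U => κ p.1 p.2) ''
      {p | κ p.1 p.1 = κ q q ∧ κ p.2 p.2 = κ q' q'}).ncard : ℝ) ^ 2 ≤
      (((fun p : U × U => κ p.1 p.2) ''
      {p | κ p.1 p.1 = κ q q ∧ κ p.2 p.2 = κ q q}).ncard : ℝ) *
      (((fun p : U × U => κ p.1 p.2) ''
      {p | κ p.1 p.1 = κ q' q' ∧ κ p.2 p.2 = κ q' q'}).ncard : ℝ) := by
    rw [hcount q q', hcount q q, hcount q' q']
    exact h1
  exact_mod_cast h2

end Pool.Agent.H1MS
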