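import Pool.Agent.H1MS.Named

set_option autoImplicit false
set_option linter.unusedSectionVars false

/-!
The named scheme on one class has no matching, is antisymmetric and homogeneous.
-/

namespace Pool.Agent.H1MS

variable {U : Type} {m : ℕ}

theorem coe_sn {ι : Type} {p : U → Prop} (a : ι → {y : U // p y}) (y : {y : U // p y}) :
    (fun o => ((sn a y o : {y : U // p y}) : U)) = sn (fun i => (a i : U)) (y : U) := by
  funext o; cases o <;> rfl

section

variable (c : Sch U m)

theorem wx_sn {ι : Type} [Finite ι] {x x1 : U} {A A' : ι → U} {y y' : U}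
    (hm : Nat.card ι + 2 ≤ m) :
    c.r (wx x (sn A y)) (wx x1 (sn A' y')) ↔ c.r (sn (wx x A) y) (sn (wx x1 A') y') := by
  have h1 : Nat.card (Unit ⊕ Option ι) = Nat.card ι + 2 := by
    rw [Nat.card_sum, Nat.card_unique, Finite.card_option]; omega
  have h2 : Nat.card (Option (Unit ⊕ ι)) = Nat.card ι + 2 := by
    rw [Finite.card_option, Nat.card_sum, Nat.card_unique]; omega
  constructor
  · intro h
    refine c.ofSub h (fun o => o.elim (Sum.inr none)
      (fun s => s.elim (fun u => Sum.inl u) (fun i => Sum.inr (some i)))) (by omega) (by omega) ?_ ?_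
    · rintro (_ | _ | i) <;> simp
    · rintro (_ | _ | i) <;> simp
  · intro h
    refine c.ofSub h (fun s => s.elim (fun u => some (Sum.inl u))
      (fun o => o.elim none (fun i => some (Sum.inr i)))) (by omega) (by omega) ?_ ?_
    · rintro (_ | _ | i) <;> simp
    · rintro (_ | _ | i) <;> simp

theorem wx_sn2 {ι : Type} [Finite ι] {x x1 : U} {A A' : ι → U} {y y' z z' : U}
    (hm : Nat.card ι + 3 ≤ m) :
    c.r (wx x (sn (sn A y) z)) (wx x1 (sn (sn A' y') z')) ↔
      c.r (sn (sn (wx x A) y) z) (sn (sn (wx x1 A') y') z') := by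
  have h1 : Nat.card (Unit ⊕ Option (Option ι)) = Nat.card ι + 3 := by
    rw [Nat.card_sum, Nat.card_unique, Finite.card_option, Finite.card_option]; omega
  have h2 : Nat.card (Option (Option (Unit ⊕ ι))) = Nat.card ι + 3 := by
    rw [Finite.card_option, Finite.card_option, Nat.card_sum, Nat.card_unique]; omega
  constructor
  · intro h
    refine c.ofSub h (fun o => o.elim (Sum.inr none) (fun o => o.elim (Sum.inr (some none))
      (fun s => s.elim (fun u => Sum.inl u) (fun i => Sum.inr (some (some i))))))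
      (by omega) (by omega) ?_ ?_
    · rintro (_ | _ | _ | i) <;> simp
    · rintro (_ | _ | _ | i) <;> simp
  · intro h
    refine c.ofSub h (fun s => s.elim (fun u => some (some (Sum.inl u)))
      (fun o => o.elim none (fun o => o.elim (some none) (fun i => some (some (Sum.inr i))))))
      (by omega) (by omega) ?_ ?_
    · rintro (_ | _ | _ | i) <;> simp
    · rintro (_ | _ | _ | i) <;> simp

/-- The fibre relation over `a` is invariant. -/
theorem fib_inv {ι : Type} [Finite ι] (a : ι → U) (hm : Nat.card ι + 2 ≤ m) :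
    InvEq c a (fun u u' => c.r (sn a u) (sn a u')) := by
  have h1 : Nat.card (Option ι) ≤ m := by rw [Finite.card_option]; omega
  have h2 : Nat.card (Option (Option ι)) ≤ m := by
    rw [Finite.card_option, Finite.card_option]; omega
  refine ⟨⟨fun u => c.rfl' _ h1, fun h => c.symm' h1 h, fun h h' => c.trans' h1 h h'⟩,
    fun _ _ h => h, ?_⟩
  intro y y' z z' h hy
  have h3 : c.r (sn a y) (sn a z) := by
    refine c.ofSub h (fun o => o.elim (some none) (fun i => some (some i))) h2 h1 ?_ ?_
    · rintro (_ | i) <;> simp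
    · rintro (_ | i) <;> simp
  have h4 : c.r (sn a y') (sn a z') := by
    refine c.ofSub h (fun o => o.elim none (fun i => some (some i))) h2 h1 ?_ ?_
    · rintro (_ | i) <;> simp
    · rintro (_ | i) <;> simp
  exact c.trans' h1 (c.symm' h1 h3) (c.trans' h1 hy h4)

end

section

variable [Finite U] {c : Sch U m} {x : U} {S : Setoid U} (hS : NData c x S)

include hS

/-- No matching for the named scheme (on all of `U`, both points in the same class). -/
theorem tw_nm (hc : HAN c) {σ : ℕ → ℕ} (hH : Hyp c σ)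
    (hσ : ∀ l ≤ m, Nat.card (Equiv.Perm (Quotient S)) < σ l) (hm3 : 3 ≤ m)
    {ι : Type} [Finite ι] (A : ι → U) (y y' : U)
    (hm : 2 * Nat.card (Quotient S) + Nat.card ι + 3 ≤ m) (hne : y ≠ y')
    (h : tw c x S 1 (sn A y) (sn A y')) :
    ∃ w, w ≠ y' ∧ tw c x S 1 (sn (sn A y) y') (sn (sn A y) w) := by
  have hL : 1 ≤ Nat.card (Quotient S) := by
    have : Nonempty (Quotient S) := ⟨Quotient.mk S x⟩
    exact Nat.card_pos
  have ho1 : Nat.card (Option ι) = Nat.card ι + 1 := Finite.card_option
  have ho2 : Nat.card (Option (Option ι)) = Nat.card ι + 2 := by rw [Finite.card_option, ho1]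
  have ho3 : Nat.card (Option (Option (Option ι))) = Nat.card ι + 3 := by
    rw [Finite.card_option, ho2]
  have hu : Nat.card (Unit ⊕ ι) = Nat.card ι + 1 := by
    rw [Nat.card_sum, Nat.card_unique]; omega
  have huo : Nat.card (Option (Unit ⊕ ι)) = Nat.card ι + 2 := by rw [Finite.card_option, hu]
  have hbase : c.r (wx x (sn A y)) (wx x (sn A y')) := tw_base hS (by omega) h
  rw [wx_sn c (by omega)] at hbase
  obtain ⟨y2, hy2, hr2⟩ := hc.nm (wx x A) y y' (by omega) hne hbase
  have hinv := fib_inv c (sn (wx x A) y) (by omega)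
  have hbig := hH (sn (wx x A) y) _ (by omega) hinv y' y2 hy2.symm hr2
  have hlt := hσ (Nat.card (Option (Unit ⊕ ι))) (by omega)
  obtain ⟨t1, ht1, t2, ht2, htne, htw⟩ := tw_pigeon hS (fun t => sn (sn A y) t) (sn (sn A y) y')
    {z | c.r (sn (sn (wx x A) y) y') (sn (sn (wx x A) y) z)} hm3 (by omega)
    (fun t ht => (wx_sn2 c (by omega)).2 ht) (by omega)
  obtain ⟨lam, hlam⟩ := tw_of_base hS hm3 (by omega) ((wx_sn2 c (by omega)).2 ht1)
  obtain ⟨π, hπ⟩ := tw_ext hS (by omega) (tw_symm hS (by omega) hlam)
  have h1 := hπ t2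
  have h2 : tw c x S lam⁻¹ (sn (sn A y) t2) (sn (sn A y) (π t2)) := by
    refine tw_sub hS (by omega) (by omega) h1 (fun o => o.elim none (fun o => some (some o))) ?_ ?_
    · rintro (_ | o) <;> simp
    · rintro (_ | o) <;> simp
  have h3 : tw c x S 1 (sn (sn A y) y') (sn (sn A y) (π t2)) := by
    have := tw_comp hS hm3 (by omega) (tw_comp hS hm3 (by omega) hlam htw) h2
    simpa using this
  refine ⟨π t2, ?_, h3⟩
  intro heq
  apply htne
  have h4 := tw_symm hS (by omega) h1
  have h5 := tw_inj hS (by omega) h4 (i := some none) (j := none) (by simp [heq])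
  simpa using h5

end

end Pool.Agent.H1MS
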