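import Mathlib

set_option autoImplicit false

/-!
Coherent colourings: the linear algebra side of the m-scheme project (MP_91ba6b).
-/

namespace Pool.Agent.H1MS

/-- `M` is constant on the colours of `κ`. -/
def CC {U C : Type} (κ : U → U → C) (M : Matrix U U ℝ) : Prop :=
  ∀ y y' z z', κ y y' = κ z z' → M y y' = M z z'

/-- A coherent colouring of the pairs of `U`. -/
structure Coh {U C : Type} [Fintype U] (κ : U → U → C) : Prop where
  diag : ∀ y z z', κ y y = κ z z' → z = z'
  tr : ∀ y y' z z', κ y y' = κ z z' → κ y' y = κ z' z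
  fst : ∀ y y' z z', κ y y' = κ z z' → κ y y = κ z z
  mul : ∀ M M' : Matrix U U ℝ, CC κ M → CC κ M' → CC κ (M * M')

end Pool.Agent.H1MS
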