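import Mathlib
import Pool.Agent.H1MS.Coh

set_option autoImplicit false

/-!
Abstract m-schemes (MP_91ba6b): an equivalence relation `r` on the tuples of points of `U` indexed
by finite types with at most `m` elements, closed under reindexing, with the extension property.
-/

namespace Pool.Agent.H1MS

/-- Append one point to a tuple. -/
def sn {ι U : Type} (a : ι → U) (z : U) : Option ι → U := fun o => o.elim z a

@[simp] theorem sn_none {ι U : Type} (a : ι → U) (z : U) : sn a z none = z := rfl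

@[simp] theorem sn_some {ι U : Type} (a : ι → U) (z : U) (i : ι) : sn a z (some i) = a i := rfl

/-- A scheme with `m` levels. -/
structure Sch (U : Type) (m : ℕ) where
  r : {ι : Type} → (ι → U) → (ι → U) → Prop
  rfl' : ∀ {ι : Type} [Finite ι] (a : ι → U), Nat.card ι ≤ m → r a a
  symm' : ∀ {ι : Type} [Finite ι] {a b : ι → U}, Nat.card ι ≤ m → r a b → r b a
  trans' : ∀ {ι : Type} [Finite ι] {a b d : ι → U}, Nat.card ι ≤ m → r a b → r b d → r a d
  sub' : ∀ {ι κ : Type} [Finite ι] [Finite κ] (φ : κ → ι) {a b : ι → U}, Nat.card ι ≤ m →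
    Nat.card κ ≤ m → r a b → r (a ∘ φ) (b ∘ φ)
  inj' : ∀ {ι : Type} [Finite ι] {a b : ι → U}, Nat.card ι ≤ m → r a b →
    ∀ i j, a i = a j → b i = b j
  ext' : ∀ {ι : Type} [Finite ι] {a b : ι → U}, Nat.card ι + 1 ≤ m → r a b →
    ∃ π : Equiv.Perm U, ∀ z, r (sn a z) (sn b (π z))

variable {U : Type} {m : ℕ}

/-- Homogeneous, antisymmetric, without matching. -/
structure HAN (c : Sch U m) : Prop where
  hom : ∀ x y : U, c.r (fun _ : Unit => x) (fun _ : Unit => y)
  anti : ∀ {ι : Type} [Finite ι] (a : ι → U) (s : Equiv.Perm ι), Nat.card ι ≤ m →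
    Function.Injective a → c.r a (a ∘ s) → s = 1
  nm : ∀ {ι : Type} [Finite ι] (a : ι → U) (y y' : U), Nat.card ι + 2 ≤ m → y ≠ y' →
    c.r (sn a y) (sn a y') →
    ∃ y'', y'' ≠ y' ∧ c.r (sn (sn a y) y') (sn (sn a y) y'')

/-- `E` is an equivalence relation on `U`; equivalent points have the same colour over `a`, and
`E` is determined by the colours over `a`. -/
structure InvEq (c : Sch U m) {ι : Type} (a : ι → U) (E : U → U → Prop) : Prop where
  eqv : Equivalence E
  fib : ∀ y y', E y y' → c.r (sn a y) (sn a y')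
  inv : ∀ y y' z z', c.r (sn (sn a y) y') (sn (sn a z) z') → E y y' → E z z'

/-- The empty tuple. -/
def emp (U : Type) : Empty → U := fun e => e.elim

/-- Primitive scheme. -/
def Prim (c : Sch U m) : Prop :=
  ∀ E : U → U → Prop, InvEq c (emp U) E → (∃ y y', y ≠ y' ∧ E y y') → ∀ z z', E z z'

/-- All classes over `l` points are singletons or have at least `σ l` elements. -/
def Hyp (c : Sch U m) (σ : ℕ → ℕ) : Prop :=
  ∀ {ι : Type} [Finite ι] (a : ι → U) (E : U → U → Prop), Nat.card ι + 2 ≤ m → InvEq c a E →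
    ∀ y y', y ≠ y' → E y y' → σ (Nat.card ι) ≤ {z | E y z}.ncard

/-- The colour of a pair, as a set of pairs. -/
def pc (c : Sch U m) (y y' : U) : Set (U × U) := {p | c.r ![y, y'] ![p.1, p.2]}

/-- The number of colours of pairs of distinct points. -/
noncomputable def numJ (c : Sch U m) : ℕ :=
  ((fun p : U × U => pc c p.1 p.2) '' {p | p.1 ≠ p.2}).ncard

/-- The finest nontrivial invariant equivalence relation over the point `x`. -/
def Fx (c : Sch U m) (x : U) (y y' : U) : Prop :=
  c.r (sn (fun _ : Unit => x) y) (sn (fun _ : Unit => x) y') ∧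
    ∀ E : U → U → Prop, InvEq c (fun _ : Unit => x) E → (∃ w, w ≠ y ∧ E y w) → E y y'

/-- The growth step. -/
def GrowthStep : Prop :=
  ∀ B m' R : ℕ, ∃ N : ℕ, ∀ (U : Type) [Finite U] (m : ℕ) (c : Sch U m) (σ : ℕ → ℕ),
    HAN c → Prim c → Hyp c σ → 2 * B + m' + 20 ≤ m → 2 ≤ Nat.card U →
    Nat.card U ≤ B * σ 1 → (∀ l ≤ m, Nat.card U ≤ R * σ l) → (∀ l ≤ m, N ≤ σ l) →
    ∃ (U' : Type) (_ : Finite U') (c' : Sch U' m'), HAN c' ∧ Prim c' ∧
      Hyp c' (fun l => σ (l + 1)) ∧ 2 ≤ Nat.card U' ∧ Nat.card U' * numJ c ≤ Nat.card U ∧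
      numJ c + 1 ≤ numJ c'

namespace Sch

variable (c : Sch U m)

/-- Reindexing, in pointwise form. -/
theorem ofSub {ι κ : Type} [Finite ι] [Finite κ] {a b : ι → U} {a' b' : κ → U}
    (h : c.r a b) (φ : κ → ι) (hι : Nat.card ι ≤ m) (hκ : Nat.card κ ≤ m)
    (ha : ∀ k, a' k = a (φ k)) (hb : ∀ k, b' k = b (φ k)) : c.r a' b' := by
  have h1 : a' = a ∘ φ := funext ha
  have h2 : b' = b ∘ φ := funext hb
  rw [h1, h2]
  exact c.sub' φ hι hκ h

theorem inj_iff {ι : Type} [Finite ι] {a b : ι → U} (hι : Nat.card ι ≤ m) (h : c.r a b)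
    (i j : ι) : a i = a j ↔ b i = b j :=
  ⟨c.inj' hι h i j, c.inj' hι (c.symm' hι h) i j⟩

theorem ext1 {ι : Type} [Finite ι] {a b : ι → U} (hι : Nat.card ι + 1 ≤ m) (h : c.r a b) (z : U) :
    ∃ z', c.r (sn a z) (sn b z') := by
  obtain ⟨π, hπ⟩ := c.ext' hι h
  exact ⟨π z, hπ z⟩

/-- Extension by a finite family. -/
theorem extFam {ι : Type} [Finite ι] {a b : ι → U} (h : c.r a b) (κ : Type) [hκ : Finite κ]
    (hc : Nat.card ι + Nat.card κ ≤ m) (w : κ → U) :
    ∃ w' : κ → U, c.r (Sum.elim a w) (Sum.elim b w') := by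
  have key : Finite κ → Nat.card ι + Nat.card κ ≤ m →
      ∀ w : κ → U, ∃ w' : κ → U, c.r (Sum.elim a w) (Sum.elim b w') := by
    refine @Finite.induction_empty_option (fun κ => Finite κ → Nat.card ι + Nat.card κ ≤ m →
      ∀ w : κ → U, ∃ w' : κ → U, c.r (Sum.elim a w) (Sum.elim b w')) ?_ ?_ ?_ κ hκ
    · intro α β e ih hβ hc w
      have hα : Finite α := Finite.of_equiv β e.symm
      have hcc : Nat.card α = Nat.card β := Nat.card_congr e
      obtain ⟨w', hw'⟩ := ih hα (by omega) (w ∘ e)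
      refine ⟨w' ∘ e.symm, ?_⟩
      refine c.ofSub hw' (Sum.map id e.symm) (by rw [Nat.card_sum]; omega)
        (by rw [Nat.card_sum]; omega) ?_ ?_
      · rintro (i | i) <;> simp
      · rintro (i | i) <;> simp
    · intro _ hc w
      refine ⟨fun e => e.elim, ?_⟩
      refine c.ofSub h (fun i : ι ⊕ PEmpty => i.elim id (fun e => e.elim)) (by omega)
        (by rw [Nat.card_sum]; omega) ?_ ?_
      · rintro (i | i)
        · simp
        · exact i.elim
      · rintro (i | i)
        · simp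
        · exact i.elim
    · intro α _ ih hα hc w
      have hcα : Nat.card (Option α) = Nat.card α + 1 := Finite.card_option
      obtain ⟨w', hw'⟩ := ih inferInstance (by omega) (fun i => w (some i))
      obtain ⟨z', hz'⟩ := c.ext1 (by rw [Nat.card_sum]; omega) hw' (w none)
      refine ⟨fun o => o.elim z' w', ?_⟩
      refine c.ofSub hz' (fun i : ι ⊕ Option α => i.elim (fun i => some (Sum.inl i))
        (fun o => o.elim none (fun j => some (Sum.inr j)))) ?_ ?_ ?_ ?_
      · rw [Finite.card_option, Nat.card_sum]; omega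
      · rw [Nat.card_sum]; omega
      · rintro (i | _ | i) <;> simp
      · rintro (i | _ | i) <;> simp
  exact key hκ hc w

end Sch

end Pool.Agent.H1MS
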