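import Pool.Agent.H1MS.Basic

set_option autoImplicit false

/-!
Restriction to a class, truncation, and the main theorem from the growth step.
-/

namespace Pool.Agent.H1MS

variable {U : Type} {m : ℕ}

/-- Truncation to fewer levels. -/
def trunc (c : Sch U m) (m' : ℕ) (h : m' ≤ m) : Sch U m' where
  r := c.r
  rfl' := fun a h' => c.rfl' a (h'.trans h)
  symm' := fun h' => c.symm' (h'.trans h)
  trans' := fun h' => c.trans' (h'.trans h)
  sub' := fun φ _ _ h1 h2 => c.sub' φ (h1.trans h) (h2.trans h)
  inj' := fun h' => c.inj' (h'.trans h)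
  ext' := fun h' => c.ext' (h'.trans h)

theorem HAN.trunc {c : Sch U m} (hc : HAN c) (m' : ℕ) (h : m' ≤ m) :
    HAN (trunc c m' h) where
  hom := hc.hom
  anti := fun a s h1 h2 h3 => hc.anti a s (h1.trans h) h2 h3
  nm := fun a y y' h1 h2 h3 => hc.nm a y y' (h1.trans h) h2 h3

theorem InvEq.of_trunc {c : Sch U m} {m' : ℕ} {h : m' ≤ m} {ι : Type} {a : ι → U}
    {E : U → U → Prop} (hE : InvEq (H1MS.trunc c m' h) a E) : InvEq c a E :=
  ⟨hE.eqv, hE.fib, hE.inv⟩

/-- Restriction to a class of an invariant equivalence relation. -/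
def restr [Finite U] (c : Sch U m) {ι : Type} [Finite ι] (a : ι → U) (E : U → U → Prop)
    (hE : InvEq c a E) (y0 : U) (m' : ℕ) (hm : Nat.card ι + m' ≤ m) :
    Sch {z // E y0 z} m' where
  r := fun {κ} b b' => c.r (Sum.elim a (fun i : κ => (b i : U)))
    (Sum.elim a (fun i : κ => (b' i : U)))
  rfl' := fun {κ} _ b h => c.rfl' _ (by rw [Nat.card_sum]; omega)
  symm' := fun {κ} _ b b' h => c.symm' (by rw [Nat.card_sum]; omega)
  trans' := fun {κ} _ b b' d h => c.trans' (by rw [Nat.card_sum]; omega)
  sub' := fun {κ μ} _ _ φ b b' h1 h2 h => by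
    refine c.ofSub h (Sum.map id φ) (by rw [Nat.card_sum]; omega) (by rw [Nat.card_sum]; omega)
      ?_ ?_
    · rintro (i | i) <;> simp
    · rintro (i | i) <;> simp
  inj' := fun {κ} _ b b' h1 h i j hij => by
    have := c.inj' (by rw [Nat.card_sum]; omega) h (Sum.inr i) (Sum.inr j)
      (by simpa using congrArg Subtype.val hij)
    exact Subtype.ext (by simpa using this)
  ext' := fun {κ} _ b b' h1 h => by
    rcases isEmpty_or_nonempty κ with hκ | ⟨⟨i0⟩⟩
    · refine ⟨1, fun z => ?_⟩
      have : b = b' := funext fun i => isEmptyElim i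
      subst this
      exact c.rfl' _ (by rw [Nat.card_sum, Finite.card_option]; omega)
    · obtain ⟨p, hp⟩ := c.ext' (by rw [Nat.card_sum]; omega) h
      have hW : ∀ z : {z // E y0 z}, E y0 (p z) := by
        intro z
        have h2 : c.r (sn (sn a (b i0 : U)) (z : U)) (sn (sn a (b' i0 : U)) (p z)) := by
          refine c.ofSub (hp z) (fun o => o.elim none (fun o => o.elim (some (Sum.inr i0))
            (fun i => some (Sum.inl i)))) ?_ ?_ ?_ ?_
          · rw [Finite.card_option, Nat.card_sum]; omega
          · have : Nonempty κ := ⟨i0⟩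
            have : 0 < Nat.card κ := Nat.card_pos
            rw [Finite.card_option, Finite.card_option]; omega
          · rintro (_ | _ | i) <;> simp
          · rintro (_ | _ | i) <;> simp
        have h3 := hE.inv _ _ _ _ h2 (hE.eqv.trans (hE.eqv.symm (b i0).2) z.2)
        exact hE.eqv.trans (b' i0).2 h3
      have hinj : Function.Injective (fun z : {z // E y0 z} => (⟨p z, hW z⟩ : {z // E y0 z})) := by
        intro z z' hz
        exact Subtype.ext (p.injective (congrArg Subtype.val hz))
      refine ⟨Equiv.ofBijective _ (Finite.injective_iff_bijective.mp hinj), fun z => ?_⟩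
      refine c.ofSub (hp z) (fun s => s.elim (fun i => some (Sum.inl i))
        (fun o => o.elim none (fun i => some (Sum.inr i)))) ?_ ?_ ?_ ?_
      · rw [Finite.card_option, Nat.card_sum]; omega
      · rw [Nat.card_sum, Finite.card_option]; omega
      · rintro (i | _ | i) <;> simp
      · rintro (i | _ | i) <;> simp

theorem HAN.restr [Finite U] {c : Sch U m} (hc : HAN c) {ι : Type} [Finite ι] (a : ι → U)
    (E : U → U → Prop) (hE : InvEq c a E) (y0 : U) (m' : ℕ) (hm : Nat.card ι + m' ≤ m)
    (h1 : 1 ≤ m') : HAN (restr c a E hE y0 m' hm) where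
  hom := fun x y => by
    have h := hE.fib _ _ (hE.eqv.trans (hE.eqv.symm x.2) y.2)
    refine c.ofSub h (fun s => s.elim some (fun _ => none)) ?_ ?_ ?_ ?_
    · rw [Finite.card_option]; omega
    · rw [Nat.card_sum, Nat.card_unique (α := Unit)]; omega
    · rintro (i | i) <;> simp
    · rintro (i | i) <;> simp
  anti := fun {κ} _ b s h2 hb h => by
    refine hc.anti (fun i => (b i : U)) s (by omega)
      (fun i j hij => hb (Subtype.ext hij)) ?_
    refine c.ofSub h Sum.inr (by rw [Nat.card_sum]; omega) (by omega) ?_ ?_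
    · intro i; simp
    · intro i; simp
  nm := fun {κ} _ b y y' h2 hyy h => by
    have h3 : c.r (sn (Sum.elim a (fun i => (b i : U))) (y : U))
        (sn (Sum.elim a (fun i => (b i : U))) (y' : U)) := by
      refine c.ofSub h (fun o => o.elim (Sum.inr none) (fun s => s.elim (fun i => Sum.inl i)
        (fun i => Sum.inr (some i)))) ?_ ?_ ?_ ?_
      · rw [Nat.card_sum, Finite.card_option]; omega
      · rw [Finite.card_option, Nat.card_sum]; omega
      · rintro (_ | i | i) <;> simp
      · rintro (_ | i | i) <;> simp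
    obtain ⟨w, hw, hw'⟩ := hc.nm _ (y : U) (y' : U) (by rw [Nat.card_sum]; omega)
      (fun hh => hyy (Subtype.ext hh)) h3
    have h4 : c.r (sn (sn a (y : U)) (y' : U)) (sn (sn a (y : U)) w) := by
      refine c.ofSub hw' (fun o => o.elim none (fun o => o.elim (some none)
        (fun i => some (some (Sum.inl i))))) ?_ ?_ ?_ ?_
      · rw [Finite.card_option, Finite.card_option, Nat.card_sum]; omega
      · rw [Finite.card_option, Finite.card_option]; omega
      · rintro (_ | _ | i) <;> simp
      · rintro (_ | _ | i) <;> simp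
    have h5 : E (y : U) w := hE.inv _ _ _ _ h4 (hE.eqv.trans (hE.eqv.symm y.2) y'.2)
    refine ⟨⟨w, hE.eqv.trans y.2 h5⟩, fun hh => hw (congrArg Subtype.val hh), ?_⟩
    refine c.ofSub hw' (fun s => s.elim (fun i => some (some (Sum.inl i)))
      (fun o => o.elim none (fun o => o.elim (some none) (fun i => some (some (Sum.inr i))))))
      ?_ ?_ ?_ ?_
    · rw [Finite.card_option, Finite.card_option, Nat.card_sum]; omega
    · rw [Nat.card_sum, Finite.card_option, Finite.card_option]; omega
    · rintro (i | _ | _ | i) <;> simp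
    · rintro (i | _ | _ | i) <;> simp

/-- The fibres over a tuple. -/
theorem invEq_fibre (c : Sch U m) {ι : Type} [Finite ι] (a : ι → U) (h : Nat.card ι + 2 ≤ m) :
    InvEq c a (fun y y' => c.r (sn a y) (sn a y')) where
  eqv := ⟨fun y => c.rfl' _ (by rw [Finite.card_option]; omega),
    fun h' => c.symm' (by rw [Finite.card_option]; omega) h',
    fun h' h'' => c.trans' (by rw [Finite.card_option]; omega) h' h''⟩
  fib := fun _ _ h' => h'
  inv := fun y y' z z' h1 h2 => by
    have hc1 : Nat.card (Option ι) ≤ m := by rw [Finite.card_option]; omega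
    have hc2 : Nat.card (Option (Option ι)) ≤ m := by
      rw [Finite.card_option, Finite.card_option]; omega
    have e1 : c.r (sn a y) (sn a z) := c.ofSub h1 some hc2 hc1 (fun k => by simp) (fun k => by simp)
    have e2 : c.r (sn a y') (sn a z') := c.ofSub h1 (fun o => o.elim none (fun i => some (some i)))
      hc2 hc1 (by rintro (_ | i) <;> simp) (by rintro (_ | i) <;> simp)
    exact c.trans' hc1 (c.symm' hc1 e1) (c.trans' hc1 h2 e2)

/-- Fibres of size at least two. -/
theorem two_le_fib [Finite U] {c : Sch U m} (hc : HAN c) (hm : 3 ≤ m) {x w : U} (hxw : x ≠ w) :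
    2 ≤ {z | c.r (sn (fun _ : Unit => x) w) (sn (fun _ : Unit => x) z)}.ncard := by
  obtain ⟨w', hw', h⟩ := hc.nm (emp U) x w (by simpa using (by omega : 2 ≤ m)) hxw (by
    refine c.ofSub (hc.hom x w) (fun _ => ()) (by simpa using (by omega : 1 ≤ m))
      (by simpa using (by omega : 1 ≤ m)) ?_ ?_
    · rintro (_ | i)
      · simp
      · exact i.elim
    · rintro (_ | i)
      · simp
      · exact i.elim)
  have h' : c.r (sn (fun _ : Unit => x) w) (sn (fun _ : Unit => x) w') := by
    refine c.ofSub h (fun o => o.elim none (fun _ => some none)) ?_ ?_ ?_ ?_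
    · simpa using (by omega : 2 ≤ m)
    · simpa using (by omega : 2 ≤ m)
    · rintro (_ | i) <;> simp
    · rintro (_ | i) <;> simp
  have hsub : ({w, w'} : Set U) ⊆ {z | c.r (sn (fun _ : Unit => x) w) (sn (fun _ : Unit => x) z)} := by
    rintro z (rfl | rfl)
    · exact c.rfl' _ (by simpa using (by omega : 2 ≤ m))
    · exact h'
  calc 2 = ({w, w'} : Set U).ncard := (Set.ncard_pair hw'.symm).symm
    _ ≤ _ := Set.ncard_le_ncard hsub (Set.toFinite _)

/-- The two colours of a pair and of the reversed pair differ. -/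
theorem pair_ne {c : Sch U m} (hc : HAN c) (hm : 2 ≤ m) {x y : U} (hxy : x ≠ y) :
    ¬ c.r ![x, y] ![y, x] := by
  intro h
  have h1 : Function.Injective (![x, y] : Fin 2 → U) := by
    intro i j hij
    fin_cases i <;> fin_cases j <;> simp_all
  have h2 := hc.anti ![x, y] (Equiv.swap 0 1) (by simpa using hm) h1 (by
    refine c.ofSub h id (by simpa using hm) (by simpa using hm) (fun _ => rfl) ?_
    intro k; fin_cases k <;> simp)
  have h3 := congrArg (fun s : Equiv.Perm (Fin 2) => s 0) h2
  simp at h3

/-- The halving bound. -/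
theorem two_pow_le : ∀ (m : ℕ) (U : Type) [Finite U] (c : Sch U m), HAN c → 2 ≤ Nat.card U →
    2 ^ m ≤ 4 * Nat.card U := by
  intro m
  induction m with
  | zero => intro U _ c _ h; omega
  | succ m ih =>
    intro U _ c hc hU
    rcases Nat.lt_or_ge m 2 with hm | hm
    · have : 2 ^ (m + 1) ≤ 2 ^ 2 := Nat.pow_le_pow_right (by norm_num) (by omega)
      omega
    · -- two points
      have hnt : Nontrivial U := (Finite.one_lt_card_iff_nontrivial).mp (by omega)
      obtain ⟨x, y, hxy⟩ := hnt
      have hm3 : 3 ≤ m + 1 := by omega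
      -- the point realising the reversed pair
      obtain ⟨z0, hz0⟩ := c.ext1 (by simpa using (by omega : 2 ≤ m + 1)) (hc.hom y x) x
      have hz0' : c.r ![y, x] ![x, z0] := c.pairU_of (by omega) hz0
      have hz0x : x ≠ z0 := by
        intro h
        have := c.inj' (by simpa using (by omega : 2 ≤ m + 1)) (c.symm' (by
          simpa using (by omega : 2 ≤ m + 1)) hz0') 0 1 (by simpa using h)
        exact hxy (by simpa using this.symm)
      set A : Set U := {z | c.r (sn (fun _ : Unit => x) y) (sn (fun _ : Unit => x) z)} with hA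
      set B : Set U := {z | c.r (sn (fun _ : Unit => x) z0) (sn (fun _ : Unit => x) z)} with hB
      have hA2 : 2 ≤ A.ncard := two_le_fib hc hm3 hxy
      have hB2 : 2 ≤ B.ncard := two_le_fib hc hm3 hz0x
      have hdisj : Disjoint A B := by
        rw [Set.disjoint_left]
        intro z hz hz'
        have h1 : c.r ![x, y] ![x, z] := c.pairU_of (by omega) hz
        have h2 : c.r ![x, z0] ![x, z] := c.pairU_of (by omega) hz'
        have hc2 : Nat.card (Fin 2) ≤ m + 1 := by simpa using (by omega : 2 ≤ m + 1)
        exact pair_ne hc (by omega) hxy (c.trans' hc2 h1 (c.trans' hc2 (c.symm' hc2 h2)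
          (c.symm' hc2 hz0')))
      have hAB : A.ncard + B.ncard ≤ Nat.card U := by
        rw [← Set.ncard_union_eq hdisj (Set.toFinite _) (Set.toFinite _), ← Set.ncard_univ]
        exact Set.ncard_le_ncard (Set.subset_univ _) (Set.toFinite _)
      have key : ∀ w : U, 2 ≤ {z | c.r (sn (fun _ : Unit => x) w)
            (sn (fun _ : Unit => x) z)}.ncard →
          2 * {z | c.r (sn (fun _ : Unit => x) w) (sn (fun _ : Unit => x) z)}.ncard ≤ Nat.card U →
          2 ^ (m + 1) ≤ 4 * Nat.card U := by
        intro w h2 h3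
        have hE := invEq_fibre c (fun _ : Unit => x) (by rw [Nat.card_unique]; omega)
        have h4 := ih {z // c.r (sn (fun _ : Unit => x) w) (sn (fun _ : Unit => x) z)}
          (restr c _ _ hE w m (by rw [Nat.card_unique]; omega))
          (hc.restr _ _ hE w m (by rw [Nat.card_unique]; omega) (by omega)) h2
        have h5 : Nat.card {z // c.r (sn (fun _ : Unit => x) w) (sn (fun _ : Unit => x) z)} =
          {z | c.r (sn (fun _ : Unit => x) w) (sn (fun _ : Unit => x) z)}.ncard := rfl
        rw [h5] at h4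
        rw [pow_succ]
        omega
      rcases le_total A.ncard B.ncard with h | h
      · exact key y hA2 (by change 2 * A.ncard ≤ _; omega)
      · exact key z0 hB2 (by change 2 * B.ncard ≤ _; omega)

/-- Invariance over an empty tuple does not depend on the index type. -/
theorem InvEq.emp {c : Sch U m} {ι : Type} [Finite ι] {a : ι → U} {E : U → U → Prop}
    (hE : InvEq c a E) (h0 : Nat.card ι = 0) (hm : 2 ≤ m) : InvEq c (emp U) E := by
  have hi : IsEmpty ι := Finite.card_eq_zero_iff.mp h0
  refine ⟨hE.eqv, fun y y' h => ?_, fun y y' z z' h => hE.inv y y' z z' ?_⟩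
  · refine c.ofSub (hE.fib y y' h) (fun o => o.elim none (fun e => e.elim))
      (by rw [Finite.card_option]; omega) (by rw [Finite.card_option]; simp; omega) ?_ ?_
    · rintro (_ | i)
      · simp
      · exact i.elim
    · rintro (_ | i)
      · simp
      · exact i.elim
  · refine c.ofSub h (fun o => o.elim none (fun o => o.elim (some none) (fun i => isEmptyElim i)))
      (by rw [Finite.card_option, Finite.card_option]; simp; omega)
      (by rw [Finite.card_option, Finite.card_option]; omega) ?_ ?_
    · rintro (_ | _ | i)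
      · simp
      · simp
      · exact isEmptyElim i
    · rintro (_ | _ | i)
      · simp
      · simp
      · exact isEmptyElim i

/-- The iteration of the growth step. -/
theorem iterate_growth (hG : GrowthStep) (D : ℕ) (hD : 2 ≤ D) (k : ℕ) (hk : 1 ≤ k)
    (hfac : D ^ k ≤ (k + 1).factorial) :
    ∃ N : ℕ, ∀ (U : Type) [Finite U] (c : Sch U (2 + k * (2 * D ^ k + 20))) (σ : ℕ → ℕ),
      (∀ l, σ l = if l = 0 then Nat.card U else Nat.card U / D ^ l + 1) →
      HAN c → Prim c → Hyp c σ → 2 ≤ Nat.card U →
      N * D ^ (2 + k * (2 * D ^ k + 20)) ≤ Nat.card U → False := by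
  set M0 := 2 + k * (2 * D ^ k + 20) with hM0
  -- the constants
  choose N hN using fun i : ℕ => hG (D ^ k) (2 + i * (2 * D ^ k + 20)) (D ^ M0)
  refine ⟨∑ i ∈ Finset.range k, N i, ?_⟩
  intro U _ c σ hσ hc hprim hhyp hU hbig
  have hDpos : ∀ l, 0 < D ^ l := fun l => by positivity
  have hNi : ∀ i < k, ∀ l ≤ M0, N i ≤ σ l := by
    intro i hi l hl
    have h1 : N i ≤ ∑ i ∈ Finset.range k, N i :=
      Finset.single_le_sum (f := N) (fun _ _ => Nat.zero_le _) (Finset.mem_range.mpr hi)
    have h2 : N i * D ^ M0 ≤ Nat.card U := (Nat.mul_le_mul_right _ h1).trans hbig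
    rw [hσ]
    split_ifs with h
    · exact (Nat.le_mul_of_pos_right _ (hDpos M0)).trans h2
    · have h3 : N i ≤ Nat.card U / D ^ l := by
        rw [Nat.le_div_iff_mul_le (hDpos l)]
        exact (Nat.mul_le_mul_left _ (Nat.pow_le_pow_right (by omega) hl)).trans h2
      omega
  have hσR : ∀ l ≤ M0, Nat.card U ≤ D ^ M0 * σ l := by
    intro l hl
    rw [hσ]
    split_ifs with h
    · exact Nat.le_mul_of_pos_left _ (hDpos M0)
    · have h3 : Nat.card U < D ^ l * (Nat.card U / D ^ l + 1) := by
        rw [mul_add, mul_one]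
        exact Nat.lt_mul_div_succ _ (hDpos l) |>.trans_le (by rw [mul_add, mul_one])
      exact h3.le.trans (Nat.mul_le_mul_right _ (Nat.pow_le_pow_right (by omega) hl))
  have hσB : ∀ l, 1 ≤ l → l ≤ k → Nat.card U ≤ D ^ k * σ l := by
    intro l hl hlk
    rw [hσ, if_neg (by omega)]
    have h3 : Nat.card U < D ^ l * (Nat.card U / D ^ l + 1) := by
      rw [mul_add, mul_one]
      exact Nat.lt_mul_div_succ _ (hDpos l) |>.trans_le (by rw [mul_add, mul_one])
    exact h3.le.trans (Nat.mul_le_mul_right _ (Nat.pow_le_pow_right (by omega) hlk))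
  -- the iteration
  have main : ∀ j i, j + i = k → ∃ (V : Type) (_ : Finite V) (cj : Sch V (2 + i * (2 * D ^ k + 20))),
      HAN cj ∧ Prim cj ∧ Hyp cj (fun l => σ (l + j)) ∧ 2 ≤ Nat.card V ∧ 2 + j ≤ numJ cj ∧
      Nat.card V * (j + 1).factorial ≤ Nat.card U := by
    intro j
    induction j with
    | zero =>
      intro i hi
      obtain rfl : i = k := by omega
      refine ⟨U, inferInstance, c, hc, hprim, fun {ι} _ a E e1 e2 y y' e3 e4 =>
        hhyp a E e1 e2 y y' e3 e4, hU, ?_, by simp⟩
      obtain ⟨x, y, hxy⟩ := (Finite.one_lt_card_iff_nontrivial (α := U)).mp (by omega)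
      have hsub : ({pc c x y, pc c y x} : Set (Set (U × U))) ⊆
          ((fun p : U × U => pc c p.1 p.2) '' {p | p.1 ≠ p.2}) := by
        rintro s (rfl | rfl)
        · exact ⟨(x, y), hxy, rfl⟩
        · exact ⟨(y, x), hxy.symm, rfl⟩
      have hne : pc c x y ≠ pc c y x := by
        intro h
        rw [pc_eq_iff c (by omega)] at h
        exact pair_ne hc (by omega) hxy h
      calc 2 + 0 = ({pc c x y, pc c y x} : Set (Set (U × U))).ncard := (Set.ncard_pair hne).symm
        _ ≤ _ := Set.ncard_le_ncard hsub (Set.toFinite _)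
    | succ j ih =>
      intro i hi
      obtain ⟨V, hV, cj, h1, h2, h3, h4, h5, h6⟩ := ih (i + 1) (by omega)
      have hVU : Nat.card V ≤ Nat.card U :=
        (Nat.le_mul_of_pos_right _ (Nat.factorial_pos _)).trans h6
      have hlev : 2 + (i + 1) * (2 * D ^ k + 20) + j ≤ M0 := by
        rw [hM0]
        have : k = i + 1 + j := by omega
        have h7 : k * (2 * D ^ k + 20) = (i + 1) * (2 * D ^ k + 20) + j * (2 * D ^ k + 20) := by
          rw [← add_mul, ← this]
        rw [h7]
        have h8 : j ≤ j * (2 * D ^ k + 20) := Nat.le_mul_of_pos_right _ (by omega)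
        omega
      obtain ⟨V', hV', c', g1, g2, g3, g4, g5, g6⟩ := hN i V _ cj (fun l => σ (l + j)) h1 h2 h3
        (by rw [add_mul]; omega) h4
        (hVU.trans (hσB _ (by omega) (by omega)))
        (fun l hl => hVU.trans (hσR _ (by omega)))
        (fun l hl => hNi i (by omega) _ (by omega))
      refine ⟨V', hV', c', g1, g2, ?_, g4, by omega, ?_⟩
      · have : (fun l => σ (l + (j + 1))) = (fun l => σ (l + 1 + j)) := by
          funext l; congr 1; omega
        rw [this]
        exact fun {ι} _ a E e1 e2 y y' e3 e4 => g3 a E e1 e2 y y' e3 e4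
      · have h7 : (j + 1 + 1).factorial = (2 + j) * (j + 1).factorial := by
          rw [Nat.factorial_succ (j + 1)]; congr 1; omega
        rw [h7, ← mul_assoc]
        exact (Nat.mul_le_mul_right _ ((Nat.mul_le_mul_left _ h5).trans g5)).trans h6
  obtain ⟨V, hV, ck, h1, h2, h3, h4, h5, h6⟩ := main k 0 (by omega)
  -- the last class
  have hE : InvEq ck (emp V) (fun _ _ => True) := by
    refine ⟨⟨fun _ => trivial, fun _ => trivial, fun _ _ => trivial⟩, fun y y' _ => ?_,
      fun _ _ _ _ _ _ => trivial⟩
    refine ck.ofSub (h1.hom y y') (fun _ => ()) (by simp) (by simp) ?_ ?_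
    · rintro (_ | i)
      · simp
      · exact i.elim
    · rintro (_ | i)
      · simp
      · exact i.elim
  obtain ⟨x, y, hxy⟩ := (Finite.one_lt_card_iff_nontrivial (α := V)).mp (by omega)
  have h7 := h3 (emp V) _ (by simp) hE x y hxy trivial
  have h8 : σ k ≤ Nat.card V := by
    have e1 : {z : V | True}.ncard = Nat.card V := by
      rw [← Set.ncard_univ]; rfl
    rw [← e1]
    simpa using h7
  rw [hσ, if_neg (by omega)] at h8
  have h9 : Nat.card U < D ^ k * (Nat.card U / D ^ k + 1) := by
    rw [mul_add, mul_one]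
    exact Nat.lt_mul_div_succ _ (hDpos k) |>.trans_le (by rw [mul_add, mul_one])
  have h10 : D ^ k * (Nat.card U / D ^ k + 1) ≤ (k + 1).factorial * Nat.card V :=
    Nat.mul_le_mul hfac h8
  rw [mul_comm] at h6
  omega

theorem exists_factorial (D : ℕ) : ∃ k, 1 ≤ k ∧ D ^ k ≤ (k + 1).factorial := by
  have h := FloorSemiring.tendsto_pow_div_factorial_atTop (D : ℝ)
  have h1 := (h.eventually (gt_mem_nhds (zero_lt_one))).and (Filter.eventually_ge_atTop 1)
  obtain ⟨k, hk, hk1⟩ := h1.exists
  refine ⟨k, hk1, ?_⟩
  rw [div_lt_one (by positivity)] at hk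
  have h2 : D ^ k < k.factorial := by exact_mod_cast hk
  exact h2.le.trans (Nat.factorial_le (by omega))

/-- The main theorem from the growth step. -/
theorem main_of_growth (hG : GrowthStep) : ∀ D : ℕ, ∃ C : ℕ, ∀ (m : ℕ) (U : Type) [Finite U]
    (c : Sch U m), HAN c → 2 ≤ Nat.card U → D ^ m ≤ C * Nat.card U := by
  intro D
  rcases Nat.lt_or_ge D 2 with hD | hD
  · refine ⟨1, fun m U _ c _ h => ?_⟩
    have : D ^ m ≤ 1 ^ m := Nat.pow_le_pow_left (by omega) m
    rw [one_pow] at this
    omega
  obtain ⟨k, hk, hfac⟩ := exists_factorial D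
  obtain ⟨N, hN⟩ := iterate_growth hG D hD k hk hfac
  set M0 := 2 + k * (2 * D ^ k + 20) with hM0
  set K := 4 * (N * D ^ M0) with hK
  refine ⟨D ^ M0 + D ^ K, ?_⟩
  -- strong induction on the number of points
  have main : ∀ n m : ℕ, ∀ (U : Type) [Finite U] (c : Sch U m), HAN c → 2 ≤ Nat.card U →
      Nat.card U = n → D ^ m ≤ (D ^ M0 + D ^ K) * Nat.card U := by
    intro n
    induction n using Nat.strong_induction_on with
    | _ n ih =>
    intro m U _ c hc hU hn
    have hDm : 1 ≤ D ^ M0 := Nat.one_le_pow _ _ (by omega)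
    rcases Nat.lt_or_ge m M0 with hm | hm
    · calc D ^ m ≤ D ^ M0 := Nat.pow_le_pow_right (by omega) hm.le
        _ ≤ D ^ M0 + D ^ K := Nat.le_add_right _ _
        _ ≤ _ := Nat.le_mul_of_pos_right _ (by omega)
    rcases Nat.lt_or_ge (Nat.card U) (N * D ^ M0) with hs | hs
    · have h1 := two_pow_le m U c hc hU
      have h2 : m < 2 ^ m := Nat.lt_two_pow_self
      calc D ^ m ≤ D ^ K := Nat.pow_le_pow_right (by omega) (by omega)
        _ ≤ D ^ M0 + D ^ K := Nat.le_add_left _ _
        _ ≤ _ := Nat.le_mul_of_pos_right _ (by omega)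
    by_contra hcon
    -- restriction to a class
    have hres : ∀ {ι : Type} [Finite ι] (a : ι → U) (E : U → U → Prop), Nat.card ι + 2 ≤ m →
        InvEq c a E → ∀ y y', y ≠ y' → E y y' → {z | E y z}.ncard < Nat.card U →
        Nat.card U < D ^ Nat.card ι * {z | E y z}.ncard := by
      intro ι _ a E h1 hE y y' hyy hEy hlt
      have hW2 : 2 ≤ Nat.card {z // E y z} := by
        have hnt : Nontrivial {z // E y z} :=
          ⟨⟨⟨y, hE.eqv.refl y⟩, ⟨y', hEy⟩, fun h => hyy (congrArg Subtype.val h)⟩⟩
        exact Finite.one_lt_card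
      have hW : Nat.card {z // E y z} = {z | E y z}.ncard := rfl
      have h2 := ih _ (by rw [← hn]; exact hlt) (m - Nat.card ι) {z // E y z}
        (restr c a E hE y (m - Nat.card ι) (by omega))
        (hc.restr a E hE y (m - Nat.card ι) (by omega) (by omega)) hW2 hW
      by_contra h3
      refine hcon ?_
      have h4 : D ^ m = D ^ (m - Nat.card ι) * D ^ Nat.card ι := by
        rw [← pow_add]; congr 1; omega
      rw [h4]
      calc D ^ (m - Nat.card ι) * D ^ Nat.card ι
          ≤ ((D ^ M0 + D ^ K) * Nat.card {z // E y z}) * D ^ Nat.card ι :=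
            Nat.mul_le_mul_right _ h2
        _ = (D ^ M0 + D ^ K) * (D ^ Nat.card ι * {z | E y z}.ncard) := by rw [hW]; ring
        _ ≤ _ := Nat.mul_le_mul_left _ (not_lt.mp h3)
    have hM2 : 2 ≤ M0 := by rw [hM0]; omega
    -- primitivity
    have hprim : Prim c := by
      intro E hE ⟨y, y', hyy, hEy⟩ z z'
      have h1 : {z | E y z}.ncard = Nat.card U := by
        by_contra h2
        have h3 : {z | E y z}.ncard < Nat.card U := by
          refine lt_of_le_of_ne ?_ h2
          rw [← Set.ncard_univ]
          exact Set.ncard_le_ncard (Set.subset_univ _) (Set.toFinite _)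
        have h4 := hres (emp U) E (by simp; omega) hE y y' hyy hEy h3
        simp at h4
        omega
      have h2 : {z | E y z} = Set.univ := by
        refine Set.eq_of_subset_of_ncard_le (Set.subset_univ _) ?_ (Set.toFinite _)
        rw [h1, Set.ncard_univ]
      have h3 : ∀ z, E y z := fun z => by
        have : z ∈ {z | E y z} := by rw [h2]; trivial
        exact this
      exact hE.eqv.trans (hE.eqv.symm (h3 z)) (h3 z')
    -- the hypothesis on classes
    set σ : ℕ → ℕ := fun l => if l = 0 then Nat.card U else Nat.card U / D ^ l + 1 with hσ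
    have hhyp : Hyp (trunc c M0 hm) σ := by
      intro ι _ a E h1 hE y y' hyy hEy
      have hE' : InvEq c a E := hE.of_trunc
      by_cases h0 : Nat.card ι = 0
      · have h2 := hprim E (hE'.emp h0 (by omega)) ⟨y, y', hyy, hEy⟩
        have h3 : {z | E y z} = Set.univ := Set.eq_univ_of_forall fun z => h2 y z
        rw [h3, Set.ncard_univ, hσ]
        simp [h0]
      · have h2 : σ (Nat.card ι) = Nat.card U / D ^ Nat.card ι + 1 := by
          rw [hσ]; simp [h0]
        rw [h2]
        by_contra h3
        have h4 : {z | E y z}.ncard ≤ Nat.card U / D ^ Nat.card ι := by omega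
        have h5 : {z | E y z}.ncard * D ^ Nat.card ι ≤ Nat.card U := by
          rwa [Nat.le_div_iff_mul_le (by positivity)] at h4
        have h6 : {z | E y z}.ncard < Nat.card U := by
          have h7 : 2 ≤ D ^ Nat.card ι := by
            calc 2 ≤ D := hD
              _ = D ^ 1 := (pow_one D).symm
              _ ≤ _ := Nat.pow_le_pow_right (by omega) (by omega)
          have h8 : {z | E y z}.ncard * 2 ≤ Nat.card U := (Nat.mul_le_mul_left _ h7).trans h5
          omega
        have h7 := hres a E (by omega) hE' y y' hyy hEy h6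
        rw [mul_comm] at h5
        omega
    exact hN U (trunc c M0 hm) σ (fun l => rfl) (hc.trunc M0 hm)
      (fun E hE => hprim E hE.of_trunc) hhyp hU hs
  exact fun m U _ c hc hU => main _ m U c hc hU rfl

end Pool.Agent.H1MS
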