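import Pool.Agent.H1MS.Basic

set_option autoImplicit false

/-!
The finest nontrivial invariant equivalence relation over a point.
-/

namespace Pool.Agent.H1MS

variable {U : Type} {m : ℕ} (c : Sch U m) (x : U)

/-- An invariant equivalence relation over `a` is nonidentity at all or at no points of a fibre
over `a`. -/
theorem InvEq.nonid_of {c : Sch U m} {ι : Type} [Finite ι] {a : ι → U} {E : U → U → Prop}
    (hE : InvEq c a E) (hι : Nat.card ι + 2 ≤ m) {y z : U} (h : c.r (sn a y) (sn a z))
    (hw : ∃ w, w ≠ y ∧ E y w) : ∃ w, w ≠ z ∧ E z w := by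
  obtain ⟨w, hwy, hE1⟩ := hw
  have hc1 : Nat.card (Option ι) = Nat.card ι + 1 := Finite.card_option
  have hc2 : Nat.card (Option (Option ι)) = Nat.card ι + 2 := by
    rw [Finite.card_option, hc1]
  obtain ⟨w', hw'⟩ := c.ext1 (by omega) h w
  refine ⟨w', ?_, hE.inv _ _ _ _ hw' hE1⟩
  intro h1
  apply hwy
  have := (c.inj_iff (by omega) hw' none (some none)).2 (by simpa using h1)
  simpa using this

/-- The intersection of two invariant equivalence relations. -/
theorem InvEq.inter {c : Sch U m} {ι : Type} {a : ι → U} {E E' : U → U → Prop}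
    (hE : InvEq c a E) (hE' : InvEq c a E') : InvEq c a (fun y z => E y z ∧ E' y z) where
  eqv := ⟨fun y => ⟨hE.eqv.refl y, hE'.eqv.refl y⟩,
    fun h => ⟨hE.eqv.symm h.1, hE'.eqv.symm h.2⟩,
    fun h h' => ⟨hE.eqv.trans h.1 h'.1, hE'.eqv.trans h.2 h'.2⟩⟩
  fib := fun _ _ h => hE.fib _ _ h.1
  inv := fun _ _ _ _ h h' => ⟨hE.inv _ _ _ _ h h'.1, hE'.inv _ _ _ _ h h'.2⟩

/-- The relation of having the same colour over `a`. -/
theorem invEq_fib (c : Sch U m) {ι : Type} [Finite ι] (a : ι → U) (hι : Nat.card ι + 2 ≤ m) :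
    InvEq c a (fun y z => c.r (sn a y) (sn a z)) := by
  have hc1 : Nat.card (Option ι) = Nat.card ι + 1 := Finite.card_option
  have hc2 : Nat.card (Option (Option ι)) = Nat.card ι + 2 := by
    rw [Finite.card_option, hc1]
  refine ⟨⟨fun y => c.rfl' _ (by omega), fun h => c.symm' (by omega) h,
    fun h h' => c.trans' (by omega) h h'⟩, fun _ _ h => h, ?_⟩
  intro y y' z z' h h1
  have h2 : c.r (sn a y) (sn a z) :=
    c.ofSub h (some : Option ι → Option (Option ι)) (by omega) (by omega)
      (by rintro (_ | i) <;> simp) (by rintro (_ | i) <;> simp)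
  have h3 : c.r (sn a y') (sn a z') :=
    c.ofSub h (fun o : Option ι => o.elim none (fun i => some (some i))) (by omega) (by omega)
      (by rintro (_ | i) <;> simp) (by rintro (_ | i) <;> simp)
  exact c.trans' (by omega) (c.symm' (by omega) h2) (c.trans' (by omega) h1 h3)

theorem fx_inv (hm : 3 ≤ m) (_hc : HAN c) : InvEq c (fun _ : Unit => x) (Fx c x) := by
  have hf := invEq_fib c (fun _ : Unit => x) (by simpa using hm)
  refine ⟨⟨?_, ?_, ?_⟩, fun _ _ h => h.1, ?_⟩
  · exact fun y => ⟨hf.eqv.refl y, fun E hE _ => hE.eqv.refl y⟩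
  · intro y y' h
    refine ⟨hf.eqv.symm h.1, fun E hE hw => ?_⟩
    exact hE.eqv.symm (h.2 E hE (hE.nonid_of (by simpa using hm) (hf.eqv.symm h.1) hw))
  · intro y y' y'' h h'
    refine ⟨hf.eqv.trans h.1 h'.1, fun E hE hw => ?_⟩
    exact hE.eqv.trans (h.2 E hE hw) (h'.2 E hE (hE.nonid_of (by simpa using hm) h.1 hw))
  · intro y y' z z' h h1
    refine ⟨hf.inv _ _ _ _ h h1.1, fun E hE hw => ?_⟩
    have h2 : c.r (sn (fun _ : Unit => x) z) (sn (fun _ : Unit => x) y) := by
      refine c.symm' (by simp; omega) (c.ofSub h some (by simpa using hm) (by simp; omega) ?_ ?_)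
      · rintro (_ | i) <;> simp
      · rintro (_ | i) <;> simp
    exact hE.inv _ _ _ _ h (h1.2 E hE (hE.nonid_of (by simpa using hm) h2 hw))

theorem fx_left (hm : 3 ≤ m) (_hc : HAN c) {y : U} : Fx c x x y → y = x := by
  intro h
  have h1 := c.inj' (by simp; omega) h.1 none (some ()) (by simp)
  simpa using h1

theorem fx_right (hm : 3 ≤ m) (_hc : HAN c) {y : U} : Fx c x y x → y = x := by
  intro h
  have h1 := (c.inj_iff (by simp; omega) h.1 none (some ())).2 (by simp)
  simpa using h1

/-- Transport of an invariant equivalence relation from one point to another. -/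
theorem invEq_transport {c : Sch U m} (hm : 4 ≤ m) {x x1 : U}
    (h : c.r (fun _ : Unit => x) (fun _ : Unit => x1)) {E : U → U → Prop}
    (hE : InvEq c (fun _ : Unit => x1) E) :
    InvEq c (fun _ : Unit => x) (fun u u' => ∃ w w', c.r ![x, u, u'] ![x1, w, w'] ∧ E w w') := by
  have c3 : Nat.card (Fin 3) ≤ m := by simp; omega
  have ext2' : ∀ u u' : U, ∃ w w', c.r ![x, u, u'] ![x1, w, w'] := by
    intro u u'
    obtain ⟨w, hw⟩ := c.ext1 (by simp; omega) h u
    obtain ⟨w', hw'⟩ := c.ext1 (by simp; omega) hw u'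
    exact ⟨w, w', c.triple_of (by omega) hw'⟩
  have unique : ∀ {u u' v v' : U}, c.r ![x, u, u'] ![x1, v, v'] →
      (∃ w w', c.r ![x, u, u'] ![x1, w, w'] ∧ E w w') → E v v' := by
    rintro u u' v v' h1 ⟨w, w', h2, h3⟩
    exact hE.inv _ _ _ _ (c.triple_to (by omega) (c.trans' c3 (c.symm' c3 h2) h1)) h3
  refine ⟨⟨?_, ?_, ?_⟩, ?_, ?_⟩
  · intro u
    obtain ⟨w, w', hw⟩ := ext2' u u
    refine ⟨w, w', hw, ?_⟩
    have h1 : w = w' := by
      have := c.inj' c3 hw 1 2 (by simp)
      simpa using this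
    rw [h1]
    exact hE.eqv.refl _
  · rintro u u' ⟨w, w', h1, h2⟩
    refine ⟨w', w, ?_, hE.eqv.symm h2⟩
    refine c.ofSub h1 (![0, 2, 1] : Fin 3 → Fin 3) c3 c3 ?_ ?_
    · intro k; fin_cases k <;> simp
    · intro k; fin_cases k <;> simp
  · rintro u u' u'' hu hu'
    obtain ⟨w, w', h1⟩ := ext2' u u'
    obtain ⟨w'', h2⟩ := c.ext1 (by simp; omega) h1 u''
    have c4 : Nat.card (Option (Fin 3)) ≤ m := by simp; omega
    have h3 : c.r ![x, u', u''] ![x1, w', w''] := by
      refine c.ofSub h2 (![some 0, some 2, none] : Fin 3 → Option (Fin 3)) c4 c3 ?_ ?_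
      · intro k; fin_cases k <;> simp
      · intro k; fin_cases k <;> simp
    have h4 : c.r ![x, u, u''] ![x1, w, w''] := by
      refine c.ofSub h2 (![some 0, some 1, none] : Fin 3 → Option (Fin 3)) c4 c3 ?_ ?_
      · intro k; fin_cases k <;> simp
      · intro k; fin_cases k <;> simp
    exact ⟨w, w'', h4, hE.eqv.trans (unique h1 hu) (unique h3 hu')⟩
  · rintro u u' ⟨w, w', h1, h2⟩
    have h3 := hE.fib _ _ h2
    have c2 : Nat.card (Option Unit) ≤ m := by simp; omega
    have h4 : c.r (sn (fun _ : Unit => x) u) (sn (fun _ : Unit => x1) w) := by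
      refine c.ofSub h1 (fun o => o.elim 1 (fun _ => 0)) c3 c2 ?_ ?_
      · rintro (_ | i) <;> simp
      · rintro (_ | i) <;> simp
    have h5 : c.r (sn (fun _ : Unit => x) u') (sn (fun _ : Unit => x1) w') := by
      refine c.ofSub h1 (fun o => o.elim 2 (fun _ => 0)) c3 c2 ?_ ?_
      · rintro (_ | i) <;> simp
      · rintro (_ | i) <;> simp
    exact c.trans' c2 h4 (c.trans' c2 h3 (c.symm' c2 h5))
  · rintro y y' z z' h1 hy
    obtain ⟨w, w', h2, h3⟩ := hy
    exact ⟨w, w', c.trans' c3 (c.symm' c3 (c.triple_of (by omega) h1)) h2, h3⟩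

theorem fx_cross (hm : 4 ≤ m) {x x1 y y' z z' : U} :
    c.r ![x, y, y'] ![x1, z, z'] → Fx c x y y' → Fx c x1 z z' := by
  intro h h1
  have c3 : Nat.card (Fin 3) ≤ m := by simp; omega
  have c2 : Nat.card (Option Unit) ≤ m := by simp; omega
  have hx : c.r (fun _ : Unit => x) (fun _ : Unit => x1) := by
    refine c.ofSub h (fun _ => 0) c3 (by simp; omega) ?_ ?_
    · intro k; simp
    · intro k; simp
  have h4 : c.r (sn (fun _ : Unit => x) y) (sn (fun _ : Unit => x1) z) := by
    refine c.ofSub h (fun o => o.elim 1 (fun _ => 0)) c3 c2 ?_ ?_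
    · rintro (_ | i) <;> simp
    · rintro (_ | i) <;> simp
  have h5 : c.r (sn (fun _ : Unit => x) y') (sn (fun _ : Unit => x1) z') := by
    refine c.ofSub h (fun o => o.elim 2 (fun _ => 0)) c3 c2 ?_ ?_
    · rintro (_ | i) <;> simp
    · rintro (_ | i) <;> simp
  refine ⟨c.trans' c2 (c.symm' c2 h4) (c.trans' c2 h1.1 h5), ?_⟩
  rintro E hE ⟨w, hwz, hw⟩
  have hE' := invEq_transport hm hx hE
  obtain ⟨w0, hw0⟩ := c.ext1 (by simp; omega) (c.symm' c2 h4) w
  have hw1 := c.symm' (by simp; omega) hw0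
  have hne : w0 ≠ y := by
    intro h8
    apply hwz
    have := c.inj' (by simp; omega) hw1 none (some none) (by simpa using h8)
    simpa using this
  obtain ⟨v, v', h6, h7⟩ := h1.2 _ hE' ⟨w0, hne, z, w, c.triple_of (by omega) hw1, hw⟩
  exact hE.inv _ _ _ _ (c.triple_to (by omega) (c.trans' c3 (c.symm' c3 h6) h)) h7

theorem fx_big [Finite U] (hm : 3 ≤ m) (hc : HAN c) {σ : ℕ → ℕ} {B : ℕ} (hH : Hyp c σ)
    (hB : Nat.card U ≤ B * σ 1) (hσ : B < σ 1) {y : U} (hy : y ≠ x) :
    ∃ w, w ≠ y ∧ Fx c x y w := by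
  classical
  have hf := invEq_fib c (fun _ : Unit => x) (by simpa using hm)
  have hu : Nat.card Unit + 2 ≤ m := by simpa using hm
  -- the fibre relation is nonidentity at `y`
  have hnon : ∃ w, w ≠ y ∧ c.r (sn (fun _ : Unit => x) y) (sn (fun _ : Unit => x) w) := by
    have h0 : c.r (sn (emp U) x) (sn (emp U) y) := by
      refine c.ofSub (hc.hom x y) (fun _ => ()) (by simp; omega) (by simp; omega) ?_ ?_
      · rintro (_ | i)
        · simp
        · exact i.elim
      · rintro (_ | i)
        · simp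
        · exact i.elim
    obtain ⟨y'', h1, h2⟩ := hc.nm (emp U) x y (by simp; omega) (Ne.symm hy) h0
    exact ⟨y'', h1, c.pairU_to (by omega) (c.pair_of (by omega) h2)⟩
  -- minimal nonidentity relation
  have hex : ∃ k : ℕ, ∃ E : U → U → Prop, InvEq c (fun _ : Unit => x) E ∧
      (∃ w, w ≠ y ∧ E y w) ∧ {z | E y z}.ncard = k := ⟨_, _, hf, hnon, rfl⟩
  obtain ⟨E, hE, hEn, hEk⟩ := Nat.find_spec hex
  have key : ∀ E' : U → U → Prop, InvEq c (fun _ : Unit => x) E' → (∃ w, w ≠ y ∧ E' y w) →
      ∀ z, E y z → E' y z := by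
    intro E' hE' hEn'
    have hI := hE.inter hE'
    have hIn : ∃ w, w ≠ y ∧ (E y w ∧ E' y w) := by
      by_contra hno
      have hid : ∀ z, E y z → ∀ w, E z w → E' z w → w = z := by
        intro z hz w hw hw'
        by_contra hne
        apply hno
        exact hI.nonid_of hu (hE.fib _ _ (hE.eqv.symm hz)) ⟨w, hne, hw, hw'⟩
      obtain ⟨w1, hw1, hw1'⟩ := hEn
      have hS1 : σ 1 ≤ {z | E y z}.ncard := by
        have := hH (fun _ : Unit => x) E hu hE y w1 (Ne.symm hw1) hw1'
        simpa using this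
      have hS2 : ∀ z, E y z → σ 1 ≤ {u | E' z u}.ncard := by
        intro z hz
        obtain ⟨w2, hw2, hw2'⟩ := hE'.nonid_of hu (hE.fib _ _ hz) hEn'
        have := hH (fun _ : Unit => x) E' hu hE' z w2 (Ne.symm hw2) hw2'
        simpa using this
      have : Fintype U := Fintype.ofFinite U
      have hcount : (Finset.univ.filter (fun z => E y z)).card * σ 1 ≤ Fintype.card U := by
        have h1 : ∀ z ∈ Finset.univ.filter (fun z => E y z),
            σ 1 ≤ (Finset.univ.filter (fun u => E' z u)).card := by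
          intro z hz
          have := hS2 z (by simpa using hz)
          rw [Set.ncard_eq_toFinset_card'] at this
          simpa [Set.toFinset_ofPred] using this
        calc (Finset.univ.filter (fun z => E y z)).card * σ 1
            = ∑ _z ∈ Finset.univ.filter (fun z => E y z), σ 1 := by simp
          _ ≤ ∑ z ∈ Finset.univ.filter (fun z => E y z),
              (Finset.univ.filter (fun u => E' z u)).card := Finset.sum_le_sum h1
          _ = ((Finset.univ.filter (fun z => E y z)).biUnion
              (fun z => Finset.univ.filter (fun u => E' z u))).card := by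
              rw [Finset.card_biUnion]
              intro z hz z' hz' hne
              rw [Function.onFun, Finset.disjoint_left]
              intro u hu1 hu2
              simp only [Finset.mem_filter, Finset.mem_univ, true_and, Finset.coe_filter,
                Set.mem_ofPred_eq] at hz hz' hu1 hu2
              exact hne (hid z hz z' (hE.eqv.trans (hE.eqv.symm hz) hz')
                (hE'.eqv.trans hu1 (hE'.eqv.symm hu2))).symm
          _ ≤ Fintype.card U := Finset.card_le_univ _
      have h2 : σ 1 ≤ (Finset.univ.filter (fun z => E y z)).card := by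
        rw [Set.ncard_eq_toFinset_card'] at hS1
        simpa [Set.toFinset_ofPred] using hS1
      rw [Nat.card_eq_fintype_card] at hB
      have h3 : σ 1 * σ 1 ≤ B * σ 1 := le_trans (Nat.mul_le_mul_right _ h2) (le_trans hcount hB)
      have h4 : σ 1 ≤ B := Nat.le_of_mul_le_mul_right h3 (by omega)
      omega
    have hmin := Nat.find_min' hex ⟨_, hI, hIn, rfl⟩
    have hsub : {z | E y z ∧ E' y z} ⊆ {z | E y z} := fun z hz => hz.1
    have heq : {z | E y z ∧ E' y z} = {z | E y z} :=
      Set.eq_of_subset_of_ncard_le hsub (by rw [hEk]; exact hmin) (Set.toFinite _)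
    intro z hz
    have : z ∈ {z | E y z ∧ E' y z} := by rw [heq]; exact hz
    exact this.2
  obtain ⟨w, hw, hw'⟩ := hEn
  exact ⟨w, hw, hE.fib _ _ hw', fun E' hE' hn => key E' hE' hn w hw'⟩

theorem fx_card [Finite U] (hm : 3 ≤ m) (hc : HAN c) {σ : ℕ → ℕ} {B : ℕ} (hH : Hyp c σ)
    (hB : Nat.card U ≤ B * σ 1) (hσ : B < σ 1) {y : U} (hy : y ≠ x) :
    σ 1 ≤ {z | Fx c x y z}.ncard := by
  obtain ⟨w, hw, hw'⟩ := fx_big c x hm hc hH hB hσ hy
  have := hH (fun _ : Unit => x) (Fx c x) (by simpa using hm) (fx_inv c x hm hc) y w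
    (Ne.symm hw) hw'
  simpa using this

theorem fx_classes [Finite U] (hm : 3 ≤ m) (hc : HAN c) {σ : ℕ → ℕ} {B : ℕ} (hH : Hyp c σ)
    (hB : Nat.card U ≤ B * σ 1) (hσ : B < σ 1) (S : Setoid U)
    (hS : ∀ y z, S.r y z ↔ Fx c x y z) : Nat.card (Quotient S) ≤ B + 1 := by
  classical
  have : Fintype U := Fintype.ofFinite U
  have : Fintype (Quotient S) := Fintype.ofFinite _
  have h1 : ∀ q ∈ (Finset.univ : Finset (Quotient S)).erase (Quotient.mk S x),
      σ 1 ≤ (Finset.univ.filter (fun u : U => Quotient.mk S u = q)).card := by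
    intro q hq
    obtain ⟨y, rfl⟩ := Quotient.exists_rep q
    have hyx : y ≠ x := by
      rintro rfl
      simp at hq
    have h2 := fx_card c x hm hc hH hB hσ hyx
    rw [Set.ncard_eq_toFinset_card'] at h2
    refine le_trans h2 (Finset.card_le_card ?_)
    intro z hz
    simp only [Set.mem_toFinset, Set.mem_ofPred_eq] at hz
    simp only [Finset.mem_filter, Finset.mem_univ, true_and]
    exact Quotient.sound (S.symm ((hS y z).2 hz))
  have h3 : ((Finset.univ : Finset (Quotient S)).erase (Quotient.mk S x)).card * σ 1 ≤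
      Fintype.card U := by
    calc ((Finset.univ : Finset (Quotient S)).erase (Quotient.mk S x)).card * σ 1
        = ∑ _q ∈ (Finset.univ : Finset (Quotient S)).erase (Quotient.mk S x), σ 1 := by simp
      _ ≤ ∑ q ∈ (Finset.univ : Finset (Quotient S)).erase (Quotient.mk S x),
          (Finset.univ.filter (fun u : U => Quotient.mk S u = q)).card := Finset.sum_le_sum h1
      _ ≤ ∑ q : Quotient S, (Finset.univ.filter (fun u : U => Quotient.mk S u = q)).card :=
          Finset.sum_le_sum_of_subset (Finset.subset_univ _)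
      _ = Fintype.card U := by
          rw [← Finset.card_univ]
          exact (Finset.card_eq_sum_card_fiberwise (fun _ _ => Finset.mem_coe.2
            (Finset.mem_univ _))).symm
  rw [Finset.card_erase_of_mem (Finset.mem_univ _), Finset.card_univ] at h3
  rw [Nat.card_eq_fintype_card] at hB ⊢
  have h4 : (Fintype.card (Quotient S) - 1) ≤ B :=
    Nat.le_of_mul_le_mul_right (le_trans h3 hB) (by omega)
  omega

end Pool.Agent.H1MS
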