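import Pool.Agent.H1MS.Coh

set_option autoImplicit false

/-!
The spectral gap of primitive coherent colourings with few colours.
-/

namespace Pool.Agent.H1MS

open Matrix

namespace LQ

/-! ### Polynomials in a matrix that is constant on colours -/

theorem cc_one {U C : Type} [Fintype U] [DecidableEq U] {κ : U → U → C} (h : Coh κ) :
    CC κ (1 : Matrix U U ℝ) := by
  intro y y' z z' hc
  by_cases h1 : y = y'
  · subst h1
    have := h.diag y z z' hc
    subst this
    rw [one_apply_eq, one_apply_eq]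
  · have h2 : z ≠ z' := by
      rintro rfl
      exact h1 (h.diag z y y' hc.symm)
    rw [one_apply_ne h1, one_apply_ne h2]

/-- The algebra of the matrices that are constant on colours. -/
def ccAlg {U C : Type} [Fintype U] [DecidableEq U] (κ : U → U → C) (h : Coh κ) :
    Subalgebra ℝ (Matrix U U ℝ) where
  carrier := {M | CC κ M}
  mul_mem' := fun {a b} ha hb => h.mul a b ha hb
  add_mem' := fun {a b} ha hb y y' z z' hc => by
    rw [Matrix.add_apply, Matrix.add_apply, ha y y' z z' hc, hb y y' z z' hc]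
  algebraMap_mem' := fun r y y' z z' hc => by
    rw [Algebra.algebraMap_eq_smul_one, Matrix.smul_apply, Matrix.smul_apply, cc_one h y y' z z' hc]

theorem cc_aeval {U C : Type} [Fintype U] [DecidableEq U] {κ : U → U → C} (h : Coh κ)
    (M : Matrix U U ℝ) (hM : CC κ M) (p : Polynomial ℝ) : CC κ (Polynomial.aeval M p) := by
  have h1 : M ∈ ccAlg κ h := hM
  have h2 : Polynomial.aeval M p ∈ ccAlg κ h :=
    Algebra.adjoin_le (Set.singleton_subset_iff.mpr h1)
      (Polynomial.aeval_mem_adjoin_singleton ℝ M)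
  exact h2

/-! ### Spectral decomposition -/

theorem vdv_apply {U : Type} [Fintype U] [DecidableEq U] (V : Matrix U U ℝ) (d : U → ℝ)
    (y y' : U) : (V * diagonal d * Vᵀ) y y' = ∑ i, V y i * d i * V y' i := by
  rw [mul_apply]
  refine Finset.sum_congr rfl fun i _ => ?_
  rw [mul_diagonal, transpose_apply]

theorem pow_vdv {U : Type} [Fintype U] [DecidableEq U] (V : Matrix U U ℝ) (d : U → ℝ)
    (h1 : V * Vᵀ = 1) (h2 : Vᵀ * V = 1) (n : ℕ) :
    (V * diagonal d * Vᵀ) ^ n = V * diagonal (fun i => d i ^ n) * Vᵀ := by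
  induction n with
  | zero =>
    have : (diagonal fun i : U => d i ^ 0) = (1 : Matrix U U ℝ) := by
      simp
    rw [this, pow_zero, Matrix.mul_one, h1]
  | succ n ih =>
    rw [pow_succ, ih]
    have e1 : V * diagonal (fun i => d i ^ n) * Vᵀ * (V * diagonal d * Vᵀ) =
        V * (diagonal (fun i => d i ^ n) * ((Vᵀ * V) * diagonal d)) * Vᵀ := by
      simp only [Matrix.mul_assoc]
    rw [e1, h2, Matrix.one_mul, diagonal_mul_diagonal]
    simp only [pow_succ]

theorem aeval_vdv {U : Type} [Fintype U] [DecidableEq U] (V : Matrix U U ℝ) (d : U → ℝ)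
    (h1 : V * Vᵀ = 1) (h2 : Vᵀ * V = 1) (p : Polynomial ℝ) (y y' : U) :
    (Polynomial.aeval (V * diagonal d * Vᵀ) p) y y' = ∑ i, V y i * p.eval (d i) * V y' i := by
  rw [Polynomial.aeval_eq_sum_range, Matrix.sum_apply]
  simp only [Matrix.smul_apply, pow_vdv V d h1 h2, vdv_apply, smul_eq_mul, Finset.mul_sum]
  rw [Finset.sum_comm]
  refine Finset.sum_congr rfl fun i _ => ?_
  rw [Polynomial.eval_eq_sum_range, Finset.mul_sum, Finset.sum_mul]
  refine Finset.sum_congr rfl fun n _ => ?_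
  ring

/-- Spectral decomposition of a positive semidefinite matrix. -/
theorem spec {U : Type} [Fintype U] [DecidableEq U] (A : Matrix U U ℝ) (hA : A.PosSemidef) :
    ∃ (V : Matrix U U ℝ) (lam : U → ℝ), V * Vᵀ = 1 ∧ Vᵀ * V = 1 ∧ (∀ i, 0 ≤ lam i) ∧
      A = V * diagonal lam * Vᵀ := by
  refine ⟨hA.1.eigenvectorUnitary, hA.1.eigenvalues, ?_, ?_, hA.eigenvalues_nonneg, ?_⟩
  · exact Unitary.coe_mul_star_self hA.1.eigenvectorUnitary
  · exact Unitary.coe_star_mul_self hA.1.eigenvectorUnitary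
  · have := hA.1.spectral_theorem
    rw [Unitary.conjStarAlgAut_apply] at this
    conv_lhs => rw [this]
    rfl

/-! ### Vectors whose inner products are constant on colours -/

section core

variable {U C ι : Type} [Fintype U] [DecidableEq U] [Fintype ι]

/-- A vector as a point of a Euclidean space. -/
noncomputable def pt (w : U → ι → ℝ) (y : U) : EuclideanSpace ℝ ι := WithLp.toLp 2 (w y)

omit [Fintype U] [DecidableEq U] in
theorem dist_pt_sq (w : U → ι → ℝ) (y y' : U) :
    dist (pt w y) (pt w y') ^ 2 = ∑ i, (w y i - w y' i) ^ 2 := by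
  rw [EuclideanSpace.dist_eq, Real.sq_sqrt (Finset.sum_nonneg fun i _ => sq_nonneg _)]
  refine Finset.sum_congr rfl fun i _ => ?_
  rw [Real.dist_eq, sq_abs]
  rfl

theorem dist_pt_sq' (P : Matrix U U ℝ) (w : U → ι → ℝ)
    (hw : ∀ y y', P y y' = ∑ i, w y i * w y' i) (t : ℝ) (ht : ∀ y, P y y = t) (y y' : U) :
    dist (pt w y) (pt w y') ^ 2 = 2 * t - 2 * P y y' := by
  have h1 : ∑ i, (w y i - w y' i) ^ 2 = P y y + P y' y' - 2 * P y y' := by
    rw [hw y y, hw y' y', hw y y', ← Finset.sum_add_distrib, Finset.mul_sum,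
      ← Finset.sum_sub_distrib]
    refine Finset.sum_congr rfl fun i _ => ?_
    ring
  rw [dist_pt_sq, h1, ht, ht]
  ring

theorem dist_cc (κ : U → U → C) (P : Matrix U U ℝ) (hP : CC κ P) (w : U → ι → ℝ)
    (hw : ∀ y y', P y y' = ∑ i, w y i * w y' i) (t : ℝ) (ht : ∀ y, P y y = t)
    (y y' z z' : U) (h : κ y y' = κ z z') : dist (pt w y) (pt w y') = dist (pt w z) (pt w z') := by
  have h1 := dist_pt_sq' P w hw t ht y y'
  have h2 := dist_pt_sq' P w hw t ht z z'
  rw [hP y y' z z' h, ← h2] at h1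
  exact (pow_left_inj₀ dist_nonneg dist_nonneg (by norm_num)).mp h1

/-- All distances are at least `R / 2 ^ L`. -/
theorem separated (κ : U → U → C) (L : ℕ)
    (hL : (Set.range (fun p : U × U => κ p.1 p.2)).ncard ≤ L)
    (hprim : ∀ E : U → U → Prop, Equivalence E →
      (∀ y y' z z', κ y y' = κ z z' → E y y' → E z z') →
      (∃ y y', y ≠ y' ∧ E y y') → ∀ z z', E z z')
    {X : Type} [MetricSpace X] (q : U → X)
    (hq : ∀ y y' z z', κ y y' = κ z z' → dist (q y) (q y') = dist (q z) (q z'))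
    (R : ℝ) (hR : 0 < R) (hfar : ∃ y y', R < dist (q y) (q y')) (y₀ y₁ : U) (hne : y₀ ≠ y₁) :
    R / 2 ^ L ≤ dist (q y₀) (q y₁) := by
  classical
  by_contra hlt
  push Not at hlt
  obtain ⟨z₀, z₁, hz⟩ := hfar
  have key : ∀ k : ℕ, k < L → ∃ y y', R / 2 ^ (k + 1) < dist (q y) (q y') ∧
      dist (q y) (q y') ≤ R / 2 ^ k := by
    intro k hk
    by_contra hcon
    push Not at hcon
    have hhalf : R / 2 ^ (k + 1) + R / 2 ^ (k + 1) = R / 2 ^ k := by
      rw [pow_succ]
      field_simp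
      ring
    have hE := hprim (fun y y' => dist (q y) (q y') ≤ R / 2 ^ (k + 1)) ⟨?_, ?_, ?_⟩ ?_
      ⟨y₀, y₁, hne, ?_⟩ z₀ z₁
    · have h1 : R / 2 ^ (k + 1) ≤ R := div_le_self hR.le (one_le_pow₀ (by norm_num))
      linarith
    · intro y
      rw [dist_self]
      positivity
    · intro y y' h
      rw [dist_comm]
      exact h
    · intro y y' y'' h h'
      have h2 := dist_triangle (q y) (q y') (q y'')
      by_contra h3
      push Not at h3
      have := hcon y y'' h3
      linarith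
    · intro y y' z z' hc h
      rw [← hq y y' z z' hc]
      exact h
    · refine hlt.le.trans ?_
      apply div_le_div_of_nonneg_left hR.le (by positivity)
      exact pow_le_pow_right₀ (by norm_num) hk
  have hU : Nonempty U := ⟨y₀⟩
  choose! a b hab using key
  let g : Fin (L + 1) → C := fun k => if k.val < L then κ (a k.val) (b k.val) else κ y₀ y₀
  have hginj : Function.Injective g := by
    have aux : ∀ k k' : ℕ, k < L → k' < L → k < k' → κ (a k) (b k) ≠ κ (a k') (b k') := by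
      intro k k' hk hk' hkk h
      have h1 := hq _ _ _ _ h
      have h2 := (hab k hk).1
      have h3 := (hab k' hk').2
      have h4 : R / 2 ^ k' ≤ R / 2 ^ (k + 1) :=
        div_le_div_of_nonneg_left hR.le (by positivity)
          (pow_le_pow_right₀ (by norm_num) hkk)
      linarith
    have aux2 : ∀ k : ℕ, k < L → κ (a k) (b k) ≠ κ y₀ y₀ := by
      intro k hk h
      have h1 := hq _ _ _ _ h
      have h2 := (hab k hk).1
      rw [dist_self] at h1
      have h3 : 0 < R / 2 ^ (k + 1) := by positivity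
      linarith
    intro k k' h
    simp only [g] at h
    by_cases hk : k.val < L <;> by_cases hk' : k'.val < L
    · rw [if_pos hk, if_pos hk'] at h
      rcases lt_trichotomy k.val k'.val with h1 | h1 | h1
      · exact absurd h (aux _ _ hk hk' h1)
      · exact Fin.ext h1
      · exact absurd h.symm (aux _ _ hk' hk h1)
    · rw [if_pos hk, if_neg hk'] at h
      exact absurd h (aux2 _ hk)
    · rw [if_neg hk, if_pos hk'] at h
      exact absurd h.symm (aux2 _ hk')
    · apply Fin.ext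
      have := k.isLt
      have := k'.isLt
      omega
  have hsub : Set.range g ⊆ Set.range (fun p : U × U => κ p.1 p.2) := by
    rintro _ ⟨k, rfl⟩
    simp only [g]
    split_ifs
    · exact ⟨(_, _), rfl⟩
    · exact ⟨(y₀, y₀), rfl⟩
  have hfin : (Set.range (fun p : U × U => κ p.1 p.2)).Finite := Set.finite_range _
  have h1 := Set.ncard_le_ncard hsub hfin
  have h2 : (Set.range g).ncard = L + 1 := by
    rw [← Set.image_univ, Set.ncard_image_of_injective _ hginj, Set.ncard_univ, Nat.card_fin]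
  omega

/-- Few vectors in a space of small dimension. -/
theorem packing (L f₀ : ℕ) (w : U → ι → ℝ) (hf : Fintype.card ι ≤ f₀) (t : ℝ) (ht : 0 < t)
    (hn : ∀ y, ∑ i, w y i ^ 2 = t)
    (hsep : ∀ y y', y ≠ y' → 2 * t / 4 ^ L ≤ ∑ i, (w y i - w y' i) ^ 2) :
    Fintype.card U ≤ (2 * (2 ^ L * (f₀ + 1)) + 1) ^ f₀ := by
  classical
  set m : ℕ := 2 ^ L * (f₀ + 1) with hm
  have hm1 : 1 ≤ m := by
    rw [hm]
    exact Nat.one_le_iff_ne_zero.mpr (by positivity)
  have hmR : (0 : ℝ) < m := by exact_mod_cast hm1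
  have hs : 0 < Real.sqrt t := Real.sqrt_pos.mpr ht
  have hss : Real.sqrt t ^ 2 = t := Real.sq_sqrt ht.le
  have hcoord : ∀ y i, |w y i| ≤ Real.sqrt t := by
    intro y i
    apply Real.abs_le_sqrt
    rw [← hn y]
    exact Finset.single_le_sum (f := fun i => w y i ^ 2) (fun i _ => sq_nonneg _)
      (Finset.mem_univ i)
  have hbound : ∀ y i, |w y i * m / Real.sqrt t| ≤ m := by
    intro y i
    rw [abs_div, abs_mul, abs_of_pos hs, abs_of_pos hmR, div_le_iff₀ hs, mul_comm]
    exact mul_le_mul_of_nonneg_left (hcoord y i) hmR.le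
  let g : U → ι → Set.Icc (-(m : ℤ)) (m : ℤ) := fun y i => ⟨⌊w y i * m / Real.sqrt t⌋, by
    obtain ⟨h1, h2⟩ := abs_le.mp (hbound y i)
    constructor
    · rw [Int.le_floor]
      push_cast
      exact h1
    · have h3 : ((⌊w y i * m / Real.sqrt t⌋ : ℤ) : ℝ) ≤ (m : ℤ) := by
        refine (Int.floor_le _).trans ?_
        push_cast
        exact h2
      exact_mod_cast h3⟩
  have hinj : Function.Injective g := by
    intro y y' h
    by_contra hne
    have h1 := hsep y y' hne
    have h2 : ∀ i, (w y i - w y' i) ^ 2 ≤ t / (m : ℝ) ^ 2 := by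
      intro i
      have h3 : ⌊w y i * m / Real.sqrt t⌋ = ⌊w y' i * m / Real.sqrt t⌋ :=
        congrArg Subtype.val (congrFun h i)
      have h4 := Int.abs_sub_lt_one_of_floor_eq_floor h3
      have h5 : w y i * m / Real.sqrt t - w y' i * m / Real.sqrt t =
          (w y i - w y' i) * (m / Real.sqrt t) := by ring
      rw [h5] at h4
      have h6 : ((w y i - w y' i) * (m / Real.sqrt t)) ^ 2 ≤ 1 := by
        rw [← sq_abs]
        have h7 := abs_nonneg ((w y i - w y' i) * (m / Real.sqrt t))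
        nlinarith
      have h8 : ((w y i - w y' i) * (m / Real.sqrt t)) ^ 2 =
          (w y i - w y' i) ^ 2 * ((m : ℝ) ^ 2 / t) := by
        rw [mul_pow, div_pow, hss]
      rw [h8] at h6
      rw [le_div_iff₀ (by positivity)]
      have h9 : (w y i - w y' i) ^ 2 * ((m : ℝ) ^ 2 / t) * t =
          (w y i - w y' i) ^ 2 * (m : ℝ) ^ 2 := by
        field_simp
      nlinarith
    have h3 : ∑ i, (w y i - w y' i) ^ 2 ≤ (Fintype.card ι : ℝ) * (t / (m : ℝ) ^ 2) := by
      refine (Finset.sum_le_sum fun i _ => h2 i).trans ?_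
      rw [Finset.sum_const, nsmul_eq_mul, Finset.card_univ]
    have h4 : (Fintype.card ι : ℝ) * (t / (m : ℝ) ^ 2) ≤ (f₀ : ℝ) * (t / (m : ℝ) ^ 2) :=
      mul_le_mul_of_nonneg_right (by exact_mod_cast hf) (by positivity)
    have h5 : (m : ℝ) ^ 2 = 4 ^ L * ((f₀ : ℝ) + 1) ^ 2 := by
      rw [hm]
      push_cast
      rw [mul_pow, ← pow_mul, mul_comm L 2, pow_mul]
      norm_num
    have h6 : (f₀ : ℝ) * (t / (m : ℝ) ^ 2) < 2 * t / 4 ^ L := by
      rw [h5]
      have hf0 : (0 : ℝ) ≤ f₀ := Nat.cast_nonneg _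
      have e1 : (f₀ : ℝ) * (t / (4 ^ L * ((f₀ : ℝ) + 1) ^ 2)) =
          t / 4 ^ L * ((f₀ : ℝ) / ((f₀ : ℝ) + 1) ^ 2) := by
        field_simp
      have e2 : (f₀ : ℝ) / ((f₀ : ℝ) + 1) ^ 2 < 2 := by
        rw [div_lt_iff₀ (by positivity)]
        nlinarith
      have e3 : (0 : ℝ) < t / 4 ^ L := by positivity
      rw [e1]
      have e4 : 2 * t / 4 ^ L = t / 4 ^ L * 2 := by ring
      rw [e4]
      exact mul_lt_mul_of_pos_left e2 e3
    linarith
  have hcard := Fintype.card_le_of_injective g hinj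
  rw [Fintype.card_fun] at hcard
  have hI : Fintype.card (Set.Icc (-(m : ℤ)) (m : ℤ)) = 2 * m + 1 := by
    rw [Fintype.card_ofFinset, Int.card_Icc]
    omega
  rw [hI] at hcard
  exact hcard.trans (Nat.pow_le_pow_right (by omega) hf)

theorem core (L f₀ : ℕ) (κ : U → U → C) (hhom : ∀ y z, κ y y = κ z z)
    (hL : (Set.range (fun p : U × U => κ p.1 p.2)).ncard ≤ L)
    (hprim : ∀ E : U → U → Prop, Equivalence E →
      (∀ y y' z z', κ y y' = κ z z' → E y y' → E z z') →
      (∃ y y', y ≠ y' ∧ E y y') → ∀ z z', E z z')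
    (P : Matrix U U ℝ) (hP : CC κ P) (w : U → ι → ℝ)
    (hw : ∀ y y', P y y' = ∑ i, w y i * w y' i) (hf : Fintype.card ι ≤ f₀)
    (hsum : ∀ y, ∑ y', P y y' = 0) (hne : ∃ y, P y y ≠ 0) :
    Fintype.card U ≤ (2 * (2 ^ L * (f₀ + 1)) + 1) ^ f₀ := by
  classical
  obtain ⟨y₀, hy₀⟩ := hne
  have ht : ∀ y, P y y = P y₀ y₀ := fun y => hP _ _ _ _ (hhom y y₀)
  set t := P y₀ y₀ with htdef
  have hn : ∀ y, ∑ i, w y i ^ 2 = t := by
    intro y
    rw [← ht y, hw y y]
    refine Finset.sum_congr rfl fun i _ => ?_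
    ring
  have htpos : 0 < t := by
    have h1 : 0 ≤ t := by
      rw [← hn y₀]
      exact Finset.sum_nonneg fun i _ => sq_nonneg _
    exact lt_of_le_of_ne h1 (Ne.symm hy₀)
  have hneg : ∃ y', P y₀ y' < 0 := by
    by_contra hcon
    push Not at hcon
    have h1 : t ≤ ∑ y', P y₀ y' :=
      Finset.single_le_sum (f := fun y' => P y₀ y') (fun i _ => hcon i) (Finset.mem_univ y₀)
    rw [hsum y₀] at h1
    linarith
  have hR : 0 < Real.sqrt (2 * t) := Real.sqrt_pos.mpr (by linarith)
  have hRR : Real.sqrt (2 * t) ^ 2 = 2 * t := Real.sq_sqrt (by linarith)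
  have hfar : ∃ y y', Real.sqrt (2 * t) < dist (pt w y) (pt w y') := by
    obtain ⟨y', hy'⟩ := hneg
    refine ⟨y₀, y', ?_⟩
    have h1 := dist_pt_sq' P w hw t ht y₀ y'
    have h2 : 0 ≤ dist (pt w y₀) (pt w y') := dist_nonneg
    nlinarith
  have hsep : ∀ y y', y ≠ y' → 2 * t / 4 ^ L ≤ ∑ i, (w y i - w y' i) ^ 2 := by
    intro y y' hne
    have h1 := separated κ L hL hprim (pt w) (dist_cc κ P hP w hw t ht)
      (Real.sqrt (2 * t)) hR hfar y y' hne
    rw [← dist_pt_sq]
    have h2 : (Real.sqrt (2 * t) / 2 ^ L) ^ 2 = 2 * t / 4 ^ L := by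
      rw [div_pow, hRR, ← pow_mul, mul_comm L 2, pow_mul]
      norm_num
    rw [← h2]
    exact pow_le_pow_left₀ (by positivity) h1 2
  exact packing L f₀ w hf t htpos hn hsep

end core

/-! ### The quadratic form -/

theorem sum_eig {U : Type} [Fintype U] (lam : U → ℝ) (θ : ℝ)
    (f : U → ℝ) : ∑ i ∈ Finset.univ.filter (fun i => lam i = θ), f i =
      ∑ i : {i // lam i = θ}, f i.1 := by
  classical
  exact (Finset.sum_subtype (Finset.univ.filter (fun i => lam i = θ)) (by simp) f)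

theorem quad_vdv {U : Type} [Fintype U] [DecidableEq U] (V : Matrix U U ℝ) (d : U → ℝ)
    (g : U → ℝ) : g ⬝ᵥ ((V * diagonal d * Vᵀ) *ᵥ g) = ∑ i, d i * (∑ y, V y i * g y) ^ 2 := by
  have h1 : g ⬝ᵥ ((V * diagonal d * Vᵀ) *ᵥ g) =
      ∑ y, ∑ y', ∑ i, d i * ((V y i * g y) * (V y' i * g y')) := by
    unfold dotProduct mulVec dotProduct
    refine Finset.sum_congr rfl fun y _ => ?_
    rw [Finset.mul_sum]
    refine Finset.sum_congr rfl fun y' _ => ?_
    show g y * ((V * diagonal d * Vᵀ) y y' * g y') = _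
    rw [vdv_apply, Finset.sum_mul, Finset.mul_sum]
    refine Finset.sum_congr rfl fun i _ => ?_
    ring
  have h2 : ∀ i, d i * (∑ y, V y i * g y) ^ 2 =
      ∑ y, ∑ y', d i * ((V y i * g y) * (V y' i * g y')) := by
    intro i
    rw [sq, Finset.sum_mul_sum, Finset.mul_sum]
    refine Finset.sum_congr rfl fun y _ => ?_
    rw [Finset.mul_sum]
  rw [h1, Finset.sum_congr rfl fun i _ => h2 i]
  rw [Finset.sum_congr rfl fun y _ => Finset.sum_comm, Finset.sum_comm]

theorem norm_vdv {U : Type} [Fintype U] [DecidableEq U] (V : Matrix U U ℝ)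
    (h1 : V * Vᵀ = 1) (g : U → ℝ) : g ⬝ᵥ g = ∑ i, (∑ y, V y i * g y) ^ 2 := by
  have h := quad_vdv V (fun _ => 1) g
  have h2 : (diagonal fun _ : U => (1 : ℝ)) = 1 := diagonal_one
  rw [h2, Matrix.mul_one, h1, one_mulVec] at h
  rw [h]
  refine Finset.sum_congr rfl fun i _ => ?_
  ring

theorem trace_vdv {U : Type} [Fintype U] [DecidableEq U] (V : Matrix U U ℝ) (d : U → ℝ)
    (h2 : Vᵀ * V = 1) : (V * diagonal d * Vᵀ).trace = ∑ i, d i := by
  rw [Matrix.trace_mul_comm, ← Matrix.mul_assoc, h2, Matrix.one_mul, trace_diagonal]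

/-- The eigenvalues of a matrix that is constant on colours and kills the constants. -/
theorem eig_bound (L : ℕ) (η : ℝ) (hη : 0 < η) {U C : Type} [Fintype U] [DecidableEq U]
    (κ : U → U → C) (hκ : Coh κ) (hhom : ∀ y z, κ y y = κ z z)
    (hL : (Set.range (fun p : U × U => κ p.1 p.2)).ncard ≤ L)
    (hprim : ∀ E : U → U → Prop, Equivalence E →
      (∀ y y' z z', κ y y' = κ z z' → E y y' → E z z') →
      (∃ y y', y ≠ y' ∧ E y y') → ∀ z z', E z z')
    (hU : (2 * (2 ^ L * (⌈1 / η⌉₊ + 1)) + 1) ^ ⌈1 / η⌉₊ < Fintype.card U)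
    (V : Matrix U U ℝ) (lam : U → ℝ) (h1 : V * Vᵀ = 1) (h2 : Vᵀ * V = 1)
    (hpos : ∀ i, 0 ≤ lam i) (hcc : CC κ (V * diagonal lam * Vᵀ))
    (hker : (V * diagonal lam * Vᵀ) *ᵥ (fun _ => 1) = 0) (T : ℝ)
    (hT : ∑ i, lam i ≤ T) (i₀ : U) : lam i₀ ≤ η * T := by
  classical
  by_contra hlt
  push Not at hlt
  set θ := lam i₀ with hθ
  have hT0 : 0 ≤ T := (Finset.sum_nonneg fun i _ => hpos i).trans hT
  have hθ0 : 0 < θ := lt_of_le_of_lt (by positivity) hlt
  have hcard : (Fintype.card {i // lam i = θ} : ℝ) * θ ≤ T := by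
    have e1 : (Fintype.card {i // lam i = θ} : ℝ) * θ =
        ∑ i ∈ Finset.univ.filter (fun i => lam i = θ), lam i := by
      rw [Finset.sum_congr rfl (fun i hi => (Finset.mem_filter.mp hi).2), Finset.sum_const,
        nsmul_eq_mul, Fintype.card_subtype]
    rw [e1]
    refine le_trans ?_ hT
    exact Finset.sum_le_sum_of_subset_of_nonneg (Finset.filter_subset _ _)
      (fun i _ _ => hpos i)
  have hcard1 : (1 : ℝ) ≤ Fintype.card {i // lam i = θ} := by
    have : 0 < Fintype.card {i // lam i = θ} := Fintype.card_pos_iff.mpr ⟨⟨i₀, rfl⟩⟩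
    exact_mod_cast this
  have hTpos : 0 < T := by nlinarith
  have hf : Fintype.card {i // lam i = θ} ≤ ⌈1 / η⌉₊ := by
    have e1 : (Fintype.card {i // lam i = θ} : ℝ) * (η * T) ≤ T := by
      refine le_trans ?_ hcard
      exact mul_le_mul_of_nonneg_left hlt.le (by linarith)
    have e2 : (Fintype.card {i // lam i = θ} : ℝ) ≤ 1 / η := by
      rw [le_div_iff₀ hη]
      have e3 : (Fintype.card {i // lam i = θ} : ℝ) * η * T ≤ 1 * T := by linarith
      exact le_of_mul_le_mul_right e3 hTpos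
    have e3 := Nat.le_ceil (1 / η)
    exact_mod_cast e2.trans e3
  -- the projection to the eigenspace
  let S : Finset ℝ := Finset.univ.image lam
  have hθS : θ ∈ S := Finset.mem_image_of_mem _ (Finset.mem_univ _)
  let p : Polynomial ℝ := Lagrange.basis S id θ
  have hp1 : p.eval θ = 1 := Lagrange.eval_basis_self (Set.injOn_id _) hθS
  have hp0 : ∀ i, lam i ≠ θ → p.eval (lam i) = 0 := by
    intro i hi
    exact Lagrange.eval_basis_of_ne (v := id) (Ne.symm hi)
      (Finset.mem_image_of_mem _ (Finset.mem_univ i))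
  let P : Matrix U U ℝ := Polynomial.aeval (V * diagonal lam * Vᵀ) p
  have hP : CC κ P := cc_aeval hκ _ hcc p
  have hPe : ∀ y y', P y y' = ∑ i : {i // lam i = θ}, V y i.1 * V y' i.1 := by
    intro y y'
    show (Polynomial.aeval (V * diagonal lam * Vᵀ) p) y y' = _
    rw [aeval_vdv V lam h1 h2]
    rw [← sum_eig lam θ (fun i => V y i * V y' i)]
    rw [Finset.sum_filter]
    refine Finset.sum_congr rfl fun i _ => ?_
    by_cases hi : lam i = θ
    · rw [if_pos hi, hi, hp1]
      ring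
    · rw [if_neg hi, hp0 i hi]
      ring
  have hcol : ∀ i, lam i = θ → ∑ y', V y' i = 0 := by
    intro i hi
    have e1 : (V * diagonal lam * Vᵀ) * V = V * diagonal lam := by
      rw [Matrix.mul_assoc, h2, Matrix.mul_one]
    have e2 : (fun _ => (1 : ℝ)) ᵥ* (V * diagonal lam) = 0 := by
      rw [← e1, ← vecMul_vecMul]
      have e3 : (fun _ => (1 : ℝ)) ᵥ* (V * diagonal lam * Vᵀ) = 0 := by
        rw [← mulVec_transpose]
        have e4 : (V * diagonal lam * Vᵀ)ᵀ = V * diagonal lam * Vᵀ := by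
          rw [transpose_mul, transpose_mul, transpose_transpose, diagonal_transpose,
            Matrix.mul_assoc]
        rw [e4]
        exact hker
      rw [e3, zero_vecMul]
    have e3 := congrFun e2 i
    have e4 : ((fun _ => (1 : ℝ)) ᵥ* (V * diagonal lam)) i = (∑ y', V y' i) * lam i := by
      unfold vecMul dotProduct
      rw [Finset.sum_mul]
      refine Finset.sum_congr rfl fun y _ => ?_
      show (1 : ℝ) * (V * diagonal lam) y i = _
      rw [mul_diagonal, one_mul]
    rw [e4, hi] at e3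
    have e5 : (∑ y', V y' i) * θ = 0 := e3
    rcases mul_eq_zero.mp e5 with h | h
    · exact h
    · exact absurd h hθ0.ne'
  have hsum : ∀ y, ∑ y', P y y' = 0 := by
    intro y
    rw [Finset.sum_congr rfl fun y' _ => hPe y y', Finset.sum_comm]
    apply Finset.sum_eq_zero
    intro i _
    rw [← Finset.mul_sum, hcol i.1 i.2, mul_zero]
  have hne : ∃ y, P y y ≠ 0 := by
    have e1 : ∑ y, V y i₀ * V y i₀ = 1 := by
      have := congrFun (congrFun h2 i₀) i₀
      rw [mul_apply, one_apply_eq] at this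
      simpa [transpose_apply] using this
    have e2 : ∃ y, V y i₀ ≠ 0 := by
      by_contra hcon
      push Not at hcon
      rw [Finset.sum_eq_zero (fun y _ => by rw [hcon y, mul_zero])] at e1
      exact zero_ne_one e1
    obtain ⟨y, hy⟩ := e2
    refine ⟨y, ?_⟩
    rw [hPe]
    have e3 : V y i₀ * V y i₀ ≤ ∑ i : {i // lam i = θ}, V y i.1 * V y i.1 :=
      Finset.single_le_sum (f := fun i : {i // lam i = θ} => V y i.1 * V y i.1)
        (fun i _ => mul_self_nonneg _) (Finset.mem_univ (⟨i₀, rfl⟩ : {i // lam i = θ}))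
    have e4 : 0 < V y i₀ * V y i₀ := mul_self_pos.mpr hy
    linarith
  have := core L ⌈1 / η⌉₊ κ hhom hL hprim P hP (fun y (i : {i // lam i = θ}) => V y i.1) hPe hf
    hsum hne
  omega

end LQ

/-- The spectral gap of primitive homogeneous coherent colourings with few colours on many
points. -/
theorem lemmaQ (L : ℕ) (η : ℝ) (hη : 0 < η) : ∃ N : ℕ, ∀ (U C : Type) [Fintype U]
    [DecidableEq U] (κ : U → U → C), Coh κ → (∀ y z, κ y y = κ z z) →
    (Set.range (fun p : U × U => κ p.1 p.2)).ncard ≤ L →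
    (∀ E : U → U → Prop, Equivalence E →
      (∀ y y' z z', κ y y' = κ z z' → E y y' → E z z') →
      (∃ y y', y ≠ y' ∧ E y y') → ∀ z z', E z z') →
    N ≤ Fintype.card U →
    ∀ G : Matrix U U ℝ, CC κ G → G.PosSemidef → ∀ g : U → ℝ, ∑ u, g u = 0 →
      g ⬝ᵥ (G *ᵥ g) ≤ η * G.trace * (g ⬝ᵥ g) := by
  classical
  refine ⟨(2 * (2 ^ L * (⌈1 / η⌉₊ + 1)) + 1) ^ ⌈1 / η⌉₊ + 1, ?_⟩
  intro U C _ _ κ hκ hhom hL hprim hN G hG hpsd g hg
  have hvpos : 0 < Fintype.card U := by omega
  have hv : (Fintype.card U : ℝ) ≠ 0 := by exact_mod_cast hvpos.ne'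
  -- the projection to the functions with sum zero
  let J : Matrix U U ℝ := fun _ _ => 1 / (Fintype.card U : ℝ)
  let Q : Matrix U U ℝ := 1 - J
  have hQt : Qᵀ = Q := by
    ext i j
    show (1 - J)ᵀ i j = (1 - J) i j
    rw [transpose_apply, Matrix.sub_apply, Matrix.sub_apply]
    by_cases hij : i = j
    · rw [hij]
    · rw [one_apply_ne hij, one_apply_ne (Ne.symm hij)]
  have hQcc : CC κ Q := by
    intro y y' z z' hc
    show (1 - J) y y' = (1 - J) z z'
    rw [Matrix.sub_apply, Matrix.sub_apply, LQ.cc_one hκ y y' z z' hc]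
  have hQ1 : Q *ᵥ (fun _ => 1) = 0 := by
    show (1 - J) *ᵥ (fun _ => 1) = 0
    rw [sub_mulVec, one_mulVec]
    ext i
    show (1 : ℝ) - (J *ᵥ fun _ => 1) i = 0
    have : (J *ᵥ fun _ => (1 : ℝ)) i = 1 := by
      unfold mulVec dotProduct
      show ∑ j : U, 1 / (Fintype.card U : ℝ) * 1 = 1
      rw [Finset.sum_const, Finset.card_univ, nsmul_eq_mul]
      field_simp
    rw [this]
    ring
  have hQg : Q *ᵥ g = g := by
    show (1 - J) *ᵥ g = g
    rw [sub_mulVec, one_mulVec]
    have : J *ᵥ g = 0 := by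
      ext i
      unfold mulVec dotProduct
      show ∑ j : U, 1 / (Fintype.card U : ℝ) * g j = 0
      rw [← Finset.mul_sum, hg, mul_zero]
    rw [this, sub_zero]
  let A : Matrix U U ℝ := Q * G * Q
  have hAcc : CC κ A := hκ.mul _ _ (hκ.mul _ _ hQcc hG) hQcc
  have hApsd : A.PosSemidef := by
    have := hpsd.conjTranspose_mul_mul_same Q
    rw [conjTranspose_eq_transpose_of_trivial, hQt] at this
    exact this
  have hA1 : A *ᵥ (fun _ => 1) = 0 := by
    show (Q * G * Q) *ᵥ (fun _ => 1) = 0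
    rw [← mulVec_mulVec, hQ1, mulVec_zero]
  have hquad : g ⬝ᵥ (G *ᵥ g) = g ⬝ᵥ (A *ᵥ g) := by
    have hgQ : g ᵥ* Q = g := by rw [← mulVec_transpose, hQt, hQg]
    show _ = g ⬝ᵥ ((Q * G * Q) *ᵥ g)
    rw [← mulVec_mulVec, hQg, ← mulVec_mulVec, dotProduct_mulVec g Q, hgQ]
  have htr : A.trace ≤ G.trace := by
    have hQQ : Q * Q = Q := by
      have e1 : J * J = J := by
        ext i j
        rw [mul_apply]
        show ∑ k : U, 1 / (Fintype.card U : ℝ) * (1 / (Fintype.card U : ℝ)) =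
          1 / (Fintype.card U : ℝ)
        rw [Finset.sum_const, Finset.card_univ, nsmul_eq_mul]
        field_simp
      show (1 - J) * (1 - J) = 1 - J
      rw [Matrix.mul_sub, Matrix.mul_one, Matrix.sub_mul, Matrix.one_mul, e1]
      abel
    have e1 : A.trace = (Q * G).trace := by
      show (Q * G * Q).trace = _
      rw [Matrix.trace_mul_comm, ← Matrix.mul_assoc, hQQ]
    have e2 : (Q * G).trace = G.trace - (J * G).trace := by
      show ((1 - J) * G).trace = _
      rw [Matrix.sub_mul, Matrix.one_mul, trace_sub]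
    have e3 : 0 ≤ (J * G).trace := by
      have e4 : (J * G).trace = 1 / (Fintype.card U : ℝ) * ((fun _ => 1) ⬝ᵥ (G *ᵥ fun _ => 1)) := by
        unfold Matrix.trace
        have e5 : ∀ i, (J * G).diag i = 1 / (Fintype.card U : ℝ) * ∑ k, G k i := by
          intro i
          rw [diag_apply, mul_apply, Finset.mul_sum]
        rw [Finset.sum_congr rfl fun i _ => e5 i, ← Finset.mul_sum, Finset.sum_comm]
        congr 1
        unfold dotProduct mulVec dotProduct
        refine Finset.sum_congr rfl fun k _ => ?_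
        rw [one_mul]
        refine Finset.sum_congr rfl fun i _ => ?_
        rw [mul_one]
      have e6 : 0 ≤ (fun _ => (1 : ℝ)) ⬝ᵥ (G *ᵥ fun _ => 1) := by
        have := hpsd.dotProduct_mulVec_nonneg (fun _ => (1 : ℝ))
        simpa using this
      rw [e4]
      positivity
    rw [e1, e2]
    linarith
  obtain ⟨V, lam, h1, h2, hpos, hA⟩ := LQ.spec A hApsd
  have hsumlam : ∑ i, lam i ≤ G.trace := by
    rw [← LQ.trace_vdv V lam h2, ← hA]
    exact htr
  have hbound : ∀ i, lam i ≤ η * G.trace := fun i =>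
    LQ.eig_bound L η hη κ hκ hhom hL hprim (by omega) V lam h1 h2 hpos (hA ▸ hAcc)
      (hA ▸ hA1) G.trace hsumlam i
  rw [hquad, hA, LQ.quad_vdv, LQ.norm_vdv V h1 g, Finset.mul_sum]
  refine Finset.sum_le_sum fun i _ => ?_
  exact mul_le_mul_of_nonneg_right (hbound i) (sq_nonneg _)

end Pool.Agent.H1MS
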