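import Pool.Agent.H1MS.ClassScheme
import Pool.Agent.H1MS.Finest
import Pool.Agent.H1MS.Link

set_option autoImplicit false
set_option linter.unusedSectionVars false

/-!
Consequences of the link lemma: the classes of the named scheme are large, and it is primitive.
-/

namespace Pool.Agent.H1MS

variable {U : Type} {m : ℕ}

section

variable [Finite U] {c : Sch U m} {x : U} {S : Setoid U} (hS : NData c x S)

include hS

/-- Classes of the named scheme over `l` points are singletons or have at least `σ (l + 1)`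
elements. -/
theorem nmQ_hyp (hc : HAN c)
    {σ : ℕ → ℕ} (hH : Hyp c σ) {R P : ℕ} (hP : Nat.card (Equiv.Perm (Quotient S)) ≤ P)
    (hU : ∀ l ≤ m, Nat.card U ≤ R * σ l) (hσ : ∀ l ≤ m, (R * P + 1) ^ P + P < σ l)
    (β : Quotient S) (m' : ℕ) (hm3 : 3 ≤ m) (hm : 2 * Nat.card (Quotient S) + m' + 1 ≤ m)
    (hm5 : 2 * Nat.card (Quotient S) + m' + 5 ≤ m) :
    Hyp (nmQ hS β m' hm3 hm) (fun l => σ (l + 1)) := by
  intro ι _ a E' hι hE' y0 y1 hne h
  obtain ⟨E, hE, ⟨w, hw, hEw⟩, hsub⟩ := link hS hc hH hP hU hσ β m' hm3 hm hm5 a E' hι hE' y0 y1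
    hne h
  have hcard : Nat.card (Unit ⊕ ι) = Nat.card ι + 1 := by
    rw [Nat.card_sum, Nat.card_unique]; omega
  have h1 := hH _ E (by rw [hcard]; omega) hE (y0 : U) w (Ne.symm hw) hEw
  rw [hcard] at h1
  refine h1.trans ?_
  have h2 : {z | E (y0 : U) z} ⊆ Subtype.val '' {z | E' y0 z} := by
    intro z hz
    obtain ⟨hw', hE''⟩ := hsub z hz
    exact ⟨⟨z, hw'⟩, hE'', rfl⟩
  exact (Set.ncard_le_ncard h2 (Set.toFinite _)).trans (Set.ncard_image_le (Set.toFinite _))

/-- The named scheme on a class of the finest relation is primitive. -/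
theorem nmQ_prim (hc : HAN c) (hSx : ∀ y z, S.r y z ↔ Fx c x y z)
    {σ : ℕ → ℕ} (hH : Hyp c σ) {R P : ℕ} (hP : Nat.card (Equiv.Perm (Quotient S)) ≤ P)
    (hU : ∀ l ≤ m, Nat.card U ≤ R * σ l) (hσ : ∀ l ≤ m, (R * P + 1) ^ P + P < σ l)
    (β : Quotient S) (m' : ℕ) (hm2 : 2 ≤ m') (hm3 : 3 ≤ m)
    (hm : 2 * Nat.card (Quotient S) + m' + 1 ≤ m)
    (hm5 : 2 * Nat.card (Quotient S) + m' + 5 ≤ m) :
    Prim (nmQ hS β m' hm3 hm) := by
  intro E' hE' hex
  obtain ⟨y0, y1, hne, h⟩ := hex
  obtain ⟨E, hE, hnon, hsub⟩ := link hS hc hH hP hU hσ β m' hm3 hm hm5 (emp _) E'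
    (by simpa using hm2) hE' y0 y1 hne h
  have hE1 : InvEq c (fun _ : Unit => x) E := by
    refine ⟨hE.eqv, ?_, ?_⟩
    · intro y y' hy
      refine c.ofSub (hE.fib y y' hy) (fun o => o.elim none (fun u => some (Sum.inl u)))
        (by simp; omega) (by simp; omega) ?_ ?_
      · rintro (_ | i) <;> simp
      · rintro (_ | i) <;> simp
    · intro y y' z z' hr hy
      refine hE.inv y y' z z' ?_ hy
      refine c.ofSub hr (fun o => o.elim none (fun o => o.elim (some none)
        (fun s => s.elim (fun u => some (some u)) (fun e : Empty => e.elim))))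
        (by simp; omega) (by simp; omega) ?_ ?_
      · rintro (_ | _ | u | e)
        · simp
        · simp
        · simp
        · exact e.elim
      · rintro (_ | _ | u | e)
        · simp
        · simp
        · simp
        · exact e.elim
  have hall : ∀ z : {y : U // Quotient.mk S y = β}, E' y0 z := by
    intro z
    have h1 : S.r (y0 : U) (z : U) := Quotient.exact (y0.2.trans z.2.symm)
    have h2 := ((hSx _ _).1 h1).2 E hE1 hnon
    obtain ⟨hw, h3⟩ := hsub _ h2
    exact h3
  intro z z'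
  exact hE'.eqv.trans (hE'.eqv.symm (hall z)) (hall z')

end

end Pool.Agent.H1MS
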