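import Pool.Agent.H1MS.ClassScheme
import Pool.Agent.H1MS.Finest
import Pool.Agent.H1MS.CS

set_option autoImplicit false
set_option linter.unusedSectionVars false
set_option linter.unusedVariables false

/-!
The number of named colours of pairs between two classes inside a colour of the scheme is at
most two.
-/

namespace Pool.Agent.H1MS

variable {U : Type} {m : ℕ}

/-- Comparison of the numbers of values of two functions. -/
theorem ncard_image_le_of {α β γ δ : Type*} (f : α → γ) (g : β → δ) (A : Set α) (B : Set β)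
    (e : β → α) (hB : B.Finite) (hs : ∀ a ∈ A, ∃ b ∈ B, e b = a)
    (hfg : ∀ b ∈ B, ∀ b' ∈ B, g b = g b' → f (e b) = f (e b')) :
    (f '' A).ncard ≤ (g '' B).ncard := by
  classical
  have h1 : ∀ t ∈ f '' A, ∃ b, b ∈ B ∧ f (e b) = t := by
    rintro t ⟨a, ha, rfl⟩
    obtain ⟨b, hb, hab⟩ := hs a ha
    exact ⟨b, hb, by rw [hab]⟩
  by_cases hne : Nonempty β
  · choose! h hh using h1
    refine Set.ncard_le_ncard_of_injOn (fun t => g (h t)) ?_ ?_ (hB.image g)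
    · intro t ht
      exact ⟨h t, (hh t ht).1, rfl⟩
    · intro t ht t' ht' heq
      have h2 := hfg _ (hh t ht).1 _ (hh t' ht').1 heq
      rw [(hh t ht).2, (hh t' ht').2] at h2
      exact h2
  · have h2 : f '' A = ∅ := by
      rw [Set.eq_empty_iff_forall_notMem]
      intro t ht
      obtain ⟨b, -⟩ := h1 t ht
      exact hne ⟨b⟩
    rw [h2, Set.ncard_empty]
    exact Nat.zero_le _

theorem le_fin2 {m k : ℕ} (h : k + 2 ≤ m) : k + Nat.card (Fin 2) ≤ m := by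
  rw [Nat.card_eq_fintype_card, Fintype.card_fin]; exact h

section

variable [Finite U] {c : Sch U m} {x : U} {S : Setoid U} (hS : NData c x S)

include hS

theorem nmS_pc_iff (m' : ℕ) (hm2 : 2 ≤ m') (hm3 : 3 ≤ m)
    (hm : 2 * Nat.card (Quotient S) + m' + 1 ≤ m) (p p' : U × U) :
    pc (nmS hS m' hm3 hm) p.1 p.2 = pc (nmS hS m' hm3 hm) p'.1 p'.2 ↔
      tw c x S 1 ![p.1, p.2] ![p'.1, p'.2] :=
  pc_eq_iff (nmS hS m' hm3 hm) hm2

theorem named_diag (hhom : ∀ y z, S.r y z → tw c x S 1 (fun _ : Unit => y) (fun _ : Unit => z))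
    (m' : ℕ) (hm2 : 2 ≤ m') (hm3 : 3 ≤ m) (hm : 2 * Nat.card (Quotient S) + m' + 1 ≤ m)
    (p q : U) : pc (nmS hS m' hm3 hm) p p = pc (nmS hS m' hm3 hm) q q ↔ S.r q p := by
  have c2 : Nat.card (Fin 2) = 2 := by simp
  rw [nmS_pc_iff hS m' hm2 hm3 hm (p, p) (q, q)]
  constructor
  · intro h
    have h1 := tw_cls hS hm3 (le_fin2 (by omega)) h 0
    simp only [Matrix.cons_val_zero, Equiv.Perm.coe_one, id_eq] at h1
    exact Quotient.exact h1
  · intro h
    have h1 := hhom p q (Setoid.symm' S h)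
    refine tw_sub hS (by simp; omega) (le_fin2 (by omega)) h1 (fun _ => ()) ?_ ?_
    · intro k; fin_cases k <;> rfl
    · intro k; fin_cases k <;> rfl

theorem named_inner (hhom : ∀ y z, S.r y z → tw c x S 1 (fun _ : Unit => y) (fun _ : Unit => z))
    (m' : ℕ) (hm2 : 2 ≤ m') (hm3 : 3 ≤ m) (hm : 2 * Nat.card (Quotient S) + m' + 1 ≤ m)
    (hm7 : 2 * Nat.card (Quotient S) + 3 + 1 ≤ m) (y : U) :
    ((fun p : U × U => pc (nmS hS 3 hm3 hm7) p.1 p.2) '' {p | S.r y p.1 ∧ S.r y p.2}).ncard ≤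
      numJ (nmQ hS (Quotient.mk S y) m' hm3 hm) + 1 := by
  classical
  set f : U × U → Set (U × U) := fun p => pc (nmS hS 3 hm3 hm7) p.1 p.2 with hf
  have h1 : f '' {p | S.r y p.1 ∧ S.r y p.2} ⊆
      f '' {p | S.r y p.1 ∧ S.r y p.2 ∧ p.1 ≠ p.2} ∪ {f (y, y)} := by
    rintro t ⟨p, ⟨hp1, hp2⟩, rfl⟩
    by_cases hp : p.1 = p.2
    · right
      have h2 := (named_diag hS hhom 3 (by omega) hm3 hm7 p.1 y).2 hp1
      rw [Set.mem_singleton_iff]
      simp only [hf]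
      rw [← hp]
      exact h2
    · left
      exact ⟨p, ⟨hp1, hp2, hp⟩, rfl⟩
  have h2 := Set.ncard_le_ncard h1 ((Set.toFinite _).union (Set.finite_singleton _))
  have h3 := Set.ncard_union_le (f '' {p | S.r y p.1 ∧ S.r y p.2 ∧ p.1 ≠ p.2}) {f (y, y)}
  rw [Set.ncard_singleton] at h3
  have h4 : (f '' {p | S.r y p.1 ∧ S.r y p.2 ∧ p.1 ≠ p.2}).ncard ≤
      numJ (nmQ hS (Quotient.mk S y) m' hm3 hm) := by
    unfold numJ
    refine ncard_image_le_of f (fun p : {z : U // Quotient.mk S z = Quotient.mk S y} ×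
      {z : U // Quotient.mk S z = Quotient.mk S y} =>
        pc (nmQ hS (Quotient.mk S y) m' hm3 hm) p.1 p.2) _ _
      (fun p => ((p.1 : U), (p.2 : U))) (Set.toFinite _) ?_ ?_
    · rintro ⟨p1, p2⟩ ⟨hp1, hp2, hp⟩
      refine ⟨(⟨p1, Quotient.sound (Setoid.symm' S hp1)⟩,
        ⟨p2, Quotient.sound (Setoid.symm' S hp2)⟩), ?_, rfl⟩
      intro h
      exact hp (congrArg Subtype.val h)
    · rintro ⟨⟨p1, hp1⟩, ⟨p2, hp2⟩⟩ - ⟨⟨q1, hq1⟩, ⟨q2, hq2⟩⟩ - h
      have h5 := (pc_eq_iff (nmQ hS (Quotient.mk S y) m' hm3 hm) hm2).1 h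
      simp only [hf]
      rw [nmS_pc_iff hS 3 (by omega) hm3 hm7 (p1, p2) (q1, q2)]
      have h6 : tw c x S 1 (fun i => (((![⟨p1, hp1⟩, ⟨p2, hp2⟩] :
          Fin 2 → {z : U // Quotient.mk S z = Quotient.mk S y}) i : U)))
          (fun i => (((![⟨q1, hq1⟩, ⟨q2, hq2⟩] :
          Fin 2 → {z : U // Quotient.mk S z = Quotient.mk S y}) i : U))) := h5
      have c2 : Nat.card (Fin 2) = 2 := by simp
      refine tw_sub hS (le_fin2 (by omega)) (le_fin2 (by omega)) h6 id ?_ ?_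
      · intro k; fin_cases k <;> rfl
      · intro k; fin_cases k <;> rfl
  omega

theorem named_count
    (hc : HAN c) (hSx : ∀ y z, S.r y z ↔ Fx c x y z)
    (hhom : ∀ y z, S.r y z → tw c x S 1 (fun _ : Unit => y) (fun _ : Unit => z))
    (h3 : ∀ x y w w' : U, x ≠ y → w ≠ x → w' ≠ y → ∃ u, Fx c x w u ∧ Fx c y w' u)
    (m' : ℕ) (hm2 : 2 ≤ m') (hm3 : 3 ≤ m) (hm : 2 * Nat.card (Quotient S) + m' + 1 ≤ m)
    (hm7 : 2 * Nat.card (Quotient S) + 7 ≤ m) (y v : U) (hy : y ≠ x) (hv : v ≠ x)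
    (hyv : ¬ S.r y v)
    (hQ : numJ (nmQ hS (Quotient.mk S y) m' hm3 hm) ≤ numJ c)
    (hQ' : numJ (nmQ hS (Quotient.mk S v) m' hm3 hm) ≤ numJ c) (a b : U) (hab : a ≠ b) :
    ((fun p : U × U => pc (nmS hS 3 hm3 (by omega)) p.1 p.2) ''
      {p | S.r y p.1 ∧ S.r v p.2 ∧ c.r ![a, b] ![p.1, p.2]}).ncard ≤ 2 := by
  classical
  have : Fintype U := Fintype.ofFinite U
  have hm4 : 2 * Nat.card (Quotient S) + 3 + 1 ≤ m := by omega
  have c2 : Nat.card (Fin 2) = 2 := by simp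
  set f : U × U → Set (U × U) := fun p => pc (nmS hS 3 hm3 hm4) p.1 p.2 with hf
  set h : U × U → Set (U × U) := fun p => pc c p.1 p.2 with hh
  have hcs := cs_colours (pc (nmS hS 3 hm3 hm4)) (coh_pc _ (by omega)) y v
  have hset : ∀ q q' : U, {p : U × U | pc (nmS hS 3 hm3 hm4) p.1 p.1 =
      pc (nmS hS 3 hm3 hm4) q q ∧ pc (nmS hS 3 hm3 hm4) p.2 p.2 =
      pc (nmS hS 3 hm3 hm4) q' q'} = {p | S.r q p.1 ∧ S.r q' p.2} := by
    intro q q'
    ext p
    simp only [Set.mem_ofPred_eq]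
    rw [named_diag hS hhom 3 (by omega) hm3 hm4, named_diag hS hhom 3 (by omega) hm3 hm4]
  rw [hset y v, hset y y, hset v v] at hcs
  have hy1 := named_inner hS hhom m' hm2 hm3 hm hm4 y
  have hv1 := named_inner hS hhom m' hm2 hm3 hm hm4 v
  have hr : (f '' {p | S.r y p.1 ∧ S.r v p.2}).ncard ≤ numJ c + 1 := by
    by_contra hcon
    push Not at hcon
    have h5 := Nat.mul_le_mul (le_trans hy1 (Nat.add_le_add_right hQ 1))
      (le_trans hv1 (Nat.add_le_add_right hQ' 1))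
    have h6 := le_trans hcs h5
    have h7 := Nat.mul_lt_mul'' hcon hcon
    rw [pow_two] at h6
    exact absurd (lt_of_lt_of_le h7 h6) (lt_irrefl _)
  -- the colours of the two parts are different
  have hplain : ∀ p p' : U × U, f p = f p' → c.r ![p.1, p.2] ![p'.1, p'.2] := by
    intro p p' hpp
    exact tw_plain hS (le_fin2 (by omega)) ((nmS_pc_iff hS 3 (by omega) hm3 hm4 p p').1 hpp)
  have hdis : Disjoint (f '' {p | S.r y p.1 ∧ S.r v p.2 ∧ c.r ![a, b] ![p.1, p.2]})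
      (f '' {p | S.r y p.1 ∧ S.r v p.2 ∧ ¬ c.r ![a, b] ![p.1, p.2]}) := by
    rw [Set.disjoint_left]
    rintro t ⟨p, ⟨-, -, hp⟩, rfl⟩ ⟨p', ⟨-, -, hp'⟩, hpp⟩
    exact hp' (c.trans' (by simp; omega) hp (hplain _ _ hpp.symm))
  have hsub : f '' {p | S.r y p.1 ∧ S.r v p.2 ∧ c.r ![a, b] ![p.1, p.2]} ∪
      f '' {p | S.r y p.1 ∧ S.r v p.2 ∧ ¬ c.r ![a, b] ![p.1, p.2]} ⊆
      f '' {p | S.r y p.1 ∧ S.r v p.2} := by
    rintro t (⟨p, ⟨h1, h2, -⟩, rfl⟩ | ⟨p, ⟨h1, h2, -⟩, rfl⟩)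
    · exact ⟨p, ⟨h1, h2⟩, rfl⟩
    · exact ⟨p, ⟨h1, h2⟩, rfl⟩
  have h8 := Set.ncard_le_ncard hsub (Set.toFinite _)
  rw [Set.ncard_union_eq hdis (Set.toFinite _) (Set.toFinite _)] at h8
  -- every other colour occurs
  have h9 : (h '' {p | S.r y p.1 ∧ S.r v p.2 ∧ ¬ c.r ![a, b] ![p.1, p.2]}).ncard ≤
      (f '' {p | S.r y p.1 ∧ S.r v p.2 ∧ ¬ c.r ![a, b] ![p.1, p.2]}).ncard := by
    refine ncard_image_le_of h f _ _ id (Set.toFinite _) (fun a ha => ⟨a, ha, rfl⟩) ?_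
    intro p _ p' _ hpp
    exact (pc_eq_iff c (by omega)).2 (hplain p p' hpp)
  have h10 : h '' {p | p.1 ≠ p.2} ⊆
      h '' {p | S.r y p.1 ∧ S.r v p.2 ∧ ¬ c.r ![a, b] ![p.1, p.2]} ∪ {h (a, b)} := by
    rintro t ⟨⟨a', b'⟩, hab', rfl⟩
    by_cases hcase : c.r ![a, b] ![a', b']
    · right
      rw [Set.mem_singleton_iff]
      exact ((pc_eq_iff c (by omega)).2 hcase).symm
    · left
      obtain ⟨w', hw'⟩ := c.ext1 (by simp; omega) (hc.hom a' y) b'
      have hw2 : w' ≠ y := by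
        intro heq
        apply hab'
        have h11 := (c.inj_iff (by simp; omega) hw' none (some ())).2 (by simpa using heq)
        simpa using h11.symm
      obtain ⟨u, hu1, hu2⟩ := h3 x y v w' hy.symm hv hw2
      have h12 : c.r ![a', b'] ![y, u] := by
        have h13 := c.trans' (by simp; omega) hw' hu2.1
        exact c.pairU_of (by omega) h13
      refine ⟨(y, u), ⟨Setoid.refl' S y, (hSx v u).2 hu1, ?_⟩, ?_⟩
      · intro h14
        exact hcase (c.trans' (by simp; omega) h14 (c.symm' (by simp; omega) h12))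
      · exact ((pc_eq_iff c (by omega)).2 h12).symm
  have h15 := Set.ncard_le_ncard h10 (Set.toFinite _)
  have h16 := Set.ncard_union_le
    (h '' {p | S.r y p.1 ∧ S.r v p.2 ∧ ¬ c.r ![a, b] ![p.1, p.2]}) {h (a, b)}
  rw [Set.ncard_singleton] at h16
  have h17 : numJ c = (h '' {p | p.1 ≠ p.2}).ncard := rfl
  omega

end

end Pool.Agent.H1MS
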