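import Mathlib

set_option autoImplicit false

/-!
The counting trick of step 6: a fixed point free permutation of order three and a partition into
parts of size at most two which meets its rotate in every possible way cannot exist.
-/

namespace Pool.Agent.H1MS

theorem three_dvd_card {Ω : Type} [Finite Ω] (ρ : Ω → Ω) (h3 : ∀ w, ρ (ρ (ρ w)) = w)
    (hfix : ∀ w, ρ w ≠ w) : 3 ∣ Nat.card Ω := by
  classical
  have : Fintype Ω := Fintype.ofFinite Ω
  have hp : Fact (Nat.Prime 3) := ⟨Nat.prime_three⟩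
  have h := Equiv.Perm.card_fixedPoints_modEq (f := (ρ : Function.End Ω)) (p := 3) (n := 1)
    (by funext w; exact h3 w)
  have h0 : Fintype.card (Function.fixedPoints ρ) = 0 := by
    rw [Fintype.card_eq_zero_iff]
    exact ⟨fun w => hfix w.1 w.2⟩
  rw [h0] at h
  rw [Nat.card_eq_fintype_card]
  exact (Nat.modEq_zero_iff_dvd).mp h

theorem omega_contra {Ω T : Type} [Finite Ω] [Nonempty Ω] (S : Ω → T) (ρ : Ω → Ω)
    (h3 : ∀ w, ρ (ρ (ρ w)) = w) (hfix : ∀ w, ρ w ≠ w)
    (hS : ∀ w, {w' | S w' = S w}.ncard ≤ 2)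
    (hmeet : ∀ w1 w2, ∃ w, S w = S w1 ∧ S (ρ w) = S (ρ w2)) : False := by
  classical
  have hd := three_dvd_card ρ h3 hfix
  obtain ⟨w0⟩ := ‹Nonempty Ω›
  -- number of parts
  have hfin : (Set.range S).Finite := Set.finite_range S
  have hρ : Function.Surjective ρ := fun w => ⟨ρ (ρ w), h3 w⟩
  have hp : ∀ w, (Set.range S).ncard ≤ {w' | S w' = S w}.ncard := by
    intro w
    have hsub : Set.range S ⊆ (fun w' => S (ρ w')) '' {w' | S w' = S w} := by
      rintro _ ⟨v, rfl⟩
      obtain ⟨u, rfl⟩ := hρ v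
      obtain ⟨w', h1, h2⟩ := hmeet w u
      exact ⟨w', h1, h2⟩
    exact (Set.ncard_le_ncard hsub (Set.toFinite _)).trans (Set.ncard_image_le (Set.toFinite _))
  have hp2 : (Set.range S).ncard ≤ 2 := (hp w0).trans (hS w0)
  have hcard : Nat.card Ω = ∑ t ∈ hfin.toFinset, {w | S w = t}.ncard := by
    have : Fintype Ω := Fintype.ofFinite Ω
    rw [Nat.card_eq_fintype_card, ← Finset.card_univ]
    rw [Finset.card_eq_sum_card_fiberwise (f := S) (t := hfin.toFinset)
      (fun w _ => by simp)]
    refine Finset.sum_congr rfl fun t _ => ?_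
    rw [← Set.ncard_coe_finset]
    congr 1
    ext w
    simp
  have hup : Nat.card Ω ≤ (Set.range S).ncard * 2 := by
    rw [hcard, Set.ncard_eq_toFinset_card _ hfin]
    refine Finset.sum_le_card_nsmul _ _ 2 ?_
    intro t ht
    rw [Set.Finite.mem_toFinset] at ht
    obtain ⟨w, rfl⟩ := ht
    exact hS w
  have hlo : (Set.range S).ncard * (Set.range S).ncard ≤ Nat.card Ω := by
    rw [hcard, Set.ncard_eq_toFinset_card _ hfin]
    have := Finset.card_nsmul_le_sum hfin.toFinset (fun t => {w | S w = t}.ncard)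
      (Set.range S).ncard (by
        intro t ht
        rw [Set.Finite.mem_toFinset] at ht
        obtain ⟨w, rfl⟩ := ht
        exact hp w)
    rw [Set.ncard_eq_toFinset_card _ hfin] at this
    simpa using this
  have hpos : 0 < Nat.card Ω := by
    have : Nonempty Ω := ⟨w0⟩
    exact Nat.card_pos
  obtain ⟨q, hq⟩ := hd
  interval_cases h : (Set.range S).ncard <;> omega

end Pool.Agent.H1MS
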