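import Pool.Agent.H1MS.Finest
import Pool.Agent.H1MS.Omega

set_option autoImplicit false

/-!
The counting contradiction of step 6 for schemes: the colours of the triangles of one colour.
-/

namespace Pool.Agent.H1MS

variable {U : Type} {m : ℕ}

namespace OmS

variable (c : Sch U m)

/-- pairs of colour `(x, y)` -/
def II (x y a b : U) : Prop := c.r ![x, y] ![a, b]

/-- triangles of colour `(x, y)` -/
abbrev Tr (x y : U) : Type :=
  {t : U × U × U // II c x y t.1 t.2.1 ∧ II c x y t.2.1 t.2.2 ∧ II c x y t.2.2 t.1}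

/-- the tuple of a triangle -/
def tup (t : U × U × U) : Fin 3 → U := ![t.1, t.2.1, t.2.2]

variable {c}

theorem II.ne {x y a b : U} (hm : 5 ≤ m) (hxy : x ≠ y) (h : II c x y a b) : a ≠ b := by
  intro hab
  apply hxy
  have := (c.inj_iff (by simp; omega) h 0 1).2 (by simpa using hab)
  simpa using this

theorem fx_pair {x q a : U} (hm : 5 ≤ m) (h : Fx c x q a) : c.r ![x, q] ![x, a] :=
  c.pairU_of (by omega) h.1

theorem ext_two {a b d a' b' d' u u' : U} (hm : 5 ≤ m) (h : c.r ![a, b, d] ![a', b', d']) :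
    ∃ v v', c.r ![a, b, u] ![a', b', v] ∧ c.r ![a, d, u'] ![a', d', v'] ∧
      c.r ![a, u, u'] ![a', v, v'] := by
  obtain ⟨v, hv⟩ := c.ext1 (by simp; omega) h u
  obtain ⟨v', hv'⟩ := c.ext1 (by simp; omega) hv u'
  have c5 : Nat.card (Option (Option (Fin 3))) ≤ m := by simp; omega
  have c3 : Nat.card (Fin 3) ≤ m := by simp; omega
  refine ⟨v, v', ?_, ?_, ?_⟩
  · refine c.ofSub hv' (![some (some 0), some (some 1), some none] : Fin 3 → Option (Option (Fin 3)))
      c5 c3 ?_ ?_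
    · intro k; fin_cases k <;> simp
    · intro k; fin_cases k <;> simp
  · refine c.ofSub hv' (![some (some 0), some (some 2), none] : Fin 3 → Option (Option (Fin 3)))
      c5 c3 ?_ ?_
    · intro k; fin_cases k <;> simp
    · intro k; fin_cases k <;> simp
  · refine c.ofSub hv' (![some (some 0), some none, none] : Fin 3 → Option (Option (Fin 3)))
      c5 c3 ?_ ?_
    · intro k; fin_cases k <;> simp
    · intro k; fin_cases k <;> simp

/-- the same colour up to the finest equivalence relations over the first point -/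
def R2 (c : Sch U m) (t t' : U × U × U) : Prop :=
  ∃ q v, c.r (tup t) ![t'.1, q, v] ∧ Fx c t'.1 q t'.2.1 ∧ Fx c t'.1 v t'.2.2

theorem R2.of_r (hc : HAN c) (hm : 5 ≤ m) {t t' : U × U × U} (h : c.r (tup t) (tup t')) :
    R2 c t t' :=
  ⟨t'.2.1, t'.2.2, h, (fx_inv c _ (by omega) hc).eqv.refl _, (fx_inv c _ (by omega) hc).eqv.refl _⟩

theorem R2.symm (hc : HAN c) (hm : 5 ≤ m) {t t' : U × U × U} (h : R2 c t t') : R2 c t' t := by
  obtain ⟨q, v, h1, h2, h3⟩ := h
  have c3 : Nat.card (Fin 3) ≤ m := by simp; omega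
  obtain ⟨a, b, h4, h5, h6⟩ := ext_two (u := t'.2.1) (u' := t'.2.2) hm (c.symm' c3 h1)
  refine ⟨a, b, h6, ?_, ?_⟩
  · exact (fx_inv c _ (by omega) hc).eqv.symm (fx_cross c (by omega) h4 h2)
  · exact (fx_inv c _ (by omega) hc).eqv.symm (fx_cross c (by omega) h5 h3)

theorem R2.trans (hc : HAN c) (hm : 5 ≤ m) {t t' t'' : U × U × U} (h : R2 c t t')
    (h' : R2 c t' t'') : R2 c t t'' := by
  obtain ⟨a, b, h1, h2, h3⟩ := h
  obtain ⟨a', b', h4, h5, h6⟩ := h'
  have c3 : Nat.card (Fin 3) ≤ m := by simp; omega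
  obtain ⟨a2, b2, h7, h8, h9⟩ := ext_two (u := a) (u' := b) hm h4
  have e := (fx_inv c t''.1 (by omega) hc).eqv
  have e' := (fx_inv c t'.1 (by omega) hc).eqv
  refine ⟨a2, b2, c.trans' c3 h1 h9, ?_, ?_⟩
  · exact e.trans (e.symm (fx_cross c (by omega) h7 (e'.symm h2))) h5
  · exact e.trans (e.symm (fx_cross c (by omega) h8 (e'.symm h3))) h6

/-- the colours of the triangles -/
def sR (c : Sch U m) (x y : U) (hm : 5 ≤ m) : Setoid (Tr c x y) where
  r t t' := c.r (tup t.1) (tup t'.1)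
  iseqv := ⟨fun t => c.rfl' _ (by simp; omega), fun h => c.symm' (by simp; omega) h,
    fun h h' => c.trans' (by simp; omega) h h'⟩

/-- the parts -/
def sP (c : Sch U m) (x y : U) (hc : HAN c) (hm : 5 ≤ m) : Setoid (Tr c x y) where
  r t t' := R2 c t.1 t'.1
  iseqv := ⟨fun t => R2.of_r hc hm (c.rfl' _ (by simp; omega)), fun h => R2.symm hc hm h,
    fun h h' => R2.trans hc hm h h'⟩

/-- rotation of a triangle -/
def rotT {x y : U} (t : Tr c x y) : Tr c x y := ⟨(t.1.2.1, t.1.2.2, t.1.1), t.2.2.1, t.2.2.2, t.2.1⟩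

end OmS

open OmS

theorem omega_scheme [Finite U] {c : Sch U m} (hc : HAN c) (hm : 5 ≤ m) {x y : U} (hxy : x ≠ y)
    (h3 : ∀ x y w w' : U, x ≠ y → w ≠ x → w' ≠ y → ∃ u, Fx c x w u ∧ Fx c y w' u)
    {C : Type} (κ : U → U → C)
    (hκ : ∀ y v y' v', κ y v = κ y' v' → c.r ![x, y, v] ![x, y', v'])
    (h2 : ∀ q v, c.r ![x, y] ![x, q] → c.r ![x, y] ![q, v] → c.r ![x, y] ![v, x] →
      ((fun p : U × U => κ p.1 p.2) ''
        {p | Fx c x q p.1 ∧ Fx c x v p.2 ∧ c.r ![x, y] ![p.1, p.2]}).ncard ≤ 2) : False := by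
  classical
  have c3 : Nat.card (Fin 3) ≤ m := by simp; omega
  have c2 : Nat.card (Fin 2) ≤ m := by simp; omega
  have c1 : Nat.card Unit + 1 ≤ m := by simp; omega
  let Ω := Quotient (sR c x y hm)
  let S : Ω → Quotient (sP c x y hc hm) :=
    Quotient.map id (fun t t' h => R2.of_r hc hm h)
  let ρ : Ω → Ω := Quotient.map rotT (fun t t' h => c.rot3 (by omega) h)
  -- the first two points can be `x` and `y`
  have hrep : ∀ w : Ω, ∃ (v : U) (h : II c x y x y ∧ II c x y y v ∧ II c x y v x),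
      w = Quotient.mk (sR c x y hm) ⟨(x, y, v), h⟩ := by
    intro w
    obtain ⟨t, rfl⟩ := Quotient.exists_rep w
    obtain ⟨⟨a, b, d⟩, hab, hbd, hda⟩ := t
    simp only at hab hbd hda
    obtain ⟨v, hv⟩ := c.ext1 (by simp; omega) (c.symm' c2 hab) d
    have h4 : c.r ![a, b, d] ![x, y, v] := by
      refine c.ofSub hv (![some 0, some 1, none] : Fin 3 → Option (Fin 2)) (by simp; omega) c3 ?_ ?_
      · intro k; fin_cases k <;> simp
      · intro k; fin_cases k <;> simp
    have h5 := c.sub3 (by omega) h4 1 2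
    have h6 := c.sub3 (by omega) h4 2 0
    simp at h5 h6
    refine ⟨v, ⟨c.rfl' _ c2, c.trans' c2 hbd h5, c.trans' c2 hda h6⟩, ?_⟩
    exact Quotient.sound h4
  have hx1 : ∀ a b : U, c.r (fun _ : Unit => a) (fun _ : Unit => b) := hc.hom
  -- nonempty
  have hne : Nonempty Ω := by
    obtain ⟨w', hw'⟩ := c.ext1 c1 (hx1 x y) y
    obtain ⟨w, hw⟩ := c.ext1 c1 (hx1 y x) x
    have e1 : II c x y y w' := c.pairU_of (by omega) hw'
    have e2 : II c x y w x := c.swap2 (by omega) (c.pairU_of (by omega) hw)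
    obtain ⟨u, hu, hu'⟩ := h3 x y w w' hxy (e2.ne hm hxy) (Ne.symm (e1.ne hm hxy))
    have e3 : II c x y y u := c.trans' c2 e1 (fx_pair hm hu')
    have e4 : II c x y u x := c.trans' c2 e2 (c.swap2 (by omega) (fx_pair hm hu))
    exact ⟨Quotient.mk _ ⟨(x, y, u), c.rfl' _ c2, e3, e4⟩⟩
  have hfin : Finite Ω := Quotient.finite _
  refine omega_contra S ρ ?_ ?_ ?_ ?_
  · intro w
    obtain ⟨t, rfl⟩ := Quotient.exists_rep w
    rfl
  · intro w
    obtain ⟨t, rfl⟩ := Quotient.exists_rep w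
    intro h
    have h4 : c.r (tup (rotT t).1) (tup t.1) := Quotient.exact h
    obtain ⟨⟨a, b, d⟩, hab, hbd, hda⟩ := t
    simp only at hab hbd hda
    have hinj : Function.Injective (![a, b, d] : Fin 3 → U) := by
      have n1 := hab.ne hm hxy
      have n2 := hbd.ne hm hxy
      have n3 := hda.ne hm hxy
      intro i j hij
      fin_cases i <;> fin_cases j
      all_goals first
        | rfl
        | exact (n1 hij).elim
        | exact (n2 hij).elim
        | exact (n3 hij).elim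
        | exact (n1 hij.symm).elim
        | exact (n2 hij.symm).elim
        | exact (n3 hij.symm).elim
    have h5 : c.r (![a, b, d] : Fin 3 → U) ((![a, b, d] : Fin 3 → U) ∘ (finRotate 3)) := by
      have e : (![a, b, d] : Fin 3 → U) ∘ (finRotate 3) = ![b, d, a] := by
        funext k
        fin_cases k <;> rfl
      rw [e]
      exact c.symm' c3 h4
    have h6 := hc.anti _ _ c3 hinj h5
    have h7 := congrArg (fun s : Equiv.Perm (Fin 3) => s 0) h6
    revert h7
    decide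
  · intro w
    obtain ⟨v, hv, rfl⟩ := hrep w
    have key : ∀ w' ∈ {w' : Ω | S w' = S (Quotient.mk (sR c x y hm) ⟨(x, y, v), hv⟩)},
        ∃ p : U × U, (Fx c x y p.1 ∧ Fx c x v p.2 ∧ c.r ![x, y] ![p.1, p.2]) ∧
          ∃ t : Tr c x y, w' = Quotient.mk _ t ∧ c.r (tup t.1) ![x, p.1, p.2] := by
      intro w' hw'
      obtain ⟨t, rfl⟩ := Quotient.exists_rep w'
      obtain ⟨q, v', h4, h5, h6⟩ : R2 c t.1 (x, y, v) := Quotient.exact hw'
      have e := (fx_inv c x (by omega) hc).eqv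
      refine ⟨(q, v'), ⟨e.symm h5, e.symm h6, ?_⟩, t, rfl, h4⟩
      have h7 := c.sub3 (by omega) h4 1 2
      simp at h7
      exact c.trans' c2 t.2.2.1 h7
    have : Nonempty U := ⟨x⟩
    choose! f hf g hg using key
    have hsub := h2 y v (c.rfl' _ c2) hv.2.1 hv.2.2
    refine le_trans (Set.ncard_le_ncard_of_injOn (fun w' => κ (f w').1 (f w').2) ?_ ?_
      (Set.toFinite _)) hsub
    · intro w' hw'
      exact ⟨f w', hf w' hw', rfl⟩
    · intro w1 hw1 w2 hw2 h8
      have h9 := hκ _ _ _ _ h8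
      obtain ⟨e1, e2⟩ := hg w1 hw1
      obtain ⟨e3, e4⟩ := hg w2 hw2
      rw [e1, e3]
      exact Quotient.sound (c.trans' c3 e2 (c.trans' c3 h9 (c.symm' c3 e4)))
  · intro w1 w2
    obtain ⟨v1, hv1, rfl⟩ := hrep w1
    obtain ⟨v2, hv2, rfl⟩ := hrep w2
    obtain ⟨v, h4, h5⟩ := h3 x y v1 v2 hxy (II.ne hm hxy hv1.2.2) (Ne.symm (II.ne hm hxy hv2.2.1))
    have e3 : II c x y y v := c.trans' c2 hv2.2.1 (fx_pair hm h5)
    have e4 : II c x y v x := c.trans' c2 hv1.2.2 (c.swap2 (by omega) (fx_pair hm h4))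
    have ex := (fx_inv c x (by omega) hc).eqv
    have ey := (fx_inv c y (by omega) hc).eqv
    refine ⟨Quotient.mk _ ⟨(x, y, v), c.rfl' _ c2, e3, e4⟩, ?_, ?_⟩
    · refine Quotient.sound ?_
      exact ⟨y, v, c.rfl' _ c3, ex.refl _, ex.symm h4⟩
    · refine Quotient.sound ?_
      exact ⟨v, x, c.rfl' _ c3, ey.symm h5, ey.refl _⟩

end Pool.Agent.H1MS
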