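import Pool.Agent.H1MS.Basic
import Pool.Agent.H1MS.Finest

set_option autoImplicit false

/-!
The 3-amalgamation property of primitive schemes with large classes.
-/

namespace Pool.Agent.H1MS

open Matrix

namespace TA_

section quad
variable {U : Type} [Fintype U]

open Classical in
/-- the quadratic form of an equivalence relation -/
theorem quad_eq (s : Setoid U) (g : U → ℝ) :
    ∑ z, ∑ z', (if s.r z z' then g z * g z' else 0) =
      ∑ q : Quotient s, (∑ z, if Quotient.mk s z = q then g z else 0) ^ 2 := by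
  have h : ∀ q : Quotient s, (∑ z, if Quotient.mk s z = q then g z else 0) ^ 2 =
      ∑ z, ∑ z', if Quotient.mk s z = q ∧ Quotient.mk s z' = q then g z * g z' else 0 := by
    intro q
    rw [sq, Finset.sum_mul_sum]
    refine Finset.sum_congr rfl fun z _ => Finset.sum_congr rfl fun z' _ => ?_
    by_cases h1 : Quotient.mk s z = q <;> by_cases h2 : Quotient.mk s z' = q <;> simp [h1, h2]
  have h0 : ∑ q : Quotient s, (∑ z, if Quotient.mk s z = q then g z else 0) ^ 2 =
      ∑ z, ∑ z', ∑ q : Quotient s,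
        if Quotient.mk s z = q ∧ Quotient.mk s z' = q then g z * g z' else 0 := by
    rw [Finset.sum_congr rfl fun q _ => h q, Finset.sum_comm]
    refine Finset.sum_congr rfl fun z _ => ?_
    rw [Finset.sum_comm]
  rw [h0]
  refine Finset.sum_congr rfl fun z _ => Finset.sum_congr rfl fun z' _ => ?_
  rw [Finset.sum_eq_single (Quotient.mk s z)]
  · by_cases h1 : s.r z z'
    · have h2 : Quotient.mk s z' = Quotient.mk s z := (Quotient.sound h1).symm
      rw [if_pos h1, if_pos ⟨rfl, h2⟩]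
    · have h2 : ¬ (Quotient.mk s z' = Quotient.mk s z) := fun h3 => h1 (Quotient.exact h3.symm)
      rw [if_neg h1, if_neg (fun h3 => h2 h3.2)]
  · intro q _ hq
    rw [if_neg (fun h3 => hq h3.1.symm)]
  · intro h3
    exact absurd (Finset.mem_univ _) h3

open Classical in
theorem ta_quad_nonneg (s : Setoid U) (g : U → ℝ) :
    0 ≤ ∑ z, ∑ z', (if s.r z z' then g z * g z' else 0) := by
  rw [quad_eq]
  exact Finset.sum_nonneg fun q _ => sq_nonneg _

open Classical in
theorem quad_class (s : Setoid U) (g : U → ℝ) (w : U) :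
    (∑ z, if s.r w z then g z else 0) ^ 2 ≤
      ∑ z, ∑ z', (if s.r z z' then g z * g z' else 0) := by
  rw [quad_eq]
  have h1 : (∑ z, if s.r w z then g z else 0) =
      ∑ z, if Quotient.mk s z = Quotient.mk s w then g z else 0 := by
    refine Finset.sum_congr rfl fun z _ => ?_
    by_cases h : s.r w z
    · rw [if_pos h, if_pos (Quotient.sound h).symm]
    · rw [if_neg h, if_neg (fun h2 => h (Quotient.exact h2.symm))]
  rw [h1]
  exact Finset.single_le_sum (f := fun q : Quotient s =>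
    (∑ z, if Quotient.mk s z = q then g z else 0) ^ 2) (fun q _ => sq_nonneg _)
    (Finset.mem_univ (Quotient.mk s w))

end quad

section scheme
variable {U : Type} {m : ℕ} (c : Sch U m)

theorem homEmp (hm : 1 ≤ m) (hc : HAN c) (y y' : U) : c.r (sn (emp U) y) (sn (emp U) y') := by
  refine c.ofSub (hc.hom y y') (fun _ => ()) (by simpa using hm) (by simpa using hm) ?_ ?_
  · rintro (_ | i)
    · rfl
    · exact i.elim
  · rintro (_ | i)
    · rfl
    · exact i.elim

theorem homDiag (hm : 2 ≤ m) (hc : HAN c) (y y' : U) : c.r ![y, y] ![y', y'] := by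
  refine c.ofSub (hc.hom y y') (fun _ => ()) (by simp; omega) (by simpa using hm) ?_ ?_
  · intro k; fin_cases k <;> rfl
  · intro k; fin_cases k <;> rfl

/-- the fibre relation over a point -/
theorem ta_fib_inv (hm : 3 ≤ m) (x : U) : InvEq c (fun _ : Unit => x)
    (fun y y' => c.r (sn (fun _ : Unit => x) y) (sn (fun _ : Unit => x) y')) := by
  have h2 : Nat.card (Option Unit) ≤ m := by simp; omega
  have h3 : Nat.card (Option (Option Unit)) ≤ m := by simp; omega
  refine ⟨⟨fun y => c.rfl' _ h2, fun h => c.symm' h2 h, fun h h' => c.trans' h2 h h'⟩,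
    fun y y' h => h, ?_⟩
  intro y y' z z' h hE
  have e1 : c.r (sn (fun _ : Unit => x) y) (sn (fun _ : Unit => x) z) := by
    refine c.ofSub h (fun o => some o) h3 h2 ?_ ?_
    · rintro (_ | i) <;> rfl
    · rintro (_ | i) <;> rfl
  have e2 : c.r (sn (fun _ : Unit => x) y') (sn (fun _ : Unit => x) z') := by
    refine c.ofSub h (fun o => o.elim none (fun i => some (some i))) h3 h2 ?_ ?_
    · rintro (_ | i) <;> rfl
    · rintro (_ | i) <;> rfl
  exact c.trans' h2 (c.symm' h2 e1) (c.trans' h2 hE e2)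

/-- the fibres over a point are large -/
theorem fib_card (hm : 3 ≤ m) (hc : HAN c) {σ : ℕ → ℕ} (hH : Hyp c σ) {x y : U} (hxy : x ≠ y) :
    σ 1 ≤ {z | c.r ![x, y] ![x, z]}.ncard := by
  have h2 : Nat.card (Option Unit) ≤ m := by simp; omega
  have hN : Nat.card (Option Empty) = 1 := by simp
  obtain ⟨y'', h3, h4⟩ := hc.nm (emp U) x y (by simp; omega) hxy (homEmp c (by omega) hc x y)
  have h5 : c.r (sn (fun _ : Unit => x) y) (sn (fun _ : Unit => x) y'') :=
    c.pairU_to (by omega) (c.pair_of (by omega) h4)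
  have h6 := hH (fun _ : Unit => x) _ (by simp; omega) (ta_fib_inv c hm x) y y'' (Ne.symm h3) h5
  have h7 : {z | c.r (sn (fun _ : Unit => x) y) (sn (fun _ : Unit => x) z)} =
      {z | c.r ![x, y] ![x, z]} := by
    ext z
    exact ⟨fun h => c.pairU_of (by omega) h, fun h => c.pairU_to (by omega) h⟩
  rw [h7] at h6
  simpa using h6

/-- there are at most `B + 1` colours of pairs -/
theorem colours_le [Finite U] (hm : 3 ≤ m) (hc : HAN c) {σ : ℕ → ℕ} {B : ℕ} (hH : Hyp c σ)
    (hB : Nat.card U ≤ B * σ 1) (hσ : 0 < σ 1) (x : U) :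
    (Set.range (fun p : U × U => pc c p.1 p.2)).ncard ≤ B + 1 := by
  classical
  have : Fintype U := Fintype.ofFinite U
  have hm2 : 2 ≤ m := by omega
  -- every colour occurs over `x`
  have h1 : Set.range (fun p : U × U => pc c p.1 p.2) = Set.range (fun z => pc c x z) := by
    ext k
    constructor
    · rintro ⟨⟨y, y'⟩, rfl⟩
      have e1 : c.r (fun _ : Unit => y) (fun _ : Unit => x) := hc.hom y x
      obtain ⟨z, hz⟩ := c.ext1 (by simp; omega) e1 y'
      exact ⟨z, ((pc_eq_iff c hm2).2 (c.pairU_of hm2 hz)).symm⟩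
    · rintro ⟨z, rfl⟩
      exact ⟨(x, z), rfl⟩
  rw [h1]
  set F : Finset (Set (U × U)) := Finset.univ.image (fun z => pc c x z) with hF
  have h2 : Set.range (fun z => pc c x z) = (F : Set (Set (U × U))) := by
    rw [hF, Finset.coe_image, Finset.coe_univ, Set.image_univ]
  rw [h2, Set.ncard_coe_finset]
  have h3 : (F.erase (pc c x x)).card * σ 1 ≤ Fintype.card U := by
    rw [← Finset.card_univ]
    have h4 := Finset.card_eq_sum_card_image (fun z => pc c x z) (Finset.univ : Finset U)
    rw [h4, ← hF]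
    calc (F.erase (pc c x x)).card * σ 1 = ∑ _k ∈ F.erase (pc c x x), σ 1 := by
          rw [Finset.sum_const, smul_eq_mul]
      _ ≤ ∑ k ∈ F.erase (pc c x x), (Finset.univ.filter (fun z => pc c x z = k)).card := by
          refine Finset.sum_le_sum fun k hk => ?_
          obtain ⟨hk1, hk2⟩ := Finset.mem_erase.1 hk
          rw [hF, Finset.mem_image] at hk2
          obtain ⟨y, _, rfl⟩ := hk2
          have hxy : x ≠ y := by
            rintro rfl
            exact hk1 rfl
          refine le_trans (fib_card c hm hc hH hxy) ?_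
          rw [← Set.ncard_coe_finset]
          refine Set.ncard_le_ncard ?_ (Set.toFinite _)
          intro z hz
          simp only [Finset.coe_filter, Finset.mem_univ, true_and, Set.mem_ofPred_eq]
          exact ((pc_eq_iff c hm2).2 hz).symm
      _ ≤ ∑ k ∈ F, (Finset.univ.filter (fun z => pc c x z = k)).card :=
          Finset.sum_le_sum_of_subset (Finset.erase_subset _ _)
  have h5 : (F.erase (pc c x x)).card ≤ B := by
    rw [Nat.card_eq_fintype_card] at hB
    exact Nat.le_of_mul_le_mul_right (h3.trans hB) hσ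
  have h6 : F.card - 1 ≤ (F.erase (pc c x x)).card := Finset.pred_card_le_card_erase
  omega

theorem prim_colour (hm : 3 ≤ m) (hc : HAN c) (hp : Prim c) (E : U → U → Prop)
    (hE : Equivalence E) (hinv : ∀ y y' z z', pc c y y' = pc c z z' → E y y' → E z z')
    (hn : ∃ y y', y ≠ y' ∧ E y y') : ∀ z z', E z z' := by
  refine hp E ⟨hE, fun y y' _ => homEmp c (by omega) hc y y', ?_⟩ hn
  intro y y' z z' h hy
  exact hinv y y' z z' ((pc_eq_iff c (by omega)).2 (c.pair_of (by omega) h)) hy

end scheme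

end TA_

open TA_

/-- the matrix which counts the points `x` with `Fx c x z z'` -/
noncomputable def GG {U : Type} {m : ℕ} [Fintype U] (c : Sch U m) : Matrix U U ℝ :=
  open Classical in fun z z' => ∑ x, if Fx c x z z' then (1 : ℝ) else 0

namespace TA_

variable {U : Type} {m : ℕ} [Fintype U] (c : Sch U m)

theorem gg_cc (hm4 : 4 ≤ m) : CC (pc c) (GG c) := by
  classical
  have hm : 3 ≤ m := by omega
  intro y y' z z' h
  rw [pc_eq_iff c (by omega)] at h
  obtain ⟨π, hπ⟩ := c.ext2 hm h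
  unfold GG
  refine Fintype.sum_equiv π _ _ (fun u => ?_)
  have h1 : c.r ![u, y, y'] ![π u, z, z'] := c.rot3 hm (c.rot3 hm (hπ u))
  have h2 : c.r ![π u, z, z'] ![u, y, y'] := c.symm' (by simpa using hm) h1
  by_cases h3 : Fx c u y y'
  · rw [if_pos h3, if_pos (fx_cross c hm4 h1 h3)]
  · rw [if_neg h3, if_neg (fun h4 => h3 (fx_cross c hm4 h2 h4))]

/-- the setoid of the finest relation -/
def fs (hm : 3 ≤ m) (hc : HAN c) (x : U) : Setoid U := ⟨Fx c x, (fx_inv c x hm hc).eqv⟩

open Classical in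
theorem gg_quad (hm : 3 ≤ m) (hc : HAN c) (g : U → ℝ) :
    g ⬝ᵥ (GG c *ᵥ g) =
      ∑ x, ∑ z, ∑ z', (if (fs c hm hc x).r z z' then g z * g z' else 0) := by
  have h : g ⬝ᵥ (GG c *ᵥ g) = ∑ z, ∑ z', ∑ x, (if (fs c hm hc x).r z z' then g z * g z' else 0) := by
    unfold dotProduct
    refine Finset.sum_congr rfl fun z _ => ?_
    rw [mulVec, dotProduct, Finset.mul_sum]
    refine Finset.sum_congr rfl fun z' _ => ?_
    unfold GG
    rw [Finset.sum_mul, Finset.mul_sum]
    refine Finset.sum_congr rfl fun x _ => ?_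
    have : (fs c hm hc x).r z z' ↔ Fx c x z z' := Iff.rfl
    by_cases h3 : Fx c x z z'
    · rw [if_pos h3, if_pos (this.2 h3)]
      ring
    · rw [if_neg h3, if_neg (fun h4 => h3 (this.1 h4))]
      ring
  rw [h]
  have h2 : ∀ z, ∑ z', ∑ x, (if (fs c hm hc x).r z z' then g z * g z' else 0) =
      ∑ x, ∑ z', (if (fs c hm hc x).r z z' then g z * g z' else 0) := fun z => Finset.sum_comm
  rw [Finset.sum_congr rfl fun z _ => h2 z, Finset.sum_comm]

theorem gg_psd (hm : 3 ≤ m) (hc : HAN c) : (GG c).PosSemidef := by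
  classical
  refine Matrix.PosSemidef.of_dotProduct_mulVec_nonneg ?_ ?_
  · ext z z'
    rw [conjTranspose_apply, star_trivial]
    unfold GG
    refine Finset.sum_congr rfl fun x _ => ?_
    have h := (fx_inv c x hm hc).eqv
    by_cases h3 : Fx c x z z'
    · rw [if_pos h3, if_pos (h.symm h3)]
    · rw [if_neg h3, if_neg (fun h4 => h3 (h.symm h4))]
  · intro g
    rw [star_trivial, gg_quad c hm hc]
    exact Finset.sum_nonneg fun x _ => ta_quad_nonneg _ _

theorem gg_trace (hm : 3 ≤ m) (hc : HAN c) : (GG c).trace = (Fintype.card U : ℝ) ^ 2 := by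
  classical
  unfold Matrix.trace
  have h : ∀ z, (GG c).diag z = (Fintype.card U : ℝ) := by
    intro z
    rw [diag_apply]
    unfold GG
    have h1 : ∀ x, (if Fx c x z z then (1 : ℝ) else 0) = 1 := fun x =>
      if_pos ((fx_inv c x hm hc).eqv.refl z)
    rw [Finset.sum_congr rfl fun x _ => h1 x, Finset.sum_const, Finset.card_univ, nsmul_eq_mul,
      mul_one]
  rw [Finset.sum_congr rfl fun z _ => h z, Finset.sum_const, Finset.card_univ, nsmul_eq_mul]
  ring

omit [Fintype U] in
/-- transport of disjointness -/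
theorem disjoint_transport (hm : 5 ≤ m) {x0 y0 w0 w0' x : U}
    (hd : ∀ u, Fx c x0 w0 u → ¬ Fx c y0 w0' u) (hw : w0 ≠ x0) (hw' : w0' ≠ y0)
    (h : c.r ![x0, y0] ![x, y0]) :
    ∃ w w', w ≠ x ∧ w' ≠ y0 ∧ ∀ u, Fx c x w u → ¬ Fx c y0 w' u := by
  have e2 : Nat.card (Fin 2) = 2 := by simp
  have e3 : Nat.card (Option (Fin 2)) = 3 := by rw [Finite.card_option]; simp
  have e4 : Nat.card (Option (Option (Fin 2))) = 4 := by rw [Finite.card_option, e3]
  have e5 : Nat.card (Option (Option (Option (Fin 2)))) = 5 := by rw [Finite.card_option, e4]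
  have f3 : Nat.card (Fin 3) = 3 := by simp
  obtain ⟨w, h1⟩ := c.ext1 (by rw [e2]; omega) h w0
  obtain ⟨w', h2⟩ := c.ext1 (by rw [e3]; omega) h1 w0'
  refine ⟨w, w', ?_, ?_, ?_⟩
  · intro hx
    have h3 := (c.inj_iff (by rw [e4]; omega) h2 (some none) (some (some 0))).2 (by simpa using hx)
    exact hw (by simpa using h3)
  · intro hx
    have h3 := (c.inj_iff (by rw [e4]; omega) h2 none (some (some 1))).2 (by simpa using hx)
    exact hw' (by simpa using h3)
  · intro u h3 h4
    obtain ⟨u0, h5⟩ := c.ext1 (by rw [e4]; omega) (c.symm' (by rw [e4]; omega) h2) u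
    have h6 : c.r ![x, w, u] ![x0, w0, u0] := by
      refine c.ofSub h5 (![some (some (some 0)), some (some none), none] :
        Fin 3 → Option (Option (Option (Fin 2)))) (by rw [e5]; omega) (by rw [f3]; omega) ?_ ?_
      · intro k; fin_cases k <;> simp
      · intro k; fin_cases k <;> simp
    have h7 : c.r ![y0, w', u] ![y0, w0', u0] := by
      refine c.ofSub h5 (![some (some (some 1)), some none, none] :
        Fin 3 → Option (Option (Option (Fin 2)))) (by rw [e5]; omega) (by rw [f3]; omega) ?_ ?_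
      · intro k; fin_cases k <;> simp
      · intro k; fin_cases k <;> simp
    exact hd u0 (fx_cross c (by omega) h6 h3) (fx_cross c (by omega) h7 h4)

open Classical in
theorem card_sum {X : Type} [Fintype X] (P : X → Prop) :
    ∑ z, (if P z then (1 : ℝ) else 0) = ({z | P z}.ncard : ℝ) := by
  have h : {z | P z} = ((Finset.univ.filter P : Finset X) : Set X) := by
    ext z
    simp
  rw [h, Set.ncard_coe_finset, Finset.sum_boole]

end TA_

/-- the statement of the spectral lemma -/
def LemmaQStmt : Prop := ∀ (L : ℕ) (η : ℝ), 0 < η → ∃ N : ℕ, ∀ (U C : Type) [Fintype U]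
  [DecidableEq U] (κ : U → U → C), Coh κ → (∀ y z, κ y y = κ z z) →
  (Set.range (fun p : U × U => κ p.1 p.2)).ncard ≤ L →
  (∀ E : U → U → Prop, Equivalence E → (∀ y y' z z', κ y y' = κ z z' → E y y' → E z z') →
      (∃ y y', y ≠ y' ∧ E y y') → ∀ z z', E z z') →
  N ≤ Fintype.card U →
  ∀ G : Matrix U U ℝ, CC κ G → G.PosSemidef → ∀ g : U → ℝ, ∑ u, g u = 0 →
     g ⬝ᵥ (G *ᵥ g) ≤ η * G.trace * (g ⬝ᵥ g)

theorem three_amalg_of (lemmaQ : LemmaQStmt) (B : ℕ) : ∃ N : ℕ,
    ∀ (U : Type) [Finite U] (m : ℕ) (c : Sch U m) (σ : ℕ → ℕ),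
    5 ≤ m → HAN c → Prim c → Hyp c σ → Nat.card U ≤ B * σ 1 → N ≤ σ 1 →
    ∀ x y w w' : U, x ≠ y → w ≠ x → w' ≠ y → ∃ u, Fx c x w u ∧ Fx c y w' u := by
  classical
  obtain ⟨N0, hN0⟩ := lemmaQ (B + 1) (1 / (2 * ((B : ℝ) + 1) ^ 5)) (by positivity)
  refine ⟨max N0 (B + 1), ?_⟩
  intro U _ m c σ hm hc hp hH hB hN x0 y0 w0 w0' hxy hw hw'
  have : Fintype U := Fintype.ofFinite U
  have hm3 : 3 ≤ m := by omega
  have hσB : B < σ 1 := by
    have := le_max_right N0 (B + 1)
    omega
  have hσ : 0 < σ 1 := by omega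
  by_contra hcon
  push Not at hcon
  have hd : ∀ u, Fx c x0 w0 u → ¬ Fx c y0 w0' u := hcon
  set v : ℝ := (Fintype.card U : ℝ) with hv
  set s1 : ℝ := (σ 1 : ℝ) with hs1
  have hs1pos : 0 < s1 := by rw [hs1]; exact_mod_cast hσ
  have hvle : v ≤ B * s1 := by
    rw [Nat.card_eq_fintype_card] at hB
    rw [hv, hs1]
    exact_mod_cast hB
  -- the points `x`
  have hfib : σ 1 ≤ {x | c.r ![y0, x0] ![y0, x]}.ncard := fib_card c hm3 hc hH (Ne.symm hxy)
  have hcardle : σ 1 ≤ Fintype.card U := by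
    refine hfib.trans ?_
    rw [← Nat.card_eq_fintype_card]
    exact Set.ncard_le_card _
  have hvpos : 0 < v := by
    rw [hv]
    exact_mod_cast lt_of_lt_of_le hσ hcardle
  have hQ := hN0 U (Set (U × U)) (pc c) (coh_pc c hm3)
    (fun y z => (pc_eq_iff c (by omega)).2 (homDiag c (by omega) hc y z))
    (colours_le c hm3 hc hH hB hσ x0) (fun E hE hinv hn => prim_colour c hm3 hc hp E hE hinv hn)
    (le_trans (le_trans (le_max_left _ _) hN) hcardle) (GG c) (gg_cc c (by omega)) (gg_psd c hm3 hc)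
  rw [gg_trace c hm3 hc] at hQ
  -- the test functions
  set s := fs c hm3 hc y0 with hs
  set sz : Quotient s → ℝ := fun q => ∑ z, if Quotient.mk s z = q then (1 : ℝ) else 0 with hsz
  set G : Quotient s → U → ℝ := fun q z => (if Quotient.mk s z = q then (1 : ℝ) else 0) - sz q / v
    with hG
  have hsz0 : ∀ q, 0 ≤ sz q := fun q => Finset.sum_nonneg fun z _ => by split_ifs <;> norm_num
  have hG0 : ∀ q, ∑ z, G q z = 0 := by
    intro q
    rw [hG]
    simp only
    rw [Finset.sum_sub_distrib, Finset.sum_const, Finset.card_univ, nsmul_eq_mul, ← hv,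
      mul_div_cancel₀ _ hvpos.ne']
    simp [hsz]
  have hGG : ∀ q, G q ⬝ᵥ G q ≤ sz q := by
    intro q
    have e1 : G q ⬝ᵥ G q = ∑ z, G q z * (if Quotient.mk s z = q then (1 : ℝ) else 0) := by
      have e2 : G q ⬝ᵥ G q = ∑ z, (G q z * (if Quotient.mk s z = q then (1 : ℝ) else 0) -
          G q z * (sz q / v)) := by
        unfold dotProduct
        refine Finset.sum_congr rfl fun z _ => ?_
        rw [← mul_sub]
      rw [e2, Finset.sum_sub_distrib, ← Finset.sum_mul, hG0, zero_mul, sub_zero]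
    rw [e1, hsz]
    simp only
    refine Finset.sum_le_sum fun z _ => ?_
    split_ifs with h
    · rw [hG]
      simp only [if_pos h, mul_one]
      have := div_nonneg (hsz0 q) hvpos.le
      linarith
    · rw [mul_zero]
  have hsum : ∑ q : Quotient s, sz q = v := by
    rw [hsz]
    simp only
    rw [Finset.sum_comm]
    simp [hv]
  have hup : ∑ q : Quotient s, G q ⬝ᵥ (GG c *ᵥ G q) ≤ 1 / (2 * ((B : ℝ) + 1) ^ 5) * v ^ 2 * v := by
    have e : 1 / (2 * ((B : ℝ) + 1) ^ 5) * v ^ 2 * v =
        ∑ q : Quotient s, 1 / (2 * ((B : ℝ) + 1) ^ 5) * v ^ 2 * sz q := by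
      rw [← Finset.mul_sum, hsum]
    rw [e]
    refine Finset.sum_le_sum fun q _ => ?_
    refine (hQ (G q) (hG0 q)).trans ?_
    exact mul_le_mul_of_nonneg_left (hGG q) (by positivity)
  -- lower bound
  have hlow : ∀ x, c.r ![x0, y0] ![x, y0] → (s1 ^ 2 / v) ^ 2 ≤
      ∑ q : Quotient s, ∑ z, ∑ z', (if (fs c hm3 hc x).r z z' then G q z * G q z' else 0) := by
    intro x hx
    obtain ⟨w, w', h1, h2, h3⟩ := disjoint_transport c hm hd hw hw' hx
    have h4 := quad_class (fs c hm3 hc x) (G (Quotient.mk s w')) w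
    have h5 : (∑ z, if (fs c hm3 hc x).r w z then G (Quotient.mk s w') z else 0) =
        - (sz (Quotient.mk s w') / v) * ({z | Fx c x w z}.ncard : ℝ) := by
      rw [← card_sum, Finset.mul_sum]
      refine Finset.sum_congr rfl fun z _ => ?_
      have e0 : (fs c hm3 hc x).r w z ↔ Fx c x w z := Iff.rfl
      by_cases h6 : Fx c x w z
      · rw [if_pos (e0.2 h6), if_pos h6, mul_one]
        have h7 : ¬ (Quotient.mk s z = Quotient.mk s w') := by
          intro h8
          exact h3 z h6 (Quotient.exact h8.symm)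
        rw [hG]
        simp only [if_neg h7, zero_sub]
      · rw [if_neg (fun h => h6 (e0.1 h)), if_neg h6, mul_zero]
    have h6 : s1 ≤ ({z | Fx c x w z}.ncard : ℝ) := by
      rw [hs1]
      exact_mod_cast fx_card c x hm3 hc hH hB hσB h1
    have h7 : s1 ≤ sz (Quotient.mk s w') := by
      have e1 : sz (Quotient.mk s w') = ({z | Fx c y0 w' z}.ncard : ℝ) := by
        rw [← card_sum, hsz]
        simp only
        refine Finset.sum_congr rfl fun z _ => ?_
        by_cases h8 : Fx c y0 w' z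
        · rw [if_pos h8, if_pos]
          exact (Quotient.sound (s := s) h8).symm
        · rw [if_neg h8, if_neg]
          intro h9
          exact h8 (Quotient.exact h9.symm)
      rw [e1, hs1]
      exact_mod_cast fx_card c y0 hm3 hc hH hB hσB h2
    have h8 : (s1 ^ 2 / v) ^ 2 ≤
        (∑ z, if (fs c hm3 hc x).r w z then G (Quotient.mk s w') z else 0) ^ 2 := by
      rw [h5, neg_mul, neg_sq]
      refine pow_le_pow_left₀ (by positivity) ?_ 2
      have e3 : s1 ^ 2 / v = s1 / v * s1 := by ring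
      rw [e3]
      exact mul_le_mul (div_le_div_of_nonneg_right h7 hvpos.le) h6 hs1pos.le
        (div_nonneg (hsz0 _) hvpos.le)
    refine h8.trans (h4.trans ?_)
    exact Finset.single_le_sum (f := fun q : Quotient s => ∑ z, ∑ z',
      (if (fs c hm3 hc x).r z z' then G q z * G q z' else 0))
      (fun q _ => ta_quad_nonneg _ _) (Finset.mem_univ (Quotient.mk s w'))
  have hlow2 : s1 * (s1 ^ 2 / v) ^ 2 ≤ ∑ q : Quotient s, G q ⬝ᵥ (GG c *ᵥ G q) := by
    have e1 : ∑ q : Quotient s, G q ⬝ᵥ (GG c *ᵥ G q) = ∑ x, ∑ q : Quotient s, ∑ z, ∑ z',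
        (if (fs c hm3 hc x).r z z' then G q z * G q z' else 0) := by
      rw [Finset.sum_congr rfl fun q _ => gg_quad c hm3 hc (G q), Finset.sum_comm]
    rw [e1]
    have e2 : {x | c.r ![y0, x0] ![y0, x]} = {x | c.r ![x0, y0] ![x, y0]} := by
      ext x
      exact ⟨fun h => c.swap2 (by omega) h, fun h => c.swap2 (by omega) h⟩
    rw [e2] at hfib
    calc s1 * (s1 ^ 2 / v) ^ 2 ≤ ({x | c.r ![x0, y0] ![x, y0]}.ncard : ℝ) * (s1 ^ 2 / v) ^ 2 := by
          refine mul_le_mul_of_nonneg_right ?_ (by positivity)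
          rw [hs1]
          exact_mod_cast hfib
      _ = ∑ x, (if c.r ![x0, y0] ![x, y0] then (1 : ℝ) else 0) * (s1 ^ 2 / v) ^ 2 := by
          rw [← card_sum, Finset.sum_mul]
      _ ≤ _ := by
          refine Finset.sum_le_sum fun x _ => ?_
          split_ifs with h
          · rw [one_mul]
            exact hlow x h
          · rw [zero_mul]
            exact Finset.sum_nonneg fun q _ => ta_quad_nonneg _ _
  -- contradiction
  have h1 := hlow2.trans hup
  have h2 : s1 * (s1 ^ 2 / v) ^ 2 * v ^ 2 = s1 ^ 5 := by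
    field_simp
  have h3 : s1 ^ 5 ≤ 1 / (2 * ((B : ℝ) + 1) ^ 5) * v ^ 5 := by
    rw [← h2]
    calc s1 * (s1 ^ 2 / v) ^ 2 * v ^ 2 ≤ (1 / (2 * ((B : ℝ) + 1) ^ 5) * v ^ 2 * v) * v ^ 2 :=
          mul_le_mul_of_nonneg_right h1 (by positivity)
      _ = _ := by ring
  have h4 : v ^ 5 ≤ (((B : ℝ) + 1) * s1) ^ 5 := by
    refine pow_le_pow_left₀ hvpos.le (hvle.trans ?_) 5
    nlinarith
  have h5 : 1 / (2 * ((B : ℝ) + 1) ^ 5) * v ^ 5 ≤ s1 ^ 5 / 2 := by
    calc 1 / (2 * ((B : ℝ) + 1) ^ 5) * v ^ 5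
        ≤ 1 / (2 * ((B : ℝ) + 1) ^ 5) * (((B : ℝ) + 1) * s1) ^ 5 :=
          mul_le_mul_of_nonneg_left h4 (by positivity)
      _ = s1 ^ 5 / 2 := by
          rw [mul_pow]
          field_simp
  have h6 : 0 < s1 ^ 5 := by positivity
  linarith

end Pool.Agent.H1MS
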