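import Pool.Agent.H1MS.Basic

set_option autoImplicit false

/-!
Valencies of the colours of pairs: the smallest valency.
-/

namespace Pool.Agent.H1MS

variable {U : Type} {m : ℕ}

/-- Moving the first coordinate of a pair. -/
theorem move_first (c : Sch U m) (hc : HAN c) (hm : 2 ≤ m) (u x : U) :
    ∃ π : Equiv.Perm U, ∀ w, c.r ![u, w] ![x, π w] := by
  obtain ⟨π, hπ⟩ := c.ext' (by simpa using hm) (hc.hom u x)
  exact ⟨π, fun w => c.pairU_of hm (hπ w)⟩

/-- The number of out-neighbours of a colour does not depend on the vertex. -/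
theorem out_const [Finite U] (c : Sch U m) (hc : HAN c) (hm : 2 ≤ m) (x y u v : U) :
    {w | c.r ![x, y] ![u, w]}.ncard = {w | c.r ![x, y] ![v, w]}.ncard := by
  obtain ⟨π, hπ⟩ := move_first c hc hm u v
  have h : {w | c.r ![x, y] ![v, w]} = π '' {w | c.r ![x, y] ![u, w]} := by
    ext w
    simp only [Set.mem_image]
    constructor
    · intro h
      refine ⟨π.symm w, ?_, by simp⟩
      have h1 := hπ (π.symm w)
      rw [Equiv.apply_symm_apply] at h1
      exact c.trans' (by simpa using hm) h (c.symm' (by simpa using hm) h1)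
    · rintro ⟨w', h1, rfl⟩
      exact c.trans' (by simpa using hm) h1 (hπ w')
  rw [h, Set.ncard_image_of_injective _ π.injective]

/-- The number of in-neighbours of a colour does not depend on the vertex. -/
theorem in_const [Finite U] (c : Sch U m) (hc : HAN c) (hm : 2 ≤ m) (x y u v : U) :
    {w | c.r ![x, y] ![w, u]}.ncard = {w | c.r ![x, y] ![w, v]}.ncard := by
  have h1 : ∀ a : U, {w | c.r ![x, y] ![w, a]} = {w | c.r ![y, x] ![a, w]} := by
    intro a
    ext w
    exact ⟨fun h => c.swap2 hm h, fun h => c.swap2 hm h⟩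
  rw [h1, h1]
  exact out_const c hc hm y x u v

/-- The number of out-neighbours of a colour equals the number of in-neighbours. -/
theorem in_eq_out [Finite U] (c : Sch U m) (hc : HAN c) (hm : 2 ≤ m) (x y u : U) :
    {w | c.r ![x, y] ![w, u]}.ncard = {w | c.r ![x, y] ![u, w]}.ncard := by
  classical
  have := Fintype.ofFinite U
  have key : ∀ a : U, ∀ R : U → Prop, {w | R w}.ncard = ∑ w, (if R w then 1 else 0) := by
    intro a R
    rw [Finset.sum_boole, Set.ncard_eq_toFinset_card']
    simp
  have h1 : ∑ a : U, ∑ w : U, (if c.r ![x, y] ![a, w] then 1 else 0) =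
      ∑ w : U, ∑ a : U, (if c.r ![x, y] ![a, w] then 1 else 0) := Finset.sum_comm
  have h2 : ∑ a : U, ∑ w : U, (if c.r ![x, y] ![a, w] then 1 else 0) =
      Fintype.card U * {w | c.r ![x, y] ![u, w]}.ncard := by
    rw [Finset.sum_congr rfl (fun a _ => (key a (fun w => c.r ![x, y] ![a, w])).symm)]
    rw [Finset.sum_congr rfl (fun a _ => out_const c hc hm x y a u)]
    simp
  have h3 : ∑ w : U, ∑ a : U, (if c.r ![x, y] ![a, w] then 1 else 0) =
      Fintype.card U * {w | c.r ![x, y] ![w, u]}.ncard := by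
    rw [Finset.sum_congr rfl (fun w _ => (key w (fun a => c.r ![x, y] ![a, w])).symm)]
    rw [Finset.sum_congr rfl (fun w _ => in_const c hc hm x y w u)]
    simp
  rw [h2, h3] at h1
  have hpos : 0 < Fintype.card U := Fintype.card_pos_iff.2 ⟨u⟩
  exact (Nat.eq_of_mul_eq_mul_left hpos h1).symm

theorem exists_small_colour [Finite U] (c : Sch U m) (hc : HAN c) (hm : 3 ≤ m)
    (hU : 2 ≤ Nat.card U) : ∃ x y : U, x ≠ y ∧
      {y' | c.r ![x, y] ![x, y']}.ncard * numJ c ≤ Nat.card U ∧
      {v | c.r ![x, y] ![v, x]}.ncard * numJ c ≤ Nat.card U := by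
  classical
  have := Fintype.ofFinite U
  have hm2 : 2 ≤ m := by omega
  rw [Nat.card_eq_fintype_card] at hU ⊢
  obtain ⟨x, x', hxx⟩ := Fintype.one_lt_card_iff.1 (by omega : 1 < Fintype.card U)
  obtain ⟨S, hS⟩ : ∃ S : Finset U, S = Finset.univ.filter (fun y => x ≠ y) := ⟨_, rfl⟩
  obtain ⟨J, hJ⟩ : ∃ J : Finset (Set (U × U)), J = S.image (fun y => pc c x y) := ⟨_, rfl⟩
  have hJn : numJ c = J.card := by
    unfold numJ
    rw [← Set.ncard_coe_finset]
    congr 1
    ext j
    simp only [Set.mem_image, hJ, Finset.coe_image, hS, Finset.coe_filter, Finset.mem_univ,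
      true_and]
    constructor
    · rintro ⟨⟨a, b⟩, hab, rfl⟩
      obtain ⟨π, hπ⟩ := move_first c hc hm2 a x
      refine ⟨π b, ?_, ?_⟩
      · intro h
        have h2 := c.inj' (by simpa using hm2) (c.symm' (by simpa using hm2) (hπ b)) 0 1
          (by simpa using h)
        exact hab (by simpa using h2)
      · exact ((pc_eq_iff c hm2).2 (hπ b)).symm
    · rintro ⟨y, hy, rfl⟩
      exact ⟨(x, y), hy, rfl⟩
  have hJpos : 0 < J.card := by
    rw [Finset.card_pos, hJ]
    exact ⟨pc c x x', Finset.mem_image_of_mem _ (by simp [hS, hxx])⟩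
  have hsum : ∑ j ∈ J, (S.filter (fun y => pc c x y = j)).card = S.card :=
    (Finset.card_eq_sum_card_fiberwise (fun y hy => by
      rw [hJ]; exact Finset.mem_coe.2 (Finset.mem_image_of_mem _ hy))).symm
  have hScard : S.card ≤ Fintype.card U := Finset.card_le_univ S
  obtain ⟨j, hj, hjc⟩ : ∃ j ∈ J, (S.filter (fun y => pc c x y = j)).card * J.card ≤
      Fintype.card U := by
    by_contra hcon
    push Not at hcon
    have h1 : ∑ j ∈ J, Fintype.card U <
        ∑ j ∈ J, (S.filter (fun y => pc c x y = j)).card * J.card := by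
      refine Finset.sum_lt_sum_of_nonempty (Finset.card_pos.1 hJpos) (fun j hj => hcon j hj)
    rw [← Finset.sum_mul, hsum, Finset.sum_const, smul_eq_mul, mul_comm] at h1
    have h2 := lt_of_mul_lt_mul_right h1 (Nat.zero_le _)
    omega
  rw [hJ, Finset.mem_image] at hj
  obtain ⟨y, hyS, rfl⟩ := hj
  have hxy : x ≠ y := by
    rw [hS, Finset.mem_filter] at hyS
    exact hyS.2
  have hset : {y' | c.r ![x, y] ![x, y']} =
      ((S.filter (fun y' => pc c x y' = pc c x y) : Finset U) : Set U) := by
    ext y'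
    simp only [Finset.coe_filter, hS, Finset.mem_filter, Finset.mem_univ, true_and]
    constructor
    · intro h
      refine ⟨?_, ?_⟩
      · intro h3
        have h2 := c.inj' (by simpa using hm2) (c.symm' (by simpa using hm2) h) 0 1
          (by simpa using h3)
        exact hxy (by simpa using h2)
      · exact ((pc_eq_iff c hm2).2 h).symm
    · rintro ⟨_, h⟩
      exact (pc_eq_iff c hm2).1 h.symm
  have hout : {y' | c.r ![x, y] ![x, y']}.ncard * numJ c ≤ Fintype.card U := by
    rw [hset, Set.ncard_coe_finset, hJn]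
    exact hjc
  refine ⟨x, y, hxy, hout, ?_⟩
  rw [in_eq_out c hc hm2 x y x]
  exact hout

end Pool.Agent.H1MS
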