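import Pool.Agent.H1MS.NmHan
import Pool.Agent.H1MS.NamedCount
import Pool.Agent.H1MS.ThreeA
import Pool.Agent.H1MS.LemmaQ
import Pool.Agent.H1MS.LinkCons
import Pool.Agent.H1MS.OmegaScheme
import Pool.Agent.H1MS.Valency

set_option autoImplicit false
set_option linter.unusedSectionVars false

/-!
The growth step.
-/

namespace Pool.Agent.H1MS

variable {U : Type} {m : ℕ}

theorem card_perm_le {T : Type} [Finite T] {B : ℕ} (h : Nat.card T ≤ B + 1) :
    Nat.card (Equiv.Perm T) ≤ (B + 1).factorial := by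
  classical
  rw [Nat.card_perm]
  exact Nat.factorial_le h

/-- The class with many named colours. -/
theorem exists_class [Finite U] {c : Sch U m} (hc : HAN c) {x y : U} (hxy : x ≠ y)
    (h3 : ∀ x y w w' : U, x ≠ y → w ≠ x → w' ≠ y → ∃ u, Fx c x w u ∧ Fx c y w' u)
    {S : Setoid U} (hS : NData c x S) (hSx : ∀ y z, S.r y z ↔ Fx c x y z)
    {σ : ℕ → ℕ} (hH : Hyp c σ) (hσ : ∀ l ≤ m, Nat.card (Equiv.Perm (Quotient S)) < σ l)
    (m' : ℕ) (hm2 : 2 ≤ m') (hm3 : 3 ≤ m) (hm : 2 * Nat.card (Quotient S) + m' + 1 ≤ m)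
    (hm7 : 2 * Nat.card (Quotient S) + 7 ≤ m) :
    ∃ q, q ≠ x ∧ (c.r ![x, y] ![x, q] ∨ c.r ![x, y] ![q, x]) ∧
      numJ c + 1 ≤ numJ (nmQ hS (Quotient.mk S q) m' hm3 hm) := by
  by_contra hno
  push Not at hno
  have hlt : ∀ q, q ≠ x → (c.r ![x, y] ![x, q] ∨ c.r ![x, y] ![q, x]) →
      numJ (nmQ hS (Quotient.mk S q) m' hm3 hm) ≤ numJ c := by
    intro q hq h
    have := hno q hq h
    omega
  have c2 : Nat.card (Fin 2) ≤ m := by simp; omega
  have hm3' : 2 * Nat.card (Quotient S) + 3 + 1 ≤ m := by omega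
  refine omega_scheme hc (by omega) hxy h3 (pc (nmS hS 3 hm3 hm3')) ?_ ?_
  · intro q v q' v' h
    rw [pc_eq_iff _ (by omega)] at h
    have h1 : tw c x S 1 ![q, v] ![q', v'] := h
    have h2 := tw_base hS (by simp; omega) h1
    refine c.ofSub h2 (![Sum.inl (), Sum.inr 0, Sum.inr 1] : Fin 3 → Unit ⊕ Fin 2)
      (by simp; omega) (by simp; omega) ?_ ?_
    · intro k; fin_cases k <;> simp
    · intro k; fin_cases k <;> simp
  · intro q v h1 h2 h4
    have hq : q ≠ x := by
      rintro rfl
      have := (c.inj_iff c2 h1 0 1).2 (by simp)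
      simp at this
      exact hxy this
    have hv : v ≠ x := by
      rintro rfl
      have := (c.inj_iff c2 h4 0 1).2 (by simp)
      simp at this
      exact hxy this
    have hqv : ¬ S.r q v := by
      intro h
      have h5 := c.pairU_of (by omega) ((hSx q v).1 h).1
      -- (x, q) ~ (x, v) and (x, y) ~ (v, x)
      have h6 : c.r ![x, v] ![v, x] :=
        c.trans' c2 (c.symm' c2 h5) (c.trans' c2 (c.symm' c2 h1) h4)
      have hinj : Function.Injective (![x, v] : Fin 2 → U) := by
        intro i j hij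
        fin_cases i <;> fin_cases j <;> simp_all
      have h7 := hc.anti (![x, v] : Fin 2 → U) (Equiv.swap 0 1) c2 hinj (by
        refine c.ofSub h6 id c2 c2 ?_ ?_
        · intro k; simp
        · intro k; fin_cases k <;> simp)
      have h8 := congrArg (fun s => s 0) h7
      simp at h8
    have := named_count hS hc hSx (fun y z h => tw_hom hS hc hSx hH hσ (by omega) h) h3 m' hm2 hm3
      hm hm7 q v hq hv hqv (hlt q hq (Or.inl h1)) (hlt v hv (Or.inr h4)) x y hxy
    refine le_trans (le_of_eq ?_) this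
    simp only [hSx]

theorem growthStep : GrowthStep := by
  intro B m' R
  obtain ⟨N0, hN0⟩ := three_amalg_of lemmaQ B
  set P := (B + 1).factorial with hP
  refine ⟨N0 + (R * P + 1) ^ P + P + B + 2, ?_⟩
  intro U _ m c σ hc hPr hH hm hU hB hR hN
  have hNσ : ∀ l ≤ m, N0 + (R * P + 1) ^ P + P + B + 2 ≤ σ l := hN
  have h1 := hNσ 1 (by omega)
  have h3 := hN0 U m c σ (by omega) hc hPr hH hB (by omega)
  obtain ⟨x, y, hxy, hv1, hv2⟩ := exists_small_colour c hc (by omega) hU
  let S : Setoid U := ⟨Fx c x, (fx_inv c x (by omega) hc).eqv⟩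
  have hSx : ∀ y z, S.r y z ↔ Fx c x y z := fun _ _ => Iff.rfl
  have hS : NData c x S := ndata_fx (by omega) hc x S hSx
  have hL : Nat.card (Quotient S) ≤ B + 1 :=
    fx_classes c x (by omega) hc hH hB (by omega) S hSx
  have hperm : Nat.card (Equiv.Perm (Quotient S)) ≤ P := card_perm_le hL
  have hσP : ∀ l ≤ m, Nat.card (Equiv.Perm (Quotient S)) < σ l := by
    intro l hl
    have := hNσ l hl
    omega
  have hσL : ∀ l ≤ m, (R * P + 1) ^ P + P < σ l := by
    intro l hl
    have := hNσ l hl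
    omega
  have hm3 : 3 ≤ m := by omega
  obtain ⟨q, hq, hor, hnum⟩ := exists_class hc hxy h3 hS hSx hH hσP (m' + 2) (by omega) hm3
    (by omega) (by omega)
  have hmm : 2 * Nat.card (Quotient S) + m' + 1 ≤ m := by omega
  refine ⟨{z : U // Quotient.mk S z = Quotient.mk S q}, inferInstance,
    nmQ hS (Quotient.mk S q) m' hm3 hmm, ?_, ?_, ?_, ?_, ?_, ?_⟩
  · exact nmQ_han hS hc hSx hH hσP _ m' hm3 hmm (by omega)
  · have hp := nmQ_prim hS hc hSx hH hperm hR hσL (Quotient.mk S q) (m' + 2) (by omega) hm3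
      (by omega) (by omega)
    intro E hE
    exact hp E ⟨hE.eqv, hE.fib, hE.inv⟩
  · exact nmQ_hyp hS hc hH hperm hR hσL (Quotient.mk S q) m' hm3 hmm (by omega)
  · obtain ⟨w, hw, hw'⟩ := fx_big c x hm3 hc hH hB (by omega) hq
    have h2 : Nontrivial {z : U // Quotient.mk S z = Quotient.mk S q} := by
      refine ⟨⟨q, rfl⟩, ⟨w, (Quotient.sound (show S.r q w from hw')).symm⟩, ?_⟩
      intro h
      exact hw (congrArg Subtype.val h).symm
    exact Finite.one_lt_card
  · have hsub : ∀ z, Quotient.mk S z = Quotient.mk S q → Fx c x q z := by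
      intro z hz
      exact (hSx q z).1 (Quotient.exact hz.symm)
    have hcard : Nat.card {z : U // Quotient.mk S z = Quotient.mk S q} =
        {z : U | Quotient.mk S z = Quotient.mk S q}.ncard := rfl
    have c2 : Nat.card (Fin 2) ≤ m := by simp; omega
    rcases hor with h | h
    · refine le_trans (Nat.mul_le_mul_right _ ?_) hv1
      rw [hcard]
      refine Set.ncard_le_ncard ?_ (Set.toFinite _)
      intro z hz
      exact c.trans' c2 h (c.pairU_of (by omega) (hsub z hz).1)
    · refine le_trans (Nat.mul_le_mul_right _ ?_) hv2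
      rw [hcard]
      refine Set.ncard_le_ncard ?_ (Set.toFinite _)
      intro z hz
      exact c.trans' c2 h (c.swap2 (by omega) (c.pairU_of (by omega) (hsub z hz).1))
  · exact hnum

end Pool.Agent.H1MS
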