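import Pool.Agent.H1MS.ClassScheme
import Pool.Agent.H1MS.Finest

set_option autoImplicit false
set_option linter.unusedSectionVars false

/-!
The linking lemma: an invariant relation of the named scheme contains an invariant relation.
-/

namespace Pool.Agent.H1MS

variable {U : Type} {m : ℕ}

section

variable [Finite U] {c : Sch U m} {x : U} {S : Setoid U} (hS : NData c x S)

include hS

theorem tw_same' {ι : Type} [Finite ι] {b b' d : ι → U} {lam : Equiv.Perm (Quotient S)}
    (hm3 : 3 ≤ m) (hm : 2 * Nat.card (Quotient S) + Nat.card ι ≤ m) (h : tw c x S lam b d)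
    (h' : tw c x S lam b' d) : tw c x S 1 b b' := by
  have h1 := tw_comp hS hm3 hm h (tw_symm hS (by omega) h')
  simpa using h1

/-- Extension for the inverse direction. -/
theorem tw_ext1 {ι : Type} [Finite ι] {b b' : ι → U} {lam : Equiv.Perm (Quotient S)}
    (hm : Nat.card (Quotient S) + Nat.card ι + 1 ≤ m) (h : tw c x S lam b b') (w : U) :
    ∃ v, tw c x S lam (sn b v) (sn b' w) := by
  obtain ⟨π, hπ⟩ := tw_ext hS hm h
  exact ⟨π.symm w, by simpa using hπ (π.symm w)⟩

end

/-- The data of the linking lemma on `U`. -/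
structure LData (c : Sch U m) (x : U) (S : Setoid U) {ι : Type} (A : ι → U) (Q : U → Prop)
    (EU : U → U → Prop) (y0 y1 : U) : Prop where
  memL : ∀ u u', EU u u' → Q u
  rf : ∀ u, Q u → EU u u
  sy : ∀ u u', EU u u' → EU u' u
  tr : ∀ u u' u'', EU u u' → EU u' u'' → EU u u''
  fib : ∀ u u', EU u u' → tw c x S 1 (sn A u) (sn A u')
  inv : ∀ u u' v v', EU u u' → tw c x S 1 (sn (sn A u) u') (sn (sn A v) v') → EU v v'
  cls : ∀ u v, Q u → tw c x S 1 (sn A u) (sn A v) → Q v
  base : EU y0 y1
  ne : y0 ≠ y1

section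

variable [Finite U] {c : Sch U m} {x : U} {S : Setoid U} (hS : NData c x S)
  {ι : Type} [Finite ι] {A : ι → U} {Q : U → Prop} {EU : U → U → Prop} {y0 y1 : U}
  (hm : 2 * Nat.card (Quotient S) + Nat.card ι + 6 ≤ m)
  (hL : LData c x S A Q EU y0 y1)

/-- The relation transported by `lam`. -/
def TT (c : Sch U m) (x : U) (S : Setoid U) {ι : Type} (A : ι → U) (EU : U → U → Prop) (y0 : U)
    (lam : Equiv.Perm (Quotient S)) (y y' : U) : Prop :=
  ∃ u u', tw c x S 1 (sn A y0) (sn A u) ∧ EU u u' ∧ tw c x S lam (sn (sn A u) u') (sn (sn A y) y')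

include hS hm hL

theorem tt_symm {lam : Equiv.Perm (Quotient S)} {y y' : U} (h : TT c x S A EU y0 lam y y') :
    TT c x S A EU y0 lam y' y := by
  have ho1 : Nat.card (Option ι) = Nat.card ι + 1 := Finite.card_option
  have ho2 : Nat.card (Option (Option ι)) = Nat.card ι + 2 := by rw [Finite.card_option, ho1]
  obtain ⟨u, u', h1, h2, h3⟩ := h
  refine ⟨u', u, tw_comp1 hS (by omega) (by omega) h1 (hL.fib _ _ h2), hL.sy _ _ h2, ?_⟩
  refine tw_sub hS (by omega) (by omega) h3
    (fun o => o.elim (some none) (fun o => o.elim none (fun i => some (some i)))) ?_ ?_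
  · rintro (_ | _ | i) <;> simp
  · rintro (_ | _ | i) <;> simp

theorem tt_trans {lam : Equiv.Perm (Quotient S)} {y y' y'' : U}
    (h : TT c x S A EU y0 lam y y') (h' : TT c x S A EU y0 lam y' y'') :
    TT c x S A EU y0 lam y y'' := by
  have ho1 : Nat.card (Option ι) = Nat.card ι + 1 := Finite.card_option
  have ho2 : Nat.card (Option (Option ι)) = Nat.card ι + 2 := by rw [Finite.card_option, ho1]
  have ho3 : Nat.card (Option (Option (Option ι))) = Nat.card ι + 3 := by
    rw [Finite.card_option, ho2]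
  obtain ⟨u, u', h1, h2, h3⟩ := h
  obtain ⟨v', v'', h4, h5, h6⟩ := h'
  obtain ⟨u'', h7⟩ := tw_ext1 hS (by omega) h3 y''
  have h8 : tw c x S lam (sn (sn A u') u'') (sn (sn A y') y'') := by
    refine tw_sub hS (by omega) (by omega) h7
      (fun o => o.elim none (fun o => o.elim (some none) (fun i => some (some (some i))))) ?_ ?_
    · rintro (_ | _ | i) <;> simp
    · rintro (_ | _ | i) <;> simp
  have h9 : tw c x S lam (sn (sn A u) u'') (sn (sn A y) y'') := by
    refine tw_sub hS (by omega) (by omega) h7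
      (fun o => o.elim none (fun o => o.elim (some (some none))
        (fun i => some (some (some i))))) ?_ ?_
    · rintro (_ | _ | i) <;> simp
    · rintro (_ | _ | i) <;> simp
  have h10 := hL.inv _ _ _ _ h5 (tw_same' hS (by omega) (by omega) h6 h8)
  exact ⟨u, u'', h1, hL.tr _ _ _ h2 h10, h9⟩

/-- Nonempty classes are large. -/
theorem tt_card {lam : Equiv.Perm (Quotient S)} {y y' : U} (h : TT c x S A EU y0 lam y y') :
    {t | EU y0 t}.ncard ≤ {t | TT c x S A EU y0 lam y t}.ncard := by
  have ho1 : Nat.card (Option ι) = Nat.card ι + 1 := Finite.card_option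
  have ho2 : Nat.card (Option (Option ι)) = Nat.card ι + 2 := by rw [Finite.card_option, ho1]
  obtain ⟨u, u', h1, h2, h3⟩ := h
  have h4 : tw c x S lam (sn A u) (sn A y) := by
    refine tw_sub hS (by omega) (by omega) h3
      (fun o => o.elim (some none) (fun i => some (some i))) ?_ ?_
    · rintro (_ | i) <;> simp
    · rintro (_ | i) <;> simp
  have h5 : tw c x S lam (sn A y0) (sn A y) := by
    simpa using tw_comp hS (by omega) (by omega) h1 h4
  obtain ⟨π, hπ⟩ := tw_ext hS (by omega) h5
  refine Set.ncard_le_ncard_of_injOn π ?_ (fun a _ b _ h => π.injective h) (Set.toFinite _)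
  intro t ht
  exact ⟨y0, t, tw_refl hS _ (by omega), ht, hπ t⟩

/-- The class of `y0` is large. -/
theorem e0_big {P : ℕ} (hP : Nat.card (Equiv.Perm (Quotient S)) ≤ P) :
    {t | c.r (sn (sn (wx x A) y0) y1) (sn (sn (wx x A) y0) t)}.ncard ≤
      P * {t | EU y0 t}.ncard := by
  classical
  have ho1 : Nat.card (Option ι) = Nat.card ι + 1 := Finite.card_option
  have ho2 : Nat.card (Option (Option ι)) = Nat.card ι + 2 := by rw [Finite.card_option, ho1]
  have ho3 : Nat.card (Option (Option (Option ι))) = Nat.card ι + 3 := by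
    rw [Finite.card_option, ho2]
  have : Fintype U := Fintype.ofFinite U
  have : Fintype (Equiv.Perm (Quotient S)) := Fintype.ofFinite _
  set Φ := {t | c.r (sn (sn (wx x A) y0) y1) (sn (sn (wx x A) y0) t)} with hΦ
  have h1 : ∀ t ∈ Φ, ∃ lam, tw c x S lam (sn (sn A y0) y1) (sn (sn A y0) t) := by
    intro t ht
    exact tw_of_base hS (by omega) (by omega) ((wx_sn2 c (by omega)).2 ht)
  choose! f hf using h1
  have h2 : ∀ lam ∈ (Finset.univ : Finset (Equiv.Perm (Quotient S))),
      (Φ.toFinset.filter (fun t => f t = lam)).card ≤ {t | EU y0 t}.ncard := by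
    intro lam _
    rcases Finset.eq_empty_or_nonempty (Φ.toFinset.filter (fun t => f t = lam)) with he | ⟨t0, ht0⟩
    · rw [he]
      simp
    · simp only [Finset.mem_filter, Set.mem_toFinset] at ht0
      have h3 := hf t0 ht0.1
      rw [ht0.2] at h3
      obtain ⟨π, hπ⟩ := tw_ext hS (by omega) (tw_symm hS (by omega) h3)
      rw [← Set.ncard_coe_finset]
      refine Set.ncard_le_ncard_of_injOn π ?_ (fun a _ b _ h => π.injective h) (Set.toFinite _)
      intro t ht
      simp only [Finset.coe_filter, Set.mem_toFinset, Set.mem_ofPred_eq] at ht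
      have h4 := hf t ht.1
      rw [ht.2] at h4
      have h5 : tw c x S lam⁻¹ (sn (sn A y0) t) (sn (sn A y0) (π t)) := by
        refine tw_sub hS (by omega) (by omega) (hπ t)
          (fun o => o.elim none (fun o => some (some o))) ?_ ?_
        · rintro (_ | o) <;> simp
        · rintro (_ | o) <;> simp
      have h6 : tw c x S 1 (sn (sn A y0) y1) (sn (sn A y0) (π t)) := by
        simpa using tw_comp hS (by omega) (by omega) h4 h5
      exact hL.inv _ _ _ _ hL.base h6
  have h3 := Finset.card_le_mul_card_image_of_maps_to (s := Φ.toFinset)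
    (t := (Finset.univ : Finset (Equiv.Perm (Quotient S)))) (f := f) (fun _ _ => Finset.mem_univ _)
    _ h2
  rw [Set.ncard_eq_toFinset_card']
  refine le_trans h3 ?_
  rw [mul_comm]
  refine Nat.mul_le_mul_right _ ?_
  rw [Finset.card_univ, ← Nat.card_eq_fintype_card]
  exact hP

end

end Pool.Agent.H1MS
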