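import Pool.Agent.H1MS.LinkH1

set_option autoImplicit false
set_option linter.unusedSectionVars false

/-!
The linking lemma: counting classes, the relation, and the conclusion.
-/

namespace Pool.Agent.H1MS

variable {U : Type} {m : ℕ}

/-- The relation of the linking lemma. -/
def LE (c : Sch U m) (x : U) (S : Setoid U) {ι : Type} (A : ι → U) (EU : U → U → Prop) (y0 : U)
    (y y' : U) : Prop :=
  c.r (sn (wx x A) y) (sn (wx x A) y') ∧
    ∀ v v', c.r (sn (sn (wx x A) v) v') (sn (sn (wx x A) y) y') →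
      (tw c x S 1 (sn A y0) (sn A v) ∨ tw c x S 1 (sn A y0) (sn A v')) → EU v v'

/-- Disjoint large classes of a symmetric transitive relation. -/
theorem card_classes_le [Fintype U] [DecidableEq U] (T : U → U → Prop)
    [∀ y, DecidablePred (T y)]
    (hs : ∀ y y', T y y' → T y' y) (ht : ∀ y y' y'', T y y' → T y' y'' → T y y'') (e : ℕ)
    (he : ∀ y y', T y y' → e ≤ (Finset.univ.filter (T y)).card) :
    ((Finset.univ.image (fun y => Finset.univ.filter (T y))).erase ∅).card * e ≤
      Fintype.card U := by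
  set G := (Finset.univ.image (fun y => Finset.univ.filter (T y))).erase ∅ with hG
  have h1 : ∀ s ∈ G, e ≤ s.card := by
    intro s hs'
    rw [hG, Finset.mem_erase, Finset.mem_image] at hs'
    obtain ⟨hne, y, -, rfl⟩ := hs'
    obtain ⟨y', hy'⟩ := Finset.nonempty_iff_ne_empty.2 hne
    rw [Finset.mem_filter] at hy'
    exact he y y' hy'.2
  have h2 : (G : Set (Finset U)).PairwiseDisjoint id := by
    intro s hs1 t ht1 hst
    rw [Finset.mem_coe, hG, Finset.mem_erase, Finset.mem_image] at hs1 ht1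
    obtain ⟨-, y, -, rfl⟩ := hs1
    obtain ⟨-, z, -, rfl⟩ := ht1
    rw [Function.onFun, id, id, Finset.disjoint_left]
    intro u hu hu'
    rw [Finset.mem_filter] at hu hu'
    apply hst
    ext w
    rw [Finset.mem_filter, Finset.mem_filter]
    constructor
    · rintro ⟨-, hw⟩
      exact ⟨Finset.mem_univ _, ht _ _ _ hu'.2 (ht _ _ _ (hs _ _ hu.2) hw)⟩
    · rintro ⟨-, hw⟩
      exact ⟨Finset.mem_univ _, ht _ _ _ hu.2 (ht _ _ _ (hs _ _ hu'.2) hw)⟩
  calc G.card * e = ∑ _s ∈ G, e := by simp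
    _ ≤ ∑ s ∈ G, s.card := Finset.sum_le_sum h1
    _ = (G.biUnion id).card := (Finset.card_biUnion h2).symm
    _ ≤ Fintype.card U := Finset.card_le_univ _

section

variable [Finite U] {c : Sch U m} {x : U} {S : Setoid U} (hS : NData c x S)
  {ι : Type} [Finite ι] {A : ι → U} {Q : U → Prop} {EU : U → U → Prop} {y0 y1 : U}
  (hm : 2 * Nat.card (Quotient S) + Nat.card ι + 6 ≤ m)
  (hL : LData c x S A Q EU y0 y1)

include hS hm hL

theorem le_sub (w : U) (h : LE c x S A EU y0 y0 w) : EU y0 w := by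
  have ho1 : Nat.card (Option ι) = Nat.card ι + 1 := Finite.card_option
  have hu1 : Nat.card (Unit ⊕ ι) = Nat.card ι + 1 := by
    rw [Nat.card_sum, Nat.card_unique]; omega
  have ho2 : Nat.card (Option (Option (Unit ⊕ ι))) = Nat.card ι + 3 := by
    rw [Finite.card_option, Finite.card_option, hu1]
  exact h.2 y0 w (c.rfl' _ (by omega)) (Or.inl (tw_refl hS _ (by omega)))

theorem le_inv : InvEq c (wx x A) (LE c x S A EU y0) := by
  have ho1 : Nat.card (Option ι) = Nat.card ι + 1 := Finite.card_option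
  have hu1 : Nat.card (Unit ⊕ ι) = Nat.card ι + 1 := by
    rw [Nat.card_sum, Nat.card_unique]; omega
  have hu2 : Nat.card (Option (Unit ⊕ ι)) = Nat.card ι + 2 := by
    rw [Finite.card_option, hu1]
  have hu3 : Nat.card (Option (Option (Unit ⊕ ι))) = Nat.card ι + 3 := by
    rw [Finite.card_option, hu2]
  have hu4 : Nat.card (Option (Option (Option (Unit ⊕ ι)))) = Nat.card ι + 4 := by
    rw [Finite.card_option, hu3]
  have c2 : Nat.card (Option (Unit ⊕ ι)) ≤ m := by omega
  have c3 : Nat.card (Option (Option (Unit ⊕ ι))) ≤ m := by omega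
  have c4 : Nat.card (Option (Option (Option (Unit ⊕ ι)))) ≤ m := by omega
  have hQ0 : Q y0 := hL.memL _ _ hL.base
  have hO : ∀ u u', tw c x S 1 (sn A y0) (sn A u) → EU u u' → tw c x S 1 (sn A y0) (sn A u') :=
    fun u u' h h' => tw_comp1 hS (by omega) (by omega) h (hL.fib _ _ h')
  refine ⟨⟨?_, ?_, ?_⟩, fun _ _ h => h.1, ?_⟩
  · intro y
    refine ⟨c.rfl' _ c2, ?_⟩
    intro v v' h hv
    have h1 : v = v' := by
      have := c.inj' c3 (c.symm' c3 h) (some none) none (by simp)
      simpa using this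
    subst h1
    have hv' : tw c x S 1 (sn A y0) (sn A v) := by
      rcases hv with h | h <;> exact h
    exact hL.rf _ (hL.cls _ _ hQ0 hv')
  · rintro y y' ⟨h1, h2⟩
    refine ⟨c.symm' c2 h1, ?_⟩
    intro v v' h hv
    refine hL.sy _ _ (h2 v' v ?_ hv.symm)
    refine c.ofSub h
      (fun o => o.elim (some none) (fun o => o.elim none (fun i => some (some i)))) c3 c3 ?_ ?_
    · rintro (_ | _ | i) <;> simp
    · rintro (_ | _ | i) <;> simp
  · rintro y y' y'' ⟨h1, h2⟩ ⟨h3, h4⟩
    refine ⟨c.trans' c2 h1 h3, ?_⟩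
    intro v v'' h hv
    obtain ⟨v', h5⟩ := c.ext1 (by omega) (c.symm' c3 h) y'
    have h5 := c.symm' c4 h5
    have h6 : c.r (sn (sn (wx x A) v) v') (sn (sn (wx x A) y) y') := by
      refine c.ofSub h5
        (fun o => o.elim none (fun o => o.elim (some (some none))
          (fun i => some (some (some i))))) c4 c3 ?_ ?_
      · rintro (_ | _ | i) <;> simp
      · rintro (_ | _ | i) <;> simp
    have h7 : c.r (sn (sn (wx x A) v') v'') (sn (sn (wx x A) y') y'') := by
      refine c.ofSub h5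
        (fun o => o.elim (some none) (fun o => o.elim none
          (fun i => some (some (some i))))) c4 c3 ?_ ?_
      · rintro (_ | _ | i) <;> simp
      · rintro (_ | _ | i) <;> simp
    rcases hv with hv | hv
    · have h8 := h2 v v' h6 (Or.inl hv)
      have h9 := h4 v' v'' h7 (Or.inl (hO _ _ hv h8))
      exact hL.tr _ _ _ h8 h9
    · have h8 := h4 v' v'' h7 (Or.inr hv)
      have h9 := h2 v v' h6 (Or.inr (hO _ _ hv (hL.sy _ _ h8)))
      exact hL.tr _ _ _ h9 h8
  · rintro y y' z z' h ⟨h1, h2⟩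
    refine ⟨(fib_inv c (wx x A) (by omega)).inv _ _ _ _ h h1, ?_⟩
    intro v v' hv
    exact h2 v v' (c.trans' c3 hv (c.symm' c3 h))

/-- Points with the same transported classes are equivalent. -/
theorem le_of_same {y y' : U} (h1 : c.r (sn (wx x A) y) (sn (wx x A) y'))
    (h2 : ∀ lam t, TT c x S A EU y0 lam y t ↔ TT c x S A EU y0 lam y' t) :
    LE c x S A EU y0 y y' := by
  have ho1 : Nat.card (Option ι) = Nat.card ι + 1 := Finite.card_option
  have ho2 : Nat.card (Option (Option ι)) = Nat.card ι + 2 := by rw [Finite.card_option, ho1]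
  have hQ0 : Q y0 := hL.memL _ _ hL.base
  refine ⟨h1, ?_⟩
  intro v v' h hv
  obtain ⟨lam, hlam⟩ := tw_of_base hS (by omega) (by omega) ((wx_sn2 c (by omega)).2 h)
  have hT : TT c x S A EU y0 lam y y' := by
    rcases hv with hv | hv
    · have h3 : TT c x S A EU y0 lam y y := by
        refine ⟨v, v, hv, hL.rf _ (hL.cls _ _ hQ0 hv), ?_⟩
        refine tw_sub hS (by omega) (by omega) hlam
          (fun o => o.elim (some none) (fun o => o.elim (some none) (fun i => some (some i)))) ?_ ?_
        · rintro (_ | _ | i) <;> simp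
        · rintro (_ | _ | i) <;> simp
      exact tt_symm hS hm hL ((h2 lam y).1 h3)
    · have h3 : TT c x S A EU y0 lam y' y' := by
        refine ⟨v', v', hv, hL.rf _ (hL.cls _ _ hQ0 hv), ?_⟩
        refine tw_sub hS (by omega) (by omega) hlam
          (fun o => o.elim none (fun o => o.elim none (fun i => some (some i)))) ?_ ?_
        · rintro (_ | _ | i) <;> simp
        · rintro (_ | _ | i) <;> simp
      exact (h2 lam y').2 h3
  obtain ⟨u, u', h4, h5, h6⟩ := hT
  exact hL.inv _ _ _ _ h5 (tw_same' hS (by omega) (by omega) h6 hlam)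

/-- The relation is nontrivial at `y0`. -/
theorem le_nontriv (hc : HAN c) {σ : ℕ → ℕ} (hH : Hyp c σ) {R P : ℕ}
    (hP : Nat.card (Equiv.Perm (Quotient S)) ≤ P)
    (hU : ∀ l ≤ m, Nat.card U ≤ R * σ l) (hσ : ∀ l ≤ m, (R * P + 1) ^ P + P < σ l) :
    ∃ w, w ≠ y0 ∧ LE c x S A EU y0 y0 w := by
  classical
  have ho1 : Nat.card (Option ι) = Nat.card ι + 1 := Finite.card_option
  have ho2 : Nat.card (Option (Option ι)) = Nat.card ι + 2 := by rw [Finite.card_option, ho1]
  have hu1 : Nat.card (Unit ⊕ ι) = Nat.card ι + 1 := by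
    rw [Nat.card_sum, Nat.card_unique]; omega
  have hu2 : Nat.card (Option (Unit ⊕ ι)) = Nat.card ι + 2 := by
    rw [Finite.card_option, hu1]
  have : Fintype U := Fintype.ofFinite U
  have : Fintype (Equiv.Perm (Quotient S)) := Fintype.ofFinite _
  -- the fibres
  have hb : c.r (sn (wx x A) y0) (sn (wx x A) y1) := by
    have h1 := tw_base hS (by omega) (hL.fib _ _ hL.base)
    rwa [wx_sn c (by omega)] at h1
  obtain ⟨y2, hy2, hr2⟩ := hc.nm (wx x A) y0 y1 (by omega) hL.ne hb
  have hΦ := hH (sn (wx x A) y0) _ (by omega) (fib_inv c (sn (wx x A) y0) (by omega)) y1 y2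
    hy2.symm hr2
  have hΦ0 := hH (wx x A) _ (by omega) (fib_inv c (wx x A) (by omega)) y0 y1 hL.ne hb
  have he0 := e0_big hS hm hL hP
  set e0 := {t | EU y0 t}.ncard with he0def
  have hR := hU (Nat.card (Option (Unit ⊕ ι))) (by omega)
  have hσ2 := hσ (Nat.card (Option (Unit ⊕ ι))) (by omega)
  have he0pos : 0 < e0 := by
    rcases Nat.eq_zero_or_pos e0 with h0 | h0
    · rw [h0, mul_zero] at he0
      have h1 := le_trans hΦ he0
      omega
    · exact h0
  have hUle : Nat.card U ≤ R * P * e0 := by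
    calc Nat.card U ≤ R * σ (Nat.card (Option (Unit ⊕ ι))) := hR
      _ ≤ R * (P * e0) := Nat.mul_le_mul_left _ (le_trans hΦ he0)
      _ = R * P * e0 := by ring
  -- the classes
  let F : U → Equiv.Perm (Quotient S) → Finset U :=
    fun y lam => Finset.univ.filter (TT c x S A EU y0 lam y)
  let G : Equiv.Perm (Quotient S) → Finset (Finset U) :=
    fun lam => Finset.univ.image (fun y => F y lam)
  have hG : ∀ lam, (G lam).card ≤ R * P + 1 := by
    intro lam
    have h1 := card_classes_le (fun y y' => TT c x S A EU y0 lam y y')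
      (fun y y' h => tt_symm hS hm hL h) (fun y y' y'' h h' => tt_trans hS hm hL h h') e0 (by
        intro y y' h
        have h2 := tt_card hS hm hL h
        rw [← Set.ncard_coe_finset]
        refine le_trans h2 (le_of_eq ?_)
        congr 1
        ext t
        simp)
    have h2 : ((G lam).erase ∅).card ≤ R * P := by
      have h3 : ((G lam).erase ∅).card * e0 ≤ R * P * e0 := by
        refine le_trans h1 ?_
        rw [← Nat.card_eq_fintype_card]
        exact hUle
      exact Nat.le_of_mul_le_mul_right h3 he0pos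
    have h3 := Finset.pred_card_le_card_erase (s := G lam) (a := ∅)
    omega
  have hpi : (Fintype.piFinset G).card ≤ (R * P + 1) ^ P := by
    rw [Fintype.card_piFinset]
    calc ∏ lam, (G lam).card ≤ ∏ _lam : Equiv.Perm (Quotient S), (R * P + 1) :=
          Finset.prod_le_prod' (fun lam _ => hG lam)
      _ = (R * P + 1) ^ Fintype.card (Equiv.Perm (Quotient S)) := by
          rw [Finset.prod_const, Finset.card_univ]
      _ ≤ (R * P + 1) ^ P := by
          refine Nat.pow_le_pow_right (by omega) ?_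
          rw [← Nat.card_eq_fintype_card]
          exact hP
  have hσ1 := hσ (Nat.card (Unit ⊕ ι)) (by omega)
  set Φ0 := {z | c.r (sn (wx x A) y0) (sn (wx x A) z)} with hΦ0def
  have hlt : (Fintype.piFinset G).card < Φ0.toFinset.card := by
    rw [← Set.ncard_eq_toFinset_card']
    omega
  obtain ⟨y, hy, y', hy', hne, hF⟩ := Finset.exists_ne_map_eq_of_card_lt_of_maps_to hlt
    (f := F) (by
      intro y _
      rw [Finset.mem_coe, Fintype.mem_piFinset]
      intro lam
      exact Finset.mem_image_of_mem _ (Finset.mem_univ _))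
  rw [Set.mem_toFinset] at hy hy'
  have hE := le_inv hS hm hL
  have hf := fib_inv c (wx x A) (by omega)
  have hLE : LE c x S A EU y0 y y' := by
    refine le_of_same hS hm hL (hf.eqv.trans (hf.eqv.symm hy) hy') ?_
    intro lam t
    have h1 : F y lam = F y' lam := congrFun hF lam
    have h2 : t ∈ F y lam ↔ t ∈ F y' lam := by rw [h1]
    simpa [F] using h2
  exact InvEq.nonid_of hE (by omega) (hf.eqv.symm hy) ⟨y', hne.symm, hLE⟩

end

/-- The linking lemma. -/
theorem link [Finite U] {c : Sch U m} {x : U} {S : Setoid U} (hS : NData c x S) (hc : HAN c)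
    {σ : ℕ → ℕ} (hH : Hyp c σ) {R P : ℕ} (hP : Nat.card (Equiv.Perm (Quotient S)) ≤ P)
    (hU : ∀ l ≤ m, Nat.card U ≤ R * σ l) (hσ : ∀ l ≤ m, (R * P + 1) ^ P + P < σ l)
    (β : Quotient S) (m' : ℕ) (hm3 : 3 ≤ m) (hm : 2 * Nat.card (Quotient S) + m' + 1 ≤ m)
    (hm5 : 2 * Nat.card (Quotient S) + m' + 5 ≤ m)
    {ι : Type} [Finite ι] (a : ι → {y : U // Quotient.mk S y = β})
    (E' : {y : U // Quotient.mk S y = β} → {y : U // Quotient.mk S y = β} → Prop)
    (hι : Nat.card ι + 2 ≤ m') (hE' : InvEq (nmQ hS β m' hm3 hm) a E')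
    (y0 y1 : {y : U // Quotient.mk S y = β}) (hne : y0 ≠ y1) (h : E' y0 y1) :
    ∃ E : U → U → Prop, InvEq c (wx x (fun i => (a i : U))) E ∧
      (∃ w, w ≠ (y0 : U) ∧ E y0 w) ∧
      ∀ w, E y0 w → ∃ hw : Quotient.mk S w = β, E' y0 ⟨w, hw⟩ := by
  have ho1 : Nat.card (Option ι) = Nat.card ι + 1 := Finite.card_option
  have ho2 : Nat.card (Option (Option ι)) = Nat.card ι + 2 := by rw [Finite.card_option, ho1]
  have hmm : 2 * Nat.card (Quotient S) + Nat.card ι + 6 ≤ m := by omega
  have hL : LData c x S (fun i => (a i : U)) (fun u => Quotient.mk S u = β)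
      (fun u u' => ∃ (hu : Quotient.mk S u = β) (hu' : Quotient.mk S u' = β),
        E' ⟨u, hu⟩ ⟨u', hu'⟩) (y0 : U) (y1 : U) := by
    refine ⟨?_, ?_, ?_, ?_, ?_, ?_, ?_, ⟨y0.2, y1.2, h⟩, fun h => hne (Subtype.ext h)⟩
    · rintro u u' ⟨hu, hu', h'⟩
      exact hu
    · intro u hu
      exact ⟨hu, hu, hE'.eqv.refl _⟩
    · rintro u u' ⟨hu, hu', h⟩
      exact ⟨hu', hu, hE'.eqv.symm h⟩
    · rintro u u' u'' ⟨hu, hu', h⟩ ⟨hu2, hu'', h'⟩
      exact ⟨hu, hu'', hE'.eqv.trans h h'⟩
    · rintro u u' ⟨hu, hu', h⟩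
      have h1 : tw c x S 1 (fun o => ((sn a (⟨u, hu⟩ : {y : U // Quotient.mk S y = β}) o :
          {y : U // Quotient.mk S y = β}) : U))
          (fun o => ((sn a (⟨u', hu'⟩ : {y : U // Quotient.mk S y = β}) o :
          {y : U // Quotient.mk S y = β}) : U)) := hE'.fib _ _ h
      rw [coe_sn, coe_sn] at h1
      exact h1
    · rintro u u' v v' ⟨hu, hu', h⟩ h1
      have hv : Quotient.mk S v = β := by
        have := tw_cls hS hm3 (by omega) h1 (some none)
        simpa [hu] using this
      have hv' : Quotient.mk S v' = β := by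
        have := tw_cls hS hm3 (by omega) h1 none
        simpa [hu'] using this
      refine ⟨hv, hv', hE'.inv _ _ _ _ ?_ h⟩
      change tw c x S 1 (fun o => ((sn (sn a (⟨u, hu⟩ : {y : U // Quotient.mk S y = β}))
          (⟨u', hu'⟩ : {y : U // Quotient.mk S y = β}) o : {y : U // Quotient.mk S y = β}) : U))
          (fun o => ((sn (sn a (⟨v, hv⟩ : {y : U // Quotient.mk S y = β}))
          (⟨v', hv'⟩ : {y : U // Quotient.mk S y = β}) o : {y : U // Quotient.mk S y = β}) : U))
      rw [coe_sn, coe_sn, coe_sn, coe_sn]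
      exact h1
    · intro u v hu h1
      have := tw_cls hS hm3 (by omega) h1 none
      simpa [hu] using this
  refine ⟨LE c x S (fun i => (a i : U)) _ (y0 : U), le_inv hS hmm hL,
    le_nontriv hS hmm hL hc hH hP hU hσ, fun w hw => ?_⟩
  obtain ⟨hy0, hw', h'⟩ := le_sub hS hmm hL w hw
  exact ⟨hw', h'⟩

end Pool.Agent.H1MS
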