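import Pool.Agent.H1MS.Naming

set_option autoImplicit false
set_option linter.unusedSectionVars false

/-!
The scheme obtained by naming the classes over a point, on `U` and on one class.
-/

namespace Pool.Agent.H1MS

variable {U : Type} {m : ℕ}

section

variable [Finite U] {c : Sch U m} {x : U} {S : Setoid U} (hS : NData c x S)

include hS

/-- Two tuples reached with the same relabelling have the same named colour. -/
theorem tw_same {ι : Type} [Finite ι] {b b' b'' : ι → U} {lam : Equiv.Perm (Quotient S)}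
    (hm3 : 3 ≤ m) (hm : 2 * Nat.card (Quotient S) + Nat.card ι ≤ m) (h : tw c x S lam b b')
    (h' : tw c x S lam b b'') : tw c x S 1 b' b'' := by
  have h1 := tw_comp hS hm3 hm (tw_symm hS (by omega) h) h'
  simpa using h1

theorem tw_symm1 {ι : Type} [Finite ι] {b b' : ι → U}
    (hm : Nat.card (Quotient S) + Nat.card ι ≤ m) (h : tw c x S 1 b b') : tw c x S 1 b' b := by
  simpa using tw_symm hS hm h

theorem tw_comp1 {ι : Type} [Finite ι] {b b' b'' : ι → U}
    (hm3 : 3 ≤ m) (hm : 2 * Nat.card (Quotient S) + Nat.card ι ≤ m) (h : tw c x S 1 b b')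
    (h' : tw c x S 1 b' b'') : tw c x S 1 b b'' := by
  simpa using tw_comp hS hm3 hm h h'

/-- `b' ~ b''` transported to `d' ~ d''` when all are reached with the same relabelling. -/
theorem tw_conj {ι : Type} [Finite ι] {b b' d d' : ι → U} {lam : Equiv.Perm (Quotient S)}
    (hm3 : 3 ≤ m) (hm : 2 * Nat.card (Quotient S) + Nat.card ι ≤ m) (h : tw c x S lam b d)
    (h' : tw c x S lam b' d') (h1 : tw c x S 1 b b') : tw c x S 1 d d' := by
  have h2 := tw_comp hS hm3 hm (tw_symm hS (by omega) h) h1
  have h3 := tw_comp hS hm3 hm h2 h'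
  simpa using h3

/-- Pigeonhole over the relabellings. -/
theorem tw_pigeon {ι : Type} [Finite ι] {T : Type} (b : T → ι → U) (b0 : ι → U) (Φ : Set T)
    (hm3 : 3 ≤ m) (hm : 2 * Nat.card (Quotient S) + Nat.card ι + 1 ≤ m)
    (hb : ∀ t ∈ Φ, c.r (wx x b0) (wx x (b t)))
    (hcard : Nat.card (Equiv.Perm (Quotient S)) < Φ.ncard) :
    ∃ t ∈ Φ, ∃ t' ∈ Φ, t ≠ t' ∧ tw c x S 1 (b t) (b t') := by
  classical
  have h1 : ∀ t ∈ Φ, ∃ lam, tw c x S lam b0 (b t) := fun t ht =>
    tw_of_base hS hm3 (by omega) (hb t ht)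
  choose! f hf using h1
  have : Fintype (Equiv.Perm (Quotient S)) := Fintype.ofFinite _
  obtain ⟨t, ht, t', ht', hne, heq⟩ := Set.exists_ne_map_eq_of_ncard_lt_of_maps_to
    (s := Φ) (t := Set.univ) (f := f)
    (by rw [Set.ncard_univ]; exact hcard) (fun _ _ => Set.mem_univ _)
  refine ⟨t, ht, t', ht', hne, ?_⟩
  have h2 := hf t ht
  have h3 := hf t' ht'
  rw [heq] at h2
  exact tw_same hS hm3 (by omega) h2 h3

/-- The scheme with named classes, on `U`. -/
def nmS (m' : ℕ) (hm3 : 3 ≤ m) (hm : 2 * Nat.card (Quotient S) + m' + 1 ≤ m) : Sch U m' where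
  r := fun b b' => tw c x S 1 b b'
  rfl' := fun a ha => tw_refl hS a (by omega)
  symm' := fun ha h => tw_symm1 hS (by omega) h
  trans' := fun ha h h' => tw_comp1 hS hm3 (by omega) h h'
  sub' := by
    intro ι κ _ _ φ a b ha hk h
    exact tw_sub hS (by omega) (by omega) h φ (fun _ => rfl) (fun _ => rfl)
  inj' := fun ha h i j hij => tw_inj hS (by omega) h hij
  ext' := fun ha h => tw_ext hS (by omega) h

/-- The scheme with named classes, on the class `β`. -/
def nmQ (β : Quotient S) (m' : ℕ) (hm3 : 3 ≤ m) (hm : 2 * Nat.card (Quotient S) + m' + 1 ≤ m) :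
    Sch {y : U // Quotient.mk S y = β} m' where
  r := fun b b' => tw c x S 1 (fun i => (b i : U)) (fun i => (b' i : U))
  rfl' := fun a ha => tw_refl hS _ (by omega)
  symm' := fun ha h => tw_symm1 hS (by omega) h
  trans' := fun ha h h' => tw_comp1 hS hm3 (by omega) h h'
  sub' := by
    intro ι κ _ _ φ a b ha hk h
    exact tw_sub hS (by omega) (by omega) h φ (fun _ => rfl) (fun _ => rfl)
  inj' := fun ha h i j hij => by
    apply Subtype.ext
    exact tw_inj hS (by omega) h (congrArg Subtype.val hij)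
  ext' := by
    intro ι _ a b ha h
    obtain ⟨π, hπ⟩ := tw_ext hS (by omega) h
    have hcl : ∀ w : {y : U // Quotient.mk S y = β}, Quotient.mk S (π w) = β := by
      intro w
      have := tw_cls hS hm3 (by rw [Finite.card_option]; omega) (hπ w) none
      simpa [w.2] using this
    let g : {y : U // Quotient.mk S y = β} → {y : U // Quotient.mk S y = β} :=
      fun w => ⟨π w, hcl w⟩
    have hg : Function.Injective g := by
      intro w w' hw
      apply Subtype.ext
      exact π.injective (congrArg Subtype.val hw)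
    have hbij := (Finite.injective_iff_bijective).1 hg
    refine ⟨Equiv.ofBijective g hbij, fun w => ?_⟩
    have h1 := hπ w
    refine tw_sub hS (by rw [Finite.card_option]; omega) (by rw [Finite.card_option]; omega)
      h1 id ?_ ?_
    · rintro (_ | i) <;> simp
    · rintro (_ | i) <;> simp [g]

/-- Being of the same named colour is an invariant relation over `x`. -/
theorem tw1_inv {ι : Type} [Finite ι] {b b' d d' : ι → U} (hm3 : 3 ≤ m)
    (hm : 2 * Nat.card (Quotient S) + 2 * Nat.card ι + 1 ≤ m)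
    (h : c.r (wx x (Sum.elim b b')) (wx x (Sum.elim d d'))) (hb : tw c x S 1 b b') :
    tw c x S 1 d d' := by
  obtain ⟨lam, hlam⟩ := tw_of_base hS hm3 (by rw [Nat.card_sum]; omega) h
  have h1 : tw c x S lam b d := tw_sub hS (by rw [Nat.card_sum]; omega) (by omega) hlam Sum.inl
    (fun _ => rfl) (fun _ => rfl)
  have h2 : tw c x S lam b' d' := tw_sub hS (by rw [Nat.card_sum]; omega) (by omega) hlam Sum.inr
    (fun _ => rfl) (fun _ => rfl)
  exact tw_conj hS hm3 (by omega) h1 h2 hb

end

end Pool.Agent.H1MS
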