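import Pool.Agent.H1MS.Basic

set_option autoImplicit false
set_option linter.unusedSectionVars false

/-!
Naming the classes of an invariant equivalence relation over a point.
-/

namespace Pool.Agent.H1MS

variable {U : Type} {m : ℕ}

/-- The tuple `(x, b)`. -/
def wx {ι : Type} (x : U) (b : ι → U) : Unit ⊕ ι → U := Sum.elim (fun _ => x) b

@[simp] theorem wx_inl {ι : Type} (x : U) (b : ι → U) (u : Unit) : wx x b (Sum.inl u) = x := rfl

@[simp] theorem wx_inr {ι : Type} (x : U) (b : ι → U) (i : ι) : wx x b (Sum.inr i) = b i := rfl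

/-- The data for naming: an invariant equivalence relation over `x` in which `x` is alone. -/
structure NData (c : Sch U m) (x : U) (S : Setoid U) : Prop where
  inv : InvEq c (fun _ : Unit => x) S.r
  alone : ∀ y, S.r x y → y = x

/-- `b` and `b'` have the same colour after naming the classes, up to the relabelling `lam`. -/
def tw (c : Sch U m) (x : U) (S : Setoid U) (lam : Equiv.Perm (Quotient S)) {ι : Type}
    (b b' : ι → U) : Prop :=
  ∃ z z' : Quotient S → U, (∀ β, Quotient.mk S (z β) = β) ∧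
    (∀ β, Quotient.mk S (z' β) = lam β) ∧ z' (Quotient.mk S x) = x ∧
    c.r (Sum.elim z b) (Sum.elim z' b')

section

variable [Finite U] {c : Sch U m} {x : U} {S : Setoid U} (hS : NData c x S)

include hS

theorem NData.sec_x {z : Quotient S → U} (hz : ∀ β, Quotient.mk S (z β) = β) :
    z (Quotient.mk S x) = x :=
  hS.alone _ (Setoid.symm' S (Quotient.exact (hz (Quotient.mk S x))))

theorem NData.inv3 (hm : 3 ≤ m) {y y' z z' : U} (h : c.r ![x, y, y'] ![x, z, z'])
    (hy : S.r y y') : S.r z z' :=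
  hS.inv.inv _ _ _ _ (c.triple_to hm h) hy

theorem tw_refl {ι : Type} [Finite ι] (b : ι → U)
    (hm : Nat.card (Quotient S) + Nat.card ι ≤ m) : tw c x S 1 b b := by
  refine ⟨fun β => β.out, fun β => β.out, fun β => Quotient.out_eq β,
    fun β => by simp, hS.sec_x (fun β => Quotient.out_eq β), c.rfl' _ ?_⟩
  rw [Nat.card_sum]; omega

theorem tw_base {ι : Type} [Finite ι] {b b' : ι → U} {lam : Equiv.Perm (Quotient S)}
    (hm : Nat.card (Quotient S) + Nat.card ι ≤ m) (h : tw c x S lam b b') :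
    c.r (wx x b) (wx x b') := by
  obtain ⟨z, z', hz, hz', hx, h⟩ := h
  have hne : Nonempty (Quotient S) := ⟨Quotient.mk S x⟩
  have h1 : 1 ≤ Nat.card (Quotient S) := Nat.card_pos
  refine c.ofSub h (Sum.map (fun _ => Quotient.mk S x) id) (by rw [Nat.card_sum]; omega)
    (by rw [Nat.card_sum, Nat.card_unique]; omega) ?_ ?_
  · rintro (i | i)
    · simp [hS.sec_x hz]
    · simp
  · rintro (i | i)
    · simp [hx]
    · simp

theorem tw_plain {ι : Type} [Finite ι] {b b' : ι → U} {lam : Equiv.Perm (Quotient S)}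
    (hm : Nat.card (Quotient S) + Nat.card ι ≤ m) (h : tw c x S lam b b') :
    c.r b b' := by
  have h1 := tw_base hS hm h
  have hne : Nonempty (Quotient S) := ⟨Quotient.mk S x⟩
  have h2 : 1 ≤ Nat.card (Quotient S) := Nat.card_pos
  refine c.ofSub h1 Sum.inr (by rw [Nat.card_sum, Nat.card_unique]; omega) (by omega) ?_ ?_
  · intro i; simp
  · intro i; simp

theorem tw_of_base {ι : Type} [Finite ι] {b b' : ι → U} (hm3 : 3 ≤ m)
    (hm : Nat.card (Quotient S) + Nat.card ι + 1 ≤ m) (h : c.r (wx x b) (wx x b')) :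
    ∃ lam, tw c x S lam b b' := by
  have hcard : Nat.card (Unit ⊕ ι) = Nat.card ι + 1 := by
    rw [Nat.card_sum, Nat.card_unique]; omega
  obtain ⟨w', hw'⟩ := c.extFam h (Quotient S) (by omega) (fun β => β.out)
  have hx : w' (Quotient.mk S x) = x := by
    have := c.inj' (by rw [Nat.card_sum]; omega) hw' (Sum.inr (Quotient.mk S x))
      (Sum.inl (Sum.inl ())) (by simpa using hS.sec_x (fun β => Quotient.out_eq β))
    simpa using this
  have hcl : ∀ β γ, S.r (w' β) (w' γ) → β = γ := by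
    intro β γ hr
    have h1 : c.r ![x, w' β, w' γ] ![x, β.out, γ.out] := by
      refine c.ofSub (c.symm' (by rw [Nat.card_sum]; omega) hw')
        (![Sum.inl (Sum.inl ()), Sum.inr β, Sum.inr γ] : Fin 3 → (Unit ⊕ ι) ⊕ Quotient S)
        (by rw [Nat.card_sum]; omega) (by simpa using hm3) ?_ ?_
      · intro k; fin_cases k <;> simp
      · intro k; fin_cases k <;> simp
    have h2 := hS.inv3 hm3 h1 hr
    have h3 : Quotient.mk S β.out = Quotient.mk S γ.out := Quotient.sound h2
    simpa using h3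
  have hinj : Function.Injective (fun β => Quotient.mk S (w' β)) := by
    intro β γ hβ
    exact hcl β γ (Quotient.exact hβ)
  have hbij := (Finite.injective_iff_bijective).1 hinj
  refine ⟨Equiv.ofBijective _ hbij, fun β => β.out, w', fun β => Quotient.out_eq β,
    fun β => rfl, hx, ?_⟩
  refine c.ofSub hw' (Sum.elim (fun β => Sum.inr β) (fun i => Sum.inl (Sum.inr i)))
    (by rw [Nat.card_sum]; omega) (by rw [Nat.card_sum]; omega) ?_ ?_
  · rintro (i | i) <;> simp
  · rintro (i | i) <;> simp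

theorem tw_fix {ι : Type} {b b' : ι → U} {lam : Equiv.Perm (Quotient S)}
    (h : tw c x S lam b b') : lam (Quotient.mk S x) = Quotient.mk S x := by
  obtain ⟨z, z', hz, hz', hx, h⟩ := h
  rw [← hz', hx]

theorem tw_symm {ι : Type} [Finite ι] {b b' : ι → U} {lam : Equiv.Perm (Quotient S)}
    (hm : Nat.card (Quotient S) + Nat.card ι ≤ m) (h : tw c x S lam b b') :
    tw c x S lam⁻¹ b' b := by
  have hfix := tw_fix hS h
  obtain ⟨z, z', hz, hz', hx, h⟩ := h
  refine ⟨z' ∘ (lam⁻¹ : Equiv.Perm (Quotient S)), z ∘ (lam⁻¹ : Equiv.Perm (Quotient S)),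
    ?_, ?_, ?_, ?_⟩
  · intro β; simp [hz']
  · intro β; simp [hz]
  · have : lam⁻¹ (Quotient.mk S x) = Quotient.mk S x := by
      rw [Equiv.Perm.inv_eq_iff_eq]; exact hfix.symm
    simp only [Function.comp_apply, this]
    exact hS.sec_x hz
  · refine c.ofSub (c.symm' (by rw [Nat.card_sum]; omega) h) (Sum.map (lam⁻¹ : Equiv.Perm (Quotient S)) id)
      (by rw [Nat.card_sum]; omega) (by rw [Nat.card_sum]; omega) ?_ ?_
    · rintro (i | i) <;> simp
    · rintro (i | i) <;> simp

theorem tw_cls {ι : Type} [Finite ι] {b b' : ι → U} {lam : Equiv.Perm (Quotient S)}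
    (hm3 : 3 ≤ m) (hm : Nat.card (Quotient S) + Nat.card ι ≤ m) (h : tw c x S lam b b') (i : ι) :
    Quotient.mk S (b' i) = lam (Quotient.mk S (b i)) := by
  obtain ⟨z, z', hz, hz', hx, h⟩ := h
  have h1 : c.r ![x, z (Quotient.mk S (b i)), b i] ![x, z' (Quotient.mk S (b i)), b' i] := by
    refine c.ofSub h (![Sum.inl (Quotient.mk S x), Sum.inl (Quotient.mk S (b i)), Sum.inr i] :
      Fin 3 → Quotient S ⊕ ι) (by rw [Nat.card_sum]; omega) (by simpa using hm3) ?_ ?_
    · intro k; fin_cases k <;> simp [hS.sec_x hz]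
    · intro k; fin_cases k <;> simp [hx]
  have h2 := hS.inv3 hm3 h1 (Quotient.exact (hz (Quotient.mk S (b i))))
  rw [← hz']
  exact Quotient.sound (Setoid.symm' S h2)

theorem tw_comp {ι : Type} [Finite ι] {b b' b'' : ι → U} {lam mu : Equiv.Perm (Quotient S)}
    (hm3 : 3 ≤ m) (hm : 2 * Nat.card (Quotient S) + Nat.card ι ≤ m) (h : tw c x S lam b b')
    (h' : tw c x S mu b' b'') : tw c x S (mu * lam) b b'' := by
  have hfix := tw_fix hS h
  obtain ⟨z, z', hz, hz', hx, h⟩ := h
  obtain ⟨z1, z1'', hz1, hz1'', hx1, h1⟩ := h'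
  have h2 : c.r (Sum.elim (z1 ∘ lam) b') (Sum.elim (z1'' ∘ lam) b'') := by
    refine c.ofSub h1 (Sum.map lam id) (by rw [Nat.card_sum]; omega)
      (by rw [Nat.card_sum]; omega) ?_ ?_
    · rintro (i | i) <;> simp
    · rintro (i | i) <;> simp
  obtain ⟨ζ, hζ⟩ := c.extFam (c.symm' (by rw [Nat.card_sum]; omega) h) (Quotient S)
    (by rw [Nat.card_sum]; omega) (z1 ∘ lam)
  have hcls : ∀ β, Quotient.mk S (ζ β) = β := by
    intro β
    have h3 : c.r ![x, z' β, (z1 ∘ lam) β] ![x, z β, ζ β] := by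
      refine c.ofSub hζ (![Sum.inl (Sum.inl (Quotient.mk S x)), Sum.inl (Sum.inl β), Sum.inr β] :
        Fin 3 → (Quotient S ⊕ ι) ⊕ Quotient S) (by rw [Nat.card_sum, Nat.card_sum]; omega)
        (by simpa using hm3) ?_ ?_
      · intro k; fin_cases k <;> simp [hx]
      · intro k; fin_cases k <;> simp [hS.sec_x hz]
    have h4 : S.r (z' β) ((z1 ∘ lam) β) := by
      apply Quotient.exact
      rw [hz', Function.comp_apply, hz1]
    have h5 := hS.inv3 hm3 h3 h4
    have h6 : Quotient.mk S (z β) = Quotient.mk S (ζ β) := Quotient.sound h5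
    rw [← h6, hz]
  have h7 : c.r (Sum.elim ζ b) (Sum.elim (z1 ∘ lam) b') := by
    refine c.ofSub (c.symm' (by rw [Nat.card_sum, Nat.card_sum]; omega) hζ)
      (Sum.elim (fun β => Sum.inr β) (fun i => Sum.inl (Sum.inr i)))
      (by rw [Nat.card_sum, Nat.card_sum]; omega) (by rw [Nat.card_sum]; omega) ?_ ?_
    · rintro (i | i) <;> simp
    · rintro (i | i) <;> simp
  refine ⟨ζ, z1'' ∘ lam, hcls, ?_, ?_, c.trans' (by rw [Nat.card_sum]; omega) h7 h2⟩
  · intro β; simp [hz1'']
  · simp only [Function.comp_apply, hfix, hx1]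

theorem tw_sub {ι κ : Type} [Finite ι] [Finite κ] {b b' : ι → U} {d d' : κ → U}
    {lam : Equiv.Perm (Quotient S)}
    (hm : Nat.card (Quotient S) + Nat.card ι ≤ m) (hk : Nat.card (Quotient S) + Nat.card κ ≤ m)
    (h : tw c x S lam b b') (φ : κ → ι) (hd : ∀ k, d k = b (φ k)) (hd' : ∀ k, d' k = b' (φ k)) :
    tw c x S lam d d' := by
  obtain ⟨z, z', hz, hz', hx, h⟩ := h
  refine ⟨z, z', hz, hz', hx, ?_⟩
  refine c.ofSub h (Sum.map id φ) (by rw [Nat.card_sum]; omega) (by rw [Nat.card_sum]; omega) ?_ ?_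
  · rintro (i | i) <;> simp [hd]
  · rintro (i | i) <;> simp [hd']

theorem tw_inj {ι : Type} [Finite ι] {b b' : ι → U} {lam : Equiv.Perm (Quotient S)}
    (hm : Nat.card (Quotient S) + Nat.card ι ≤ m) (h : tw c x S lam b b') {i j : ι}
    (hij : b i = b j) : b' i = b' j := by
  obtain ⟨z, z', hz, hz', hx, h⟩ := h
  have := c.inj' (by rw [Nat.card_sum]; omega) h (Sum.inr i) (Sum.inr j) (by simpa using hij)
  simpa using this

theorem tw_ext {ι : Type} [Finite ι] {b b' : ι → U} {lam : Equiv.Perm (Quotient S)}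
    (hm : Nat.card (Quotient S) + Nat.card ι + 1 ≤ m) (h : tw c x S lam b b') :
    ∃ π : Equiv.Perm U, ∀ w, tw c x S lam (sn b w) (sn b' (π w)) := by
  obtain ⟨z, z', hz, hz', hx, h⟩ := h
  obtain ⟨π, hπ⟩ := c.ext' (by rw [Nat.card_sum]; omega) h
  refine ⟨π, fun w => ⟨z, z', hz, hz', hx, ?_⟩⟩
  refine c.ofSub (hπ w) (Sum.elim (fun β => some (Sum.inl β))
    (fun o => o.elim none (fun i => some (Sum.inr i)))) ?_ ?_ ?_ ?_
  · rw [Finite.card_option, Nat.card_sum]; omega
  · rw [Nat.card_sum, Finite.card_option]; omega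
  · rintro (i | _ | i) <;> simp
  · rintro (i | _ | i) <;> simp

end

end Pool.Agent.H1MS
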