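import Pool.Agent.H1MS.ClassScheme
import Pool.Agent.H1MS.Finest

set_option autoImplicit false
set_option linter.unusedSectionVars false

/-!
The named scheme on a class of the finest relation is homogeneous, antisymmetric and without
matching.
-/

namespace Pool.Agent.H1MS

variable {U : Type} {m : ℕ}

/-- The finest relation gives data for naming. -/
theorem ndata_fx {c : Sch U m} (hm : 3 ≤ m) (hc : HAN c) (x : U) (S : Setoid U)
    (hSx : ∀ y z, S.r y z ↔ Fx c x y z) : NData c x S := by
  have h1 : S.r = Fx c x := by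
    funext y z
    exact propext (hSx y z)
  refine ⟨?_, ?_⟩
  · rw [h1]
    exact fx_inv c x hm hc
  · intro y hy
    rw [h1] at hy
    exact fx_left c x hm hc hy

/-- Fibres over one point are nontrivial. -/
theorem fib_nontriv {c : Sch U m} (hm : 3 ≤ m) (hc : HAN c) {x y : U} (hy : y ≠ x) :
    ∃ w, w ≠ y ∧ c.r (sn (fun _ : Unit => x) y) (sn (fun _ : Unit => x) w) := by
  have h0 : c.r (sn (emp U) x) (sn (emp U) y) := by
    refine c.ofSub (hc.hom x y) (fun _ => ()) (by simp; omega) (by simp; omega) ?_ ?_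
    · rintro (_ | i)
      · simp
      · exact i.elim
    · rintro (_ | i)
      · simp
      · exact i.elim
  obtain ⟨y'', h1, h2⟩ := hc.nm (emp U) x y (by simp; omega) (Ne.symm hy) h0
  exact ⟨y'', h1, c.pairU_to (by omega) (c.pair_of (by omega) h2)⟩

section

variable [Finite U] {c : Sch U m} {x : U} {S : Setoid U} (hS : NData c x S)

include hS

/-- Having the same named colour and being in the same fibre over `x` is invariant. -/
theorem named_inv (hm5 : 2 * Nat.card (Quotient S) + 5 ≤ m) :
    InvEq c (fun _ : Unit => x) (fun u u' => c.r (sn (fun _ : Unit => x) u)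
      (sn (fun _ : Unit => x) u') ∧ tw c x S 1 (fun _ : Unit => u) (fun _ : Unit => u')) := by
  have hu : Nat.card Unit = 1 := Nat.card_unique
  have hf := fib_inv c (fun _ : Unit => x) (by rw [hu]; omega)
  refine ⟨⟨?_, ?_, ?_⟩, fun _ _ h => h.1, ?_⟩
  · exact fun u => ⟨hf.eqv.refl u, tw_refl hS _ (by rw [hu]; omega)⟩
  · exact fun h => ⟨hf.eqv.symm h.1, tw_symm1 hS (by rw [hu]; omega) h.2⟩
  · exact fun h h' => ⟨hf.eqv.trans h.1 h'.1,
      tw_comp1 hS (by omega) (by rw [hu]; omega) h.2 h'.2⟩
  · rintro y y' z z' h ⟨h1, h2⟩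
    refine ⟨hf.inv _ _ _ _ h h1, ?_⟩
    have ho : Nat.card (Option (Option Unit)) = 3 := by
      rw [Finite.card_option, Finite.card_option, hu]
    have hs : Nat.card (Unit ⊕ (Unit ⊕ Unit)) = 3 := by
      rw [Nat.card_sum, Nat.card_sum, hu]
    refine tw1_inv hS (by omega) (by rw [hu]; omega) (b := fun _ : Unit => y)
      (b' := fun _ : Unit => y') ?_ h2
    refine c.ofSub h (fun s => s.elim (fun u => some (some u))
      (fun s => s.elim (fun _ => some none) (fun _ => none))) (by omega) (by omega) ?_ ?_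
    · rintro (_ | _ | _) <;> simp
    · rintro (_ | _ | _) <;> simp

/-- Points of one class of the finest relation have the same named colour. -/
theorem tw_hom (hc : HAN c) (hSx : ∀ y z, S.r y z ↔ Fx c x y z)
    {σ : ℕ → ℕ} (hH : Hyp c σ) (hσ : ∀ l ≤ m, Nat.card (Equiv.Perm (Quotient S)) < σ l)
    (hm5 : 2 * Nat.card (Quotient S) + 5 ≤ m) {y z : U} (h : S.r y z) :
    tw c x S 1 (fun _ : Unit => y) (fun _ : Unit => z) := by
  have hu : Nat.card Unit = 1 := Nat.card_unique
  by_cases hy : y = x
  · subst hy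
    have := hS.alone z h
    subst this
    exact tw_refl hS _ (by rw [hu]; omega)
  · have hE := named_inv hS hm5
    have hf := fib_inv c (fun _ : Unit => x) (by rw [hu]; omega)
    obtain ⟨w, hw, hw'⟩ := fib_nontriv (by omega) hc hy
    have hbig := hH _ _ (by rw [hu]; omega) hf y w (Ne.symm hw) hw'
    rw [hu] at hbig
    have hlt := hσ 1 (by omega)
    have hwx : ∀ t, c.r (sn (fun _ : Unit => x) y) (sn (fun _ : Unit => x) t) →
        c.r (wx x (fun _ : Unit => y)) (wx x (fun _ : Unit => t)) := by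
      intro t ht
      have ho : Nat.card (Option Unit) = 2 := by rw [Finite.card_option, hu]
      have hs : Nat.card (Unit ⊕ Unit) = 2 := by rw [Nat.card_sum, hu]
      refine c.ofSub ht (fun s => s.elim (fun u => some u) (fun _ => none)) (by omega)
        (by omega) ?_ ?_
      · rintro (_ | _) <;> simp
      · rintro (_ | _) <;> simp
    obtain ⟨t, ht, t', ht', hne, htw⟩ := tw_pigeon hS (fun t => (fun _ : Unit => t))
      (fun _ : Unit => y) {t | c.r (sn (fun _ : Unit => x) y) (sn (fun _ : Unit => x) t)}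
      (by omega) (by rw [hu]; omega) (fun t ht => hwx t ht) (by omega)
    have hEtt : c.r (sn (fun _ : Unit => x) t) (sn (fun _ : Unit => x) t') ∧
        tw c x S 1 (fun _ : Unit => t) (fun _ : Unit => t') :=
      ⟨hf.eqv.trans (hf.eqv.symm ht) ht', htw⟩
    obtain ⟨w2, hw2, hw2'⟩ := InvEq.nonid_of hE (by rw [hu]; omega) (hf.eqv.symm ht)
      ⟨t', hne.symm, hEtt⟩
    exact (((hSx y z).1 h).2 _ hE ⟨w2, hw2, hw2'⟩).2

/-- The named scheme on a class is homogeneous, antisymmetric, without matching. -/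
theorem nmQ_han (hc : HAN c) (hSx : ∀ y z, S.r y z ↔ Fx c x y z)
    {σ : ℕ → ℕ} (hH : Hyp c σ) (hσ : ∀ l ≤ m, Nat.card (Equiv.Perm (Quotient S)) < σ l)
    (β : Quotient S) (m' : ℕ) (hm3 : 3 ≤ m) (hm : 2 * Nat.card (Quotient S) + m' + 1 ≤ m)
    (hm5 : 2 * Nat.card (Quotient S) + m' + 5 ≤ m) : HAN (nmQ hS β m' hm3 hm) := by
  refine ⟨?_, ?_, ?_⟩
  · intro y z
    have h : S.r (y : U) (z : U) := Quotient.exact (y.2.trans z.2.symm)
    exact tw_hom hS hc hSx hH hσ (by omega) h
  · intro ι _ a s hι ha h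
    have h1 : c.r (fun i => (a i : U)) (fun i => (a (s i) : U)) := tw_plain hS (by omega) h
    exact hc.anti (fun i => (a i : U)) s (by omega)
      (fun i j hij => ha (Subtype.ext hij)) h1
  · intro ι _ a y y' hι hne h
    have h1 : tw c x S 1 (sn (fun i => (a i : U)) (y : U)) (sn (fun i => (a i : U)) (y' : U)) := by
      rw [← coe_sn, ← coe_sn]
      exact h
    obtain ⟨w, hw, hw'⟩ := tw_nm hS hc hH hσ hm3 (fun i => (a i : U)) (y : U) (y' : U)
      (by omega) (fun h => hne (Subtype.ext h)) h1
    have ho2 : Nat.card (Option (Option ι)) = Nat.card ι + 2 := by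
      rw [Finite.card_option, Finite.card_option]
    have hcl : Quotient.mk S w = β := by
      have := tw_cls hS hm3 (by omega) hw' none
      simpa [y'.2] using this
    refine ⟨⟨w, hcl⟩, fun h => hw (congrArg Subtype.val h), ?_⟩
    change tw c x S 1 (fun o => ((sn (sn a y) y' o : {y : U // Quotient.mk S y = β}) : U))
      (fun o => ((sn (sn a y) (⟨w, hcl⟩ : {y : U // Quotient.mk S y = β}) o :
        {y : U // Quotient.mk S y = β}) : U))
    rw [coe_sn, coe_sn, coe_sn, coe_sn]
    exact hw'

end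

end Pool.Agent.H1MS
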