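import Mathlib
import Pool.Agent.H1MS.Basic

set_option autoImplicit false

/-!
The m-schemes of Ivanyos, Karpinski and Saxena (MP_91ba6b), their conversion into the abstract
schemes of `Core`, and the final statement.
-/

namespace Pool.Agent.H1MS

/-- Delete the coordinate `i` of a tuple of `s + 1` distinct points. -/
def proj {V : Type} {s : ℕ} (i : Fin (s + 1)) (u : Fin (s + 1) ↪ V) : Fin s ↪ V :=
  ⟨fun k => u (i.succAbove k), u.injective.comp (Fin.succAbove_right_injective (p := i))⟩

/-- An `m`-scheme on the finite set `V` (Ivanyos, Karpinski, Saxena): for every `s` with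
`1 ≤ s ≤ m` a colouring of the tuples of `s` distinct points of `V`, which is compatible,
regular and invariant. (The colours of the tuples of length `0` or more than `m` play no role.) -/
structure MScheme (V : Type) (m : ℕ) where
  /-- the colour of a tuple of `s` distinct points -/
  col : (s : ℕ) → (Fin s ↪ V) → ℕ
  /-- compatibility: deleting a coordinate respects the colours -/
  compatible : ∀ s : ℕ, 1 ≤ s → s + 1 ≤ m → ∀ u v : Fin (s + 1) ↪ V,
    col (s + 1) u = col (s + 1) v → ∀ i : Fin (s + 1), col s (proj i u) = col s (proj i v)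
  /-- regularity: tuples of the same colour have, for each colour `k` of the next level, the same
  number of extensions of colour `k` -/
  regular : ∀ s : ℕ, 1 ≤ s → s + 1 ≤ m → ∀ u v : Fin s ↪ V, col s u = col s v →
    ∀ (i : Fin (s + 1)) (k : ℕ),
      {u' : Fin (s + 1) ↪ V | proj i u' = u ∧ col (s + 1) u' = k}.ncard =
        {v' : Fin (s + 1) ↪ V | proj i v' = v ∧ col (s + 1) v' = k}.ncard
  /-- invariance: permuting the coordinates respects the colours -/
  invariant : ∀ s : ℕ, 1 ≤ s → s ≤ m → ∀ u v : Fin s ↪ V, col s u = col s v →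
    ∀ τ : Equiv.Perm (Fin s), col s (τ.toEmbedding.trans u) = col s (τ.toEmbedding.trans v)

namespace MScheme

variable {V : Type} {m : ℕ}

/-- Homogeneous: all points have the same colour. -/
def Homogeneous (S : MScheme V m) : Prop :=
  ∀ u v : Fin 1 ↪ V, S.col 1 u = S.col 1 v

/-- Antisymmetric: a nontrivial permutation of the coordinates changes the colour. -/
def Antisymmetric (S : MScheme V m) : Prop :=
  ∀ s : ℕ, 2 ≤ s → s ≤ m → ∀ (u : Fin s ↪ V) (τ : Equiv.Perm (Fin s)), τ ≠ 1 →
    S.col s (τ.toEmbedding.trans u) ≠ S.col s u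

/-- A matching: a colour class `P` (the class of `w`) of a level `s + 1` with `2 ≤ s + 1 ≤ m` and
two coordinates `i < j` such that deleting `i` and deleting `j` give the same set of tuples, and
this set has as many elements as `P`. -/
def HasMatching (S : MScheme V m) : Prop :=
  ∃ s : ℕ, 1 ≤ s ∧ s + 1 ≤ m ∧ ∃ (w : Fin (s + 1) ↪ V) (i j : Fin (s + 1)), i < j ∧
    proj i '' {u | S.col (s + 1) u = S.col (s + 1) w} =
      proj j '' {u | S.col (s + 1) u = S.col (s + 1) w} ∧
    (proj i '' {u | S.col (s + 1) u = S.col (s + 1) w}).ncard =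
      {u | S.col (s + 1) u = S.col (s + 1) w}.ncard

end MScheme

section tuples

variable {V : Type}

theorem emb_zero_eq {s : ℕ} (hs : s = 0) (u v : Fin s ↪ V) : u = v := by
  subst hs
  ext k
  exact k.elim0

/-- Append a new point to a tuple of distinct points. -/
def snocE {s : ℕ} (u : Fin s ↪ V) (z : V) (hz : ∀ k, u k ≠ z) : Fin (s + 1) ↪ V :=
  ⟨Fin.snoc (α := fun _ => V) u z, by
    intro k l h
    refine Fin.lastCases ?_ (fun k' => ?_) k (motive := fun k => Fin.snoc (α := fun _ => V) u z k =
      Fin.snoc (α := fun _ => V) u z l → k = l) h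
    · refine Fin.lastCases ?_ (fun l' => ?_) l (motive := fun l =>
        Fin.snoc (α := fun _ => V) u z (Fin.last s) = Fin.snoc (α := fun _ => V) u z l →
          Fin.last s = l)
      · intro _; rfl
      · intro h1
        rw [Fin.snoc_last, Fin.snoc_castSucc] at h1
        exact absurd h1.symm (hz l')
    · refine Fin.lastCases ?_ (fun l' => ?_) l (motive := fun l =>
        Fin.snoc (α := fun _ => V) u z (Fin.castSucc k') = Fin.snoc (α := fun _ => V) u z l →
          Fin.castSucc k' = l)
      · intro h1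
        rw [Fin.snoc_last, Fin.snoc_castSucc] at h1
        exact absurd h1 (hz k')
      · intro h1
        rw [Fin.snoc_castSucc, Fin.snoc_castSucc] at h1
        rw [u.injective h1]⟩

@[simp] theorem snocE_last {s : ℕ} (u : Fin s ↪ V) (z : V) (hz : ∀ k, u k ≠ z) :
    snocE u z hz (Fin.last s) = z := by
  show Fin.snoc (α := fun _ => V) u z (Fin.last s) = z
  rw [Fin.snoc_last]

@[simp] theorem snocE_castSucc {s : ℕ} (u : Fin s ↪ V) (z : V) (hz : ∀ k, u k ≠ z) (k : Fin s) :
    snocE u z hz (Fin.castSucc k) = u k := by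
  show Fin.snoc (α := fun _ => V) u z (Fin.castSucc k) = u k
  rw [Fin.snoc_castSucc]

theorem proj_last {s : ℕ} (u : Fin s ↪ V) (z : V) (hz : ∀ k, u k ≠ z) :
    proj (Fin.last s) (snocE u z hz) = u := by
  ext k
  show snocE u z hz ((Fin.last s).succAbove k) = u k
  rw [Fin.succAbove_last, snocE_castSucc]

theorem last_ne {s : ℕ} (w : Fin (s + 1) ↪ V) (k : Fin s) :
    (proj (Fin.last s) w) k ≠ w (Fin.last s) := by
  show w ((Fin.last s).succAbove k) ≠ w (Fin.last s)
  rw [Fin.succAbove_last]
  intro h
  exact absurd (w.injective h) (Fin.castSucc_lt_last k).ne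

theorem eq_snocE {s : ℕ} (w : Fin (s + 1) ↪ V) {u : Fin s ↪ V} (h : proj (Fin.last s) w = u)
    (hz : ∀ k, u k ≠ w (Fin.last s)) : w = snocE u (w (Fin.last s)) hz := by
  subst h
  ext k
  refine Fin.lastCases ?_ (fun k' => ?_) k
  · rw [snocE_last]
  · rw [snocE_castSucc]
    show _ = w ((Fin.last s).succAbove k')
    rw [Fin.succAbove_last]

theorem snocE_congr {s : ℕ} (u : Fin s ↪ V) {z z' : V} (h : z = z') (hz : ∀ k, u k ≠ z)
    (hz' : ∀ k, u k ≠ z') : snocE u z hz = snocE u z' hz' := by
  subst h
  rfl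

theorem exists_enum {ι : Type} [Finite ι] (a : ι → V) :
    ∃ (s : ℕ) (e : Fin s → ι), s ≤ Nat.card ι ∧ Function.Injective (a ∘ e) ∧
      (∀ i, ∃ k, a (e k) = a i) ∧ (Nonempty ι → 1 ≤ s) := by
  obtain ⟨s, ⟨f⟩⟩ := Finite.exists_equiv_fin (Set.range a)
  have hg : ∀ r : Set.range a, ∃ i, a i = r := fun r => r.2
  choose g hg using hg
  refine ⟨s, fun k => g (f.symm k), ?_, ?_, ?_, ?_⟩
  · have h1 : Nat.card (Set.range a) = s := by
      rw [Nat.card_congr f, Nat.card_fin]
    rw [← h1]
    exact Finite.card_range_le a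
  · intro k l h
    have h1 : (a (g (f.symm k))) = a (g (f.symm l)) := h
    rw [hg, hg] at h1
    exact f.symm.injective (Subtype.ext h1)
  · intro i
    refine ⟨f ⟨a i, i, rfl⟩, ?_⟩
    rw [hg, Equiv.symm_apply_apply]
  · rintro ⟨i⟩
    have := (f ⟨a i, i, rfl⟩).pos
    omega

end tuples

namespace MScheme

variable {V : Type} {m : ℕ} (S : MScheme V m)

theorem subcol : ∀ (t : ℕ), t ≤ m → ∀ u v : Fin t ↪ V, S.col t u = S.col t v →
    ∀ (s : ℕ) (φ : Fin s ↪ Fin t), S.col s (φ.trans u) = S.col s (φ.trans v) := by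
  intro t
  induction t with
  | zero =>
    intro _ u v _ s φ
    have hs : s = 0 := by
      rcases Nat.eq_zero_or_pos s with h | h
      · exact h
      · exact (φ ⟨0, h⟩).elim0
    rw [emb_zero_eq hs (φ.trans u) (φ.trans v)]
  | succ t ih =>
    intro ht u v h s φ
    by_cases hs : s = t + 1
    · subst hs
      have hb : Function.Bijective φ := Finite.injective_iff_bijective.1 φ.injective
      have h1 := S.invariant (t + 1) (by omega) ht u v h (Equiv.ofBijective φ hb)
      have h2 : ∀ x : Fin (t + 1) ↪ V,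
          (Equiv.ofBijective φ hb).toEmbedding.trans x = φ.trans x := by
        intro x
        ext k
        rfl
      rw [h2, h2] at h1
      exact h1
    · have hle : s ≤ t + 1 := by
        have := Fintype.card_le_of_embedding φ
        simpa using this
      rcases Nat.eq_zero_or_pos s with h0 | hpos
      · rw [emb_zero_eq h0 (φ.trans u) (φ.trans v)]
      have hns : ¬ Function.Surjective φ := by
        intro hsur
        have := Fintype.card_le_of_surjective φ hsur
        simp at this
        omega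
      obtain ⟨i, hi⟩ : ∃ i, ∀ k, φ k ≠ i := by
        by_contra hcon
        push Not at hcon
        exact hns hcon
      have hex : ∀ k, ∃ z, i.succAbove z = φ k := fun k => Fin.exists_succAbove_eq (hi k)
      choose φ' hφ' using hex
      have hinj : Function.Injective φ' := by
        intro k l hkl
        apply φ.injective
        rw [← hφ' k, ← hφ' l, hkl]
      have h1 := ih (by omega) (proj i u) (proj i v)
        (S.compatible t (by omega) ht u v h i) s ⟨φ', hinj⟩
      have h2 : ∀ x : Fin (t + 1) ↪ V,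
          (⟨φ', hinj⟩ : Fin s ↪ Fin t).trans (proj i x) = φ.trans x := by
        intro x
        ext k
        show x (i.succAbove (φ' k)) = x (φ k)
        rw [hφ' k]
      rw [h2, h2] at h1
      exact h1

/-- The relation on arbitrary tuples given by an `m`-scheme. -/
def rel {ι : Type} (a b : ι → V) : Prop :=
  (∀ i j, a i = a j ↔ b i = b j) ∧
    ∀ s : ℕ, s ≤ m → ∀ (e : Fin s → ι) (ha : Function.Injective (a ∘ e))
      (hb : Function.Injective (b ∘ e)), S.col s ⟨a ∘ e, ha⟩ = S.col s ⟨b ∘ e, hb⟩

theorem inj_of_rel {ι κ : Type} {a b : ι → V} (h : ∀ i j, a i = a j ↔ b i = b j) (e : κ → ι)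
    (ha : Function.Injective (a ∘ e)) : Function.Injective (b ∘ e) := by
  intro k l hkl
  exact ha ((h _ _).2 hkl)

theorem rel_refl {ι : Type} (a : ι → V) : S.rel a a :=
  ⟨fun _ _ => Iff.rfl, fun _ _ _ _ _ => rfl⟩

theorem rel_symm {ι : Type} {a b : ι → V} (h : S.rel a b) : S.rel b a :=
  ⟨fun i j => (h.1 i j).symm, fun s hs e ha hb => (h.2 s hs e hb ha).symm⟩

theorem rel_trans {ι : Type} {a b d : ι → V} (h : S.rel a b) (h' : S.rel b d) : S.rel a d :=
  ⟨fun i j => (h.1 i j).trans (h'.1 i j), fun s hs e ha hd =>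
    (h.2 s hs e ha (inj_of_rel h.1 e ha)).trans (h'.2 s hs e (inj_of_rel h.1 e ha) hd)⟩

theorem rel_sub {ι κ : Type} (φ : κ → ι) {a b : ι → V} (h : S.rel a b) :
    S.rel (a ∘ φ) (b ∘ φ) :=
  ⟨fun i j => h.1 (φ i) (φ j), fun s hs e ha hb => h.2 s hs (φ ∘ e) ha hb⟩

theorem rel_of_col {t : ℕ} (ht : t ≤ m) {u v : Fin t ↪ V} (h : S.col t u = S.col t v)
    {κ : Type} (ψ : κ → Fin t) {a b : κ → V} (ha : ∀ k, a k = u (ψ k))
    (hb : ∀ k, b k = v (ψ k)) : S.rel a b := by
  have h1 : a = u ∘ ψ := funext ha
  have h2 : b = v ∘ ψ := funext hb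
  subst h1
  subst h2
  refine ⟨fun i j => ?_, fun s _ e he he' => ?_⟩
  · simp only [Function.comp_apply]
    rw [u.injective.eq_iff, v.injective.eq_iff]
  · have hinj : Function.Injective (ψ ∘ e) := by
      intro k l hkl
      apply he
      simp only [Function.comp_apply] at hkl ⊢
      rw [hkl]
    exact S.subcol t ht u v h s ⟨ψ ∘ e, hinj⟩

theorem rel_ext [Finite V] {ι : Type} [Finite ι] {a b : ι → V} (hι : Nat.card ι + 1 ≤ m)
    (h : S.rel a b) : ∃ π : Equiv.Perm V, ∀ z, S.rel (sn a z) (sn b (π z)) := by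
  classical
  rcases isEmpty_or_nonempty ι with hE | hN
  · refine ⟨1, fun z => ?_⟩
    have hab : a = b := Subsingleton.elim _ _
    rw [hab]
    exact S.rel_refl _
  obtain ⟨s, e, hs, hae, hen, hs1⟩ := exists_enum a
  have hs1 := hs1 hN
  have hbe : Function.Injective (b ∘ e) := inj_of_rel h.1 e hae
  obtain ⟨u, hu⟩ : ∃ u : Fin s ↪ V, u = ⟨a ∘ e, hae⟩ := ⟨_, rfl⟩
  obtain ⟨v, hv⟩ : ∃ v : Fin s ↪ V, v = ⟨b ∘ e, hbe⟩ := ⟨_, rfl⟩
  have huk : ∀ k, u k = a (e k) := by intro k; rw [hu]; rfl
  have hvk : ∀ k, v k = b (e k) := by intro k; rw [hv]; rfl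
  have huv : S.col s u = S.col s v := by
    rw [hu, hv]
    exact h.2 s (by omega) e hae hbe
  -- labels
  let lab : (Fin s ↪ V) → V → Fin s ⊕ ℕ := fun u z =>
    if h : ∃ k, u k = z then Sum.inl h.choose
    else Sum.inr (S.col (s + 1) (snocE u z (by push Not at h; exact h)))
  have lab_in : ∀ (u : Fin s ↪ V) (k : Fin s), lab u (u k) = Sum.inl k := by
    intro u k
    have hk : ∃ k', u k' = u k := ⟨k, rfl⟩
    simp only [lab]
    rw [dif_pos hk]
    congr 1
    exact u.injective hk.choose_spec
  have lab_out : ∀ (u : Fin s ↪ V) (z : V) (hz : ∀ k, u k ≠ z),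
      lab u z = Sum.inr (S.col (s + 1) (snocE u z hz)) := by
    intro u z hz
    have hk : ¬ ∃ k, u k = z := by push Not; exact hz
    simp only [lab]
    rw [dif_neg hk]
  have lab_inl : ∀ (u : Fin s ↪ V) (z : V) (k : Fin s), lab u z = Sum.inl k → z = u k := by
    intro u z k hz
    by_cases hk : ∃ k', u k' = z
    · obtain ⟨k', rfl⟩ := hk
      rw [lab_in] at hz
      rw [Sum.inl.inj hz]
    · push Not at hk
      rw [lab_out u z hk] at hz
      exact absurd hz (by simp)
  have lab_inr : ∀ (u : Fin s ↪ V) (z : V) (k : ℕ), lab u z = Sum.inr k →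
      ∃ hz : ∀ k, u k ≠ z, S.col (s + 1) (snocE u z hz) = k := by
    intro u z k hz
    by_cases hk : ∃ k', u k' = z
    · obtain ⟨k', rfl⟩ := hk
      rw [lab_in] at hz
      exact absurd hz (by simp)
    · push Not at hk
      rw [lab_out u z hk] at hz
      exact ⟨hk, Sum.inr.inj hz⟩
  have hfib : ∀ (u : Fin s ↪ V) (k : ℕ), Nat.card {z // lab u z = Sum.inr k} =
      {u' : Fin (s + 1) ↪ V | proj (Fin.last s) u' = u ∧ S.col (s + 1) u' = k}.ncard := by
    intro u k
    rw [← Nat.card_coe_set_eq]
    refine Nat.card_congr ?_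
    refine ⟨fun z => ⟨snocE u z.1 (lab_inr u z.1 k z.2).choose, ?_, ?_⟩,
      fun w => ⟨w.1 (Fin.last s), ?_⟩, ?_, ?_⟩
    · exact proj_last _ _ _
    · exact (lab_inr u z.1 k z.2).choose_spec
    · obtain ⟨w, hw1, hw2⟩ := w
      have hz : ∀ j, u j ≠ w (Fin.last s) := by
        intro j
        rw [← hw1]
        exact last_ne w j
      rw [lab_out u _ hz, ← eq_snocE w hw1 hz, hw2]
    · intro z
      apply Subtype.ext
      simp
    · intro w
      apply Subtype.ext
      obtain ⟨w, hw1, hw2⟩ := w
      have hz : ∀ j, u j ≠ w (Fin.last s) := by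
        intro j
        rw [← hw1]
        exact last_ne w j
      exact (eq_snocE w hw1 hz).symm
  have hcard : ∀ l : Fin s ⊕ ℕ, Nat.card {z // lab u z = l} = Nat.card {z // lab v z = l} := by
    rintro (k | k)
    · have h1 : ∀ u : Fin s ↪ V, Nat.card {z // lab u z = Sum.inl k} = 1 := by
        intro u
        rw [Nat.card_eq_one_iff_unique]
        refine ⟨⟨fun x y => Subtype.ext ?_⟩, ⟨⟨u k, lab_in u k⟩⟩⟩
        rw [lab_inl u _ _ x.2, lab_inl u _ _ y.2]
      rw [h1, h1]
    · rw [hfib, hfib]
      exact S.regular s hs1 (by omega) u v huv (Fin.last s) k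
  let E : ∀ l : Fin s ⊕ ℕ, {z // lab u z = l} ≃ {z // lab v z = l} := fun l =>
    (Finite.card_eq.1 (hcard l)).some
  refine ⟨Equiv.ofFiberEquiv E, fun z => ?_⟩
  have hπ : lab v (Equiv.ofFiberEquiv E z) = lab u z := Equiv.ofFiberEquiv_map E z
  by_cases hk : ∃ k, u k = z
  · obtain ⟨k, rfl⟩ := hk
    rw [lab_in] at hπ
    have h1 := lab_inl v _ k hπ
    rw [h1]
    have h2 : sn a (u k) = a ∘ (fun o : Option ι => o.elim (e k) id) := by
      funext o
      cases o with
      | none => simp [huk]
      | some i => simp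
    have h3 : sn b (v k) = b ∘ (fun o : Option ι => o.elim (e k) id) := by
      funext o
      cases o with
      | none => simp [hvk]
      | some i => simp
    rw [h2, h3]
    exact S.rel_sub _ h
  · push Not at hk
    rw [lab_out u z hk] at hπ
    obtain ⟨hz', hcol⟩ := lab_inr v _ _ hπ
    choose κ hκ using hen
    refine S.rel_of_col (t := s + 1) (by omega) hcol.symm
      (fun o : Option ι => o.elim (Fin.last s) (fun i => Fin.castSucc (κ i))) ?_ ?_
    · rintro (_ | i)
      · simp
      · simp only [sn_some, Option.elim_some, snocE_castSucc]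
        rw [huk, hκ]
    · rintro (_ | i)
      · simp
      · simp only [sn_some, Option.elim_some, snocE_castSucc]
        rw [hvk]
        exact ((h.1 _ _).1 (hκ i)).symm

/-- The abstract scheme of an `m`-scheme. -/
def toSch [Finite V] : Sch V m where
  r := fun {_} a b => S.rel a b
  rfl' := fun a _ => S.rel_refl a
  symm' := fun _ h => S.rel_symm h
  trans' := fun _ h h' => S.rel_trans h h'
  sub' := fun φ _ _ _ _ h => S.rel_sub φ h
  inj' := fun _ h i j hij => (h.1 i j).1 hij
  ext' := fun hι h => S.rel_ext hι h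

theorem toSch_han [Finite V] (hh : S.Homogeneous) (ha : S.Antisymmetric)
    (hm : ¬ S.HasMatching) : HAN S.toSch := by
  classical
  refine ⟨?_, ?_, ?_⟩
  · intro x y
    refine ⟨fun i j => by simp, fun s _ e he he' => ?_⟩
    rcases s with _ | _ | s
    · rw [emb_zero_eq rfl ⟨_, he⟩ ⟨_, he'⟩]
    · exact hh _ _
    · exact absurd (@he 0 1 rfl) (by simp)
  · intro ι _ a σ hι hinj h
    by_contra hσ
    have h : S.rel a (a ∘ σ) := h
    obtain ⟨e⟩ : Nonempty (Fin (Nat.card ι) ≃ ι) := ⟨(Finite.equivFin ι).symm⟩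
    have h2 : 2 ≤ Nat.card ι := by
      by_contra hlt
      push Not at hlt
      apply hσ
      have : Subsingleton ι := by
        rw [← Finite.card_le_one_iff_subsingleton]
        omega
      exact Subsingleton.elim _ _
    have hae : Function.Injective (a ∘ e) := hinj.comp e.injective
    have hbe : Function.Injective ((a ∘ σ) ∘ e) := (hinj.comp σ.injective).comp e.injective
    have h3 := h.2 (Nat.card ι) hι e hae hbe
    let τ : Equiv.Perm (Fin (Nat.card ι)) := e.trans (σ.trans e.symm)
    have h4 : (⟨(a ∘ σ) ∘ e, hbe⟩ : Fin (Nat.card ι) ↪ V) = τ.toEmbedding.trans ⟨a ∘ e, hae⟩ := by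
      ext k
      show a (σ (e k)) = a (e (e.symm (σ (e k))))
      rw [Equiv.apply_symm_apply]
    have h5 : τ ≠ 1 := by
      intro h6
      apply hσ
      ext i
      have h7 : τ (e.symm i) = e.symm i := by rw [h6]; rfl
      have h8 : e.symm (σ i) = e.symm i := by
        simpa [τ] using h7
      exact e.symm.injective h8
    rw [h4] at h3
    exact ha _ h2 hι _ τ h5 h3.symm
  · intro ι _ a y y' hι hyy h
    have h : S.rel (sn a y) (sn a y') := h
    by_contra hcon
    have hcon : ∀ y'', y'' ≠ y' → ¬ S.rel (sn (sn a y) y') (sn (sn a y) y'') := by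
      intro y'' h1 h2
      exact hcon ⟨y'', h1, h2⟩
    apply hm
    obtain ⟨s, e, hs, hae, hen, -⟩ := exists_enum a
    obtain ⟨u, hu⟩ : ∃ u : Fin s ↪ V, u = ⟨a ∘ e, hae⟩ := ⟨_, rfl⟩
    have huk : ∀ k, u k = a (e k) := by intro k; rw [hu]; rfl
    have hy : ∀ k, u k ≠ y := by
      intro k hk
      rw [huk] at hk
      have h1 := (h.1 (some (e k)) none).1 (by simpa using hk)
      simp only [sn_some, sn_none] at h1
      exact hyy (hk.symm.trans h1)
    have hy' : ∀ k, u k ≠ y' := by
      intro k hk
      rw [huk] at hk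
      have h1 := (h.1 (some (e k)) none).2 (by simpa using hk)
      simp only [sn_some, sn_none] at h1
      exact hyy (h1.symm.trans hk)
    have hcol1 : S.col (s + 1) (snocE u y hy) = S.col (s + 1) (snocE u y' hy') := by
      let e' : Fin (s + 1) → Option ι := Fin.snoc (α := fun _ => Option ι) (fun k => some (e k)) none
      have h1 : ∀ (x : V) (hx : ∀ k, u k ≠ x), sn a x ∘ e' = snocE u x hx := by
        intro x hx
        funext k
        refine Fin.lastCases ?_ (fun k' => ?_) k
        · simp [e']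
        · simp [e', huk]
      have h2 : Function.Injective (sn a y ∘ e') := by
        rw [h1 y hy]
        exact (snocE u y hy).injective
      have h3 : Function.Injective (sn a y' ∘ e') := by
        rw [h1 y' hy']
        exact (snocE u y' hy').injective
      have h4 := h.2 (s + 1) (by omega) e' h2 h3
      have h5 : (⟨sn a y ∘ e', h2⟩ : Fin (s + 1) ↪ V) = snocE u y hy := by
        ext k
        exact congrFun (h1 y hy) k
      have h6 : (⟨sn a y' ∘ e', h3⟩ : Fin (s + 1) ↪ V) = snocE u y' hy' := by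
        ext k
        exact congrFun (h1 y' hy') k
      rw [h5, h6] at h4
      exact h4
    have hy2 : ∀ k, snocE u y hy k ≠ y' := by
      intro k
      refine Fin.lastCases ?_ (fun k' => ?_) k
      · rw [snocE_last]
        exact hyy
      · rw [snocE_castSucc]
        exact hy' k'
    obtain ⟨w, hw⟩ : ∃ w : Fin (s + 1 + 1) ↪ V, w = snocE (snocE u y hy) y' hy2 := ⟨_, rfl⟩
    have hpj : proj (Fin.last (s + 1)) w = snocE u y hy := by
      rw [hw]
      exact proj_last _ _ _
    have hpi : proj (Fin.castSucc (Fin.last s)) w = snocE u y' hy' := by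
      rw [hw]
      ext k
      show snocE (snocE u y hy) y' hy2 ((Fin.castSucc (Fin.last s)).succAbove k) = _
      refine Fin.lastCases ?_ (fun k' => ?_) k
      · rw [Fin.succAbove_of_le_castSucc _ _ le_rfl, Fin.succ_last, snocE_last, snocE_last]
      · rw [Fin.succAbove_of_castSucc_lt _ _ (by
          rw [Fin.castSucc_lt_castSucc_iff]
          exact Fin.castSucc_lt_last k'), snocE_castSucc, snocE_castSucc, snocE_castSucc]
    have hm2 : s + 1 + 1 ≤ m := by omega
    have himg : ∀ i0 : Fin (s + 1 + 1),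
        S.col (s + 1) (proj i0 w) = S.col (s + 1) (snocE u y hy) →
        proj i0 '' {x | S.col (s + 1 + 1) x = S.col (s + 1 + 1) w} =
          {q | S.col (s + 1) q = S.col (s + 1) (snocE u y hy)} := by
      intro i0 hi0
      ext q
      constructor
      · rintro ⟨x, hx, rfl⟩
        exact (S.compatible (s + 1) (by omega) hm2 x w hx i0).trans hi0
      · intro hq
        have h1 := S.regular (s + 1) (by omega) hm2 q (proj i0 w) (Eq.trans hq hi0.symm) i0
          (S.col (s + 1 + 1) w)
        have h2 : 0 < {v' : Fin (s + 1 + 1) ↪ V | proj i0 v' = proj i0 w ∧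
            S.col (s + 1 + 1) v' = S.col (s + 1 + 1) w}.ncard := by
          rw [Set.ncard_pos]
          exact ⟨w, rfl, rfl⟩
        rw [← h1, Set.ncard_pos] at h2
        obtain ⟨x, hx1, hx2⟩ := h2
        exact ⟨x, hx2, hx1⟩
    have hI := himg (Fin.castSucc (Fin.last s)) (by rw [hpi]; exact hcol1.symm)
    have hJ := himg (Fin.last (s + 1)) (by rw [hpj])
    refine ⟨s + 1, by omega, hm2, w, Fin.castSucc (Fin.last s), Fin.last (s + 1),
      Fin.castSucc_lt_last _, hI.trans hJ.symm, ?_⟩
    rw [hI, ← hJ]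
    apply Set.InjOn.ncard_image
    -- the fibre of the last projection over (a, y) is a single tuple
    have hfib : {x : Fin (s + 1 + 1) ↪ V | proj (Fin.last (s + 1)) x = snocE u y hy ∧
        S.col (s + 1 + 1) x = S.col (s + 1 + 1) w} = {w} := by
      ext x
      simp only [Set.mem_ofPred_eq, Set.mem_singleton_iff]
      constructor
      · rintro ⟨hx1, hx2⟩
        have hz : ∀ j, snocE u y hy j ≠ x (Fin.last (s + 1)) := by
          intro j
          rw [← hx1]
          exact last_ne x j
        have hx3 := eq_snocE x hx1 hz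
        by_cases hlast : x (Fin.last (s + 1)) = y'
        · rw [hx3, hw]
          exact snocE_congr _ hlast _ _
        · exfalso
          refine hcon _ hlast ?_
          choose κ hκ using hen
          refine S.rel_of_col (t := s + 1 + 1) hm2 hx2.symm
            (fun o : Option (Option ι) => o.elim (Fin.last (s + 1))
              (fun o => o.elim (Fin.castSucc (Fin.last s))
                (fun i => Fin.castSucc (Fin.castSucc (κ i))))) ?_ ?_
          · rintro (_ | _ | i)
            · rw [hw]; simp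
            · rw [hw]; simp
            · rw [hw]
              simp only [sn_some, Option.elim_some, snocE_castSucc]
              rw [huk, hκ]
          · rintro (_ | _ | i)
            · simp
            · rw [hx3]; simp
            · rw [hx3]
              simp only [sn_some, Option.elim_some, snocE_castSucc]
              rw [huk, hκ]
      · rintro rfl
        exact ⟨hpj, rfl⟩
    intro x1 hx1 x2 hx2 h12
    have h1 : S.col (s + 1) (proj (Fin.last (s + 1)) x1) = S.col (s + 1) (snocE u y hy) := by
      rw [← hpj]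
      exact S.compatible (s + 1) (by omega) hm2 x1 w hx1 _
    have h2 := S.regular (s + 1) (by omega) hm2 _ _ h1 (Fin.last (s + 1)) (S.col (s + 1 + 1) w)
    rw [hfib, Set.ncard_singleton, Set.ncard_eq_one] at h2
    obtain ⟨x0, hx0⟩ := h2
    have h3 : x1 ∈ ({x0} : Set (Fin (s + 1 + 1) ↪ V)) := by
      rw [← hx0]
      exact ⟨rfl, hx1⟩
    have h4 : x2 ∈ ({x0} : Set (Fin (s + 1 + 1) ↪ V)) := by
      rw [← hx0]
      exact ⟨h12.symm, hx2⟩
    rw [Set.mem_singleton_iff] at h3 h4
    rw [h3, h4]

end MScheme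

/-- The statement of the main bound for abstract schemes. -/
def MainBound : Prop :=
  ∀ D : ℕ, ∃ C : ℕ, ∀ (m : ℕ) (U : Type) [Finite U] (c : Sch U m), HAN c → 2 ≤ Nat.card U →
    D ^ m ≤ C * Nat.card U

/-- The number of levels of a homogeneous antisymmetric scheme without matching. -/
theorem levels_of_mainBound (h : MainBound) (c : ℝ) (hc : 0 < c) :
    ∃ C : ℝ, ∀ (V : Type) [Finite V] (m : ℕ) (S : MScheme V m), 2 ≤ Nat.card V →
      S.Homogeneous → S.Antisymmetric → ¬ S.HasMatching →
        (m : ℝ) ≤ c * Real.log (Nat.card V) + C := by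
  obtain ⟨D, hD⟩ := exists_nat_ge (Real.exp (1 / c))
  obtain ⟨C, hC⟩ := h D
  have hD1 : (1 : ℝ) < D := lt_of_lt_of_le (Real.one_lt_exp_iff.2 (by positivity)) hD
  have hlogD : 1 / c ≤ Real.log D := by
    rw [Real.le_log_iff_exp_le (by linarith)]
    exact hD
  have hlogD0 : 0 < Real.log D := Real.log_pos hD1
  refine ⟨c * |Real.log C|, fun V _ m S hV hh ha hm => ?_⟩
  have h1 := hC m V S.toSch (S.toSch_han hh ha hm) hV
  have hC0 : 0 < C := by
    rcases Nat.eq_zero_or_pos C with h0 | h0
    · rw [h0, zero_mul] at h1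
      have hDpos : 0 < D := by
        have : (0 : ℝ) < D := by linarith
        exact_mod_cast this
      have := pow_pos hDpos m
      omega
    · exact h0
  have hV0 : (0 : ℝ) < Nat.card V := by
    have : 0 < Nat.card V := by omega
    exact_mod_cast this
  have hC0' : (0 : ℝ) < C := by exact_mod_cast hC0
  have h2 : ((D : ℝ)) ^ m ≤ C * Nat.card V := by exact_mod_cast h1
  have h3 : m * Real.log D ≤ Real.log C + Real.log (Nat.card V) := by
    rw [← Real.log_pow, ← Real.log_mul hC0'.ne' hV0.ne']
    exact Real.log_le_log (by positivity) h2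
  have h4 : (m : ℝ) * (1 / c) ≤ m * Real.log D :=
    mul_le_mul_of_nonneg_left hlogD (Nat.cast_nonneg m)
  have h5 : (m : ℝ) ≤ c * (Real.log C + Real.log (Nat.card V)) := by
    have h6 : (m : ℝ) * (1 / c) ≤ Real.log C + Real.log (Nat.card V) := h4.trans h3
    have h7 := mul_le_mul_of_nonneg_left h6 hc.le
    calc (m : ℝ) = c * (m * (1 / c)) := by field_simp
      _ ≤ _ := h7
  have h8 : c * Real.log C ≤ c * |Real.log C| :=
    mul_le_mul_of_nonneg_left (le_abs_self _) hc.le
  calc (m : ℝ) ≤ c * (Real.log C + Real.log (Nat.card V)) := h5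
    _ = c * Real.log (Nat.card V) + c * Real.log C := by ring
    _ ≤ _ := by linarith

/-- The final statement, from the main bound: `m = o(log n)`. -/
theorem result_of_mainBound (h : MainBound) :
    ∀ c : ℝ, 0 < c → ∃ C : ℝ, ∀ (n m : ℕ) (S : MScheme (Fin n) m), 2 ≤ n →
      S.Homogeneous → S.Antisymmetric → ¬ S.HasMatching → (m : ℝ) ≤ c * Real.log n + C := by
  intro c hc
  obtain ⟨C, hC⟩ := levels_of_mainBound h c hc
  refine ⟨C, fun n m S hn hh ha hm => ?_⟩
  have h1 := hC (Fin n) m S (by rw [Nat.card_fin]; exact hn) hh ha hm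
  rw [Nat.card_fin] at h1
  exact h1

end Pool.Agent.H1MS
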