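import Pool.Agent.H1MS.Named
import Pool.Agent.H1MS.Finest

set_option autoImplicit false
set_option linter.unusedSectionVars false

/-!
Colours of triples and the blocks over a point.
-/

namespace Pool.Agent.H1MS

variable {U : Type} {m : ℕ}

/-- The image under `f` has at most as many elements as the image under a finer map `g`. -/
theorem ncard_image_le_of_factor {α β γ : Type} (s : Set α) (f : α → β) (g : α → γ)
    (hfin : (g '' s).Finite) (h : ∀ a ∈ s, ∀ b ∈ s, g a = g b → f a = f b) :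
    (f '' s).ncard ≤ (g '' s).ncard := by
  classical
  rcases s.eq_empty_or_nonempty with rfl | ⟨a0, ha0⟩
  · simp
  have hne : Nonempty α := ⟨a0⟩
  have hch : ∀ y ∈ g '' s, ∃ a ∈ s, g a = y := fun y hy => hy
  choose! k hk1 hk2 using hch
  have : f '' s ⊆ (fun y => f (k y)) '' (g '' s) := by
    rintro _ ⟨a, ha, rfl⟩
    refine ⟨g a, ⟨a, ha, rfl⟩, ?_⟩
    exact h _ (hk1 _ ⟨a, ha, rfl⟩) _ ha (hk2 _ ⟨a, ha, rfl⟩)
  exact (Set.ncard_le_ncard this (hfin.image _)).trans (Set.ncard_image_le hfin)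

namespace Sch

variable (c : Sch U m)

theorem sub4 {f g : Fin 4 → U} (hm : 4 ≤ m) (h : c.r f g) (i j k : Fin 4) :
    c.r ![f i, f j, f k] ![g i, g j, g k] := by
  refine c.ofSub h (![i, j, k] : Fin 3 → Fin 4) (by simpa using hm) (by simp; omega) ?_ ?_
  · intro k; fin_cases k <;> simp
  · intro k; fin_cases k <;> simp

theorem sub5 {f g : Fin 5 → U} (hm : 5 ≤ m) (h : c.r f g) (i j k : Fin 5) :
    c.r ![f i, f j, f k] ![g i, g j, g k] := by
  refine c.ofSub h (![i, j, k] : Fin 3 → Fin 5) (by simpa using hm) (by simp; omega) ?_ ?_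
  · intro k; fin_cases k <;> simp
  · intro k; fin_cases k <;> simp

theorem ext3 {a b d a' b' d' : U} (hm : 4 ≤ m) (h : c.r ![a, b, d] ![a', b', d']) (u : U) :
    ∃ u', c.r ![a, b, d, u] ![a', b', d', u'] := by
  obtain ⟨u', hu'⟩ := c.ext1 (by simpa using hm) h u
  refine ⟨u', ?_⟩
  refine c.ofSub hu' (![some 0, some 1, some 2, none] : Fin 4 → Option (Fin 3))
    (by simpa using hm) (by simpa using hm) ?_ ?_
  · intro k; fin_cases k <;> simp
  · intro k; fin_cases k <;> simp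

theorem ext4 {f g : Fin 4 → U} (hm : 5 ≤ m) (h : c.r f g) (u : U) :
    ∃ u', c.r ![f 0, f 1, f 2, f 3, u] ![g 0, g 1, g 2, g 3, u'] := by
  obtain ⟨u', hu'⟩ := c.ext1 (by simpa using hm) h u
  refine ⟨u', ?_⟩
  refine c.ofSub hu' (![some 0, some 1, some 2, some 3, none] : Fin 5 → Option (Fin 4))
    (by simpa using hm) (by simpa using hm) ?_ ?_
  · intro k; fin_cases k <;> simp
  · intro k; fin_cases k <;> simp

theorem symm3 {f g : Fin 3 → U} (hm : 3 ≤ m) (h : c.r f g) : c.r g f :=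
  c.symm' (by simpa using hm) h

theorem trans3 {f g k : Fin 3 → U} (hm : 3 ≤ m) (h : c.r f g) (h' : c.r g k) : c.r f k :=
  c.trans' (by simpa using hm) h h'

end Sch

/-- From a point to a point: every pair over `a` is realised over `a'`. -/
theorem HAN.pair {c : Sch U m} (hc : HAN c) (hm : 2 ≤ m) (a a' b : U) :
    ∃ b', c.r ![a, b] ![a', b'] := by
  obtain ⟨b', hb'⟩ := c.ext1 (by simpa using hm) (hc.hom a a') b
  exact ⟨b', c.pairU_of hm hb'⟩

theorem pc_swap {c : Sch U m} (hm : 2 ≤ m) {a b a' b' : U} (h : pc c a b = pc c a' b') :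
    pc c b a = pc c b' a' := by
  rw [pc_eq_iff c hm] at h ⊢
  exact c.swap2 hm h

theorem pc_of_fx {c : Sch U m} (hm : 2 ≤ m) {x y z : U} (h : Fx c x y z) :
    pc c x y = pc c x z := by
  rw [pc_eq_iff c hm]
  exact c.pairU_of hm h.1

theorem pc_ne {c : Sch U m} (hm : 2 ≤ m) {a b a' b' : U} (h : pc c a b = pc c a' b')
    (hab : a ≠ b) : a' ≠ b' := by
  rw [pc_eq_iff c hm] at h
  intro h1
  apply hab
  have := c.inj' (by simpa using hm) (c.symm' (by simpa using hm) h) 0 1 (by simpa using h1)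
  simpa using this

/-- The colour of a triple, as a set of triples. -/
def tc (c : Sch U m) (a b d : U) : Set (U × U × U) := {p | c.r ![a, b, d] ![p.1, p.2.1, p.2.2]}

theorem tc_eq_iff (c : Sch U m) (hm : 3 ≤ m) {a b d a' b' d' : U} :
    tc c a b d = tc c a' b' d' ↔ c.r ![a, b, d] ![a', b', d'] := by
  constructor
  · intro h
    have h1 : (a', b', d') ∈ tc c a' b' d' := c.rfl' _ (by simpa using hm)
    rw [← h] at h1
    exact h1
  · intro h
    ext p
    constructor
    · intro hp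
      exact c.trans3 hm (c.symm3 hm h) hp
    · intro hp
      exact c.trans3 hm h hp

theorem mem_tc (c : Sch U m) (hm : 3 ≤ m) (a b d : U) : (a, b, d) ∈ tc c a b d :=
  c.rfl' _ (by simpa using hm)

/-- The rotation of a set of triples. -/
def rotS (w : Set (U × U × U)) : Set (U × U × U) := {p | (p.2.2, p.1, p.2.1) ∈ w}

theorem rotS3 (w : Set (U × U × U)) : rotS (rotS (rotS w)) = w := by
  ext p; rfl

theorem rotS_tc (c : Sch U m) (hm : 3 ≤ m) (a b d : U) : rotS (tc c a b d) = tc c b d a := by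
  ext p
  constructor
  · intro h
    exact c.rot3 hm h
  · intro h
    exact c.rot3 hm (c.rot3 hm h)

/-- The colours of the triples with the same blocks. -/
def sig (c : Sch U m) (a b d : U) : Set (U × U × U) :=
  {p | ∃ b' d', Fx c a b b' ∧ Fx c a d d' ∧ c.r ![a, b', d'] ![p.1, p.2.1, p.2.2]}

theorem sig_sub (c : Sch U m) (hm : 5 ≤ m) {a b d a1 b1 d1 : U}
    (h : c.r ![a, b, d] ![a1, b1, d1]) : sig c a b d ⊆ sig c a1 b1 d1 := by
  rintro p ⟨b', d', h1, h2, h3⟩
  obtain ⟨b1', hb⟩ := c.ext3 (by omega) h b'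
  obtain ⟨d1', hd⟩ := c.ext4 hm hb d'
  have e1 := c.sub5 hm hd 0 1 3
  have e2 := c.sub5 hm hd 0 2 4
  have e3 := c.sub5 hm hd 0 3 4
  simp at e1 e2 e3
  refine ⟨b1', d1', fx_cross c (by omega) e1 h1, fx_cross c (by omega) e2 h2, ?_⟩
  exact c.trans3 (by omega) (c.symm3 (by omega) e3) h3

theorem sig_congr (c : Sch U m) (hm : 5 ≤ m) {a b d a1 b1 d1 : U}
    (h : c.r ![a, b, d] ![a1, b1, d1]) : sig c a b d = sig c a1 b1 d1 :=
  Set.Subset.antisymm (sig_sub c hm h) (sig_sub c hm (c.symm3 (by omega) h))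

theorem mem_sig (c : Sch U m) (hc : HAN c) (hm : 3 ≤ m) (a b d : U) :
    (a, b, d) ∈ sig c a b d :=
  ⟨b, d, (fx_inv c a hm hc).eqv.refl b, (fx_inv c a hm hc).eqv.refl d,
    c.rfl' _ (by simpa using hm)⟩

theorem sig_blocks (c : Sch U m) (hc : HAN c) (hm : 3 ≤ m) {a b d b' d' : U}
    (hb : Fx c a b b') (hd : Fx c a d d') : sig c a b d = sig c a b' d' := by
  have e := (fx_inv c a hm hc).eqv
  ext p
  constructor
  · rintro ⟨u, v, h1, h2, h3⟩
    exact ⟨u, v, e.trans (e.symm hb) h1, e.trans (e.symm hd) h2, h3⟩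
  · rintro ⟨u, v, h1, h2, h3⟩
    exact ⟨u, v, e.trans hb h1, e.trans hd h2, h3⟩

/-- The union of the sets `sig` over a colour of triples. -/
def sgS (c : Sch U m) (w : Set (U × U × U)) : Set (U × U × U) :=
  {p | ∃ t ∈ w, p ∈ sig c t.1 t.2.1 t.2.2}

theorem sgS_tc (c : Sch U m) (hm : 5 ≤ m) (a b d : U) : sgS c (tc c a b d) = sig c a b d := by
  ext p
  constructor
  · rintro ⟨t, ht, hp⟩
    rw [sig_congr c hm (ht : c.r ![a, b, d] ![t.1, t.2.1, t.2.2])]
    exact hp
  · intro hp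
    exact ⟨(a, b, d), mem_tc c (by omega) a b d, hp⟩

end Pool.Agent.H1MS
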